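import Pool.Agent.H910Z.TE.Wit

set_option autoImplicit false
set_option linter.unusedSectionVars false
set_option linter.unusedSimpArgs false
set_option linter.unusedVariables false

/-! # Cyclic length, and targets of infinite rank -/

namespace Pool.Agent.H910Z.TE

open Pool.Agent.Helper156.OF FreeGroup

lemma norm_pow_succ {α : Type} [DecidableEq α] (g : FreeGroup α) (k : ℕ) :
    (g ^ (k + 1)).norm = 2 * (reduceCyclically.conjugator g.toWord).length +
      (k + 1) * (reduceCyclically g.toWord).length := by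
  unfold FreeGroup.norm
  rw [FreeGroup.toWord_pow,
    reduceCyclically.reduce_flatten_replicate_succ FreeGroup.isReduced_toWord k]
  simp only [List.length_append, FreeGroup.invRev_length, List.length_flatten, List.map_replicate,
    List.sum_replicate, smul_eq_mul]
  ring

lemma tau_eq_len {α : Type} [DecidableEq α] (g : FreeGroup α) :
    tau g = (reduceCyclically g.toWord).length := by
  have h1 := norm_pow_succ g 0
  have h2 := norm_pow_succ g 1
  rw [zero_add, pow_one] at h1
  rw [show (1 + 1 : ℕ) = 2 from rfl, pow_two] at h2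
  unfold tau
  rw [h1, h2]
  push_cast
  ring

lemma norm_pow_le {α : Type} [DecidableEq α] (g : FreeGroup α) (k : ℕ) :
    (g ^ k).norm ≤ k * g.norm := by
  induction k with
  | zero => simp
  | succ k ih =>
    have := FreeGroup.norm_mul_le (g ^ k) g
    rw [pow_succ, Nat.succ_mul]
    omega

lemma len_le_conj {α : Type} [DecidableEq α] (g h : FreeGroup α) :
    (reduceCyclically g.toWord).length ≤ (h * g * h⁻¹).norm := by
  by_contra hc
  push Not at hc
  have h1 := norm_pow_succ g (2 * h.norm)
  have h2 : g ^ (2 * h.norm + 1) = h⁻¹ * (h * g * h⁻¹) ^ (2 * h.norm + 1) * h := by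
    rw [conj_pow]
    group
  have h3 := FreeGroup.norm_mul_le (h⁻¹ * (h * g * h⁻¹) ^ (2 * h.norm + 1)) h
  have h4 := FreeGroup.norm_mul_le h⁻¹ ((h * g * h⁻¹) ^ (2 * h.norm + 1))
  have h5 := norm_pow_le (h * g * h⁻¹) (2 * h.norm + 1)
  rw [FreeGroup.norm_inv_eq] at h4
  rw [← h2] at h3
  have h6 : (2 * h.norm + 1) * ((h * g * h⁻¹).norm + 1) ≤
      (2 * h.norm + 1) * (reduceCyclically g.toWord).length := Nat.mul_le_mul_left _ hc
  rw [mul_add] at h6
  omega

lemma iInf_conj {α : Type} [DecidableEq α] (g : FreeGroup α) :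
    ((⨅ h : FreeGroup α, (h * g * h⁻¹).norm : ℕ) : ℤ) = tau g := by
  rw [tau_eq_len]
  congr 1
  apply le_antisymm
  · refine (ciInf_le (OrderBot.bddBelow _)
      (FreeGroup.mk (reduceCyclically.conjugator g.toWord))⁻¹).trans ?_
    have h1 := reduceCyclically.conj_conjugator_reduceCyclically g.toWord
    have h2 : g = FreeGroup.mk (reduceCyclically.conjugator g.toWord) *
        FreeGroup.mk (reduceCyclically g.toWord) *
        (FreeGroup.mk (reduceCyclically.conjugator g.toWord))⁻¹ := by
      rw [FreeGroup.inv_mk, ← mk_append', ← mk_append', h1, FreeGroup.mk_toWord]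
    have h3 : (FreeGroup.mk (reduceCyclically.conjugator g.toWord))⁻¹ * g *
        (FreeGroup.mk (reduceCyclically.conjugator g.toWord))⁻¹⁻¹ =
        FreeGroup.mk (reduceCyclically g.toWord) := by
      generalize FreeGroup.mk (reduceCyclically.conjugator g.toWord) = A at h2 ⊢
      generalize FreeGroup.mk (reduceCyclically g.toWord) = C at h2 ⊢
      rw [h2]
      group
    rw [h3]
    exact FreeGroup.norm_mk_le
  · exact le_ciInf fun h => len_le_conj g h

lemma emb_prj {N : ℕ} {w : FreeGroup ℕ} (h : w ∈ LB N) : emb N (prj N w) = w := by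
  have h1 : ∀ l : List (Lt ℕ), (∀ a ∈ l, a.1 < N) →
      emb N (prj N (FreeGroup.mk l)) = FreeGroup.mk l := by
    intro l
    induction l with
    | nil => intro _; rw [← FreeGroup.one_eq_mk, _root_.map_one, _root_.map_one]
    | cons a l ih =>
      intro hl
      rw [mk_cons, _root_.map_mul, _root_.map_mul, ih fun b hb => hl b (List.mem_cons_of_mem _ hb)]
      congr 1
      have ha := hl a (by simp)
      obtain ⟨j, s⟩ := a
      simp only at ha
      cases s <;> simp [prj, emb, gl, ha] <;> rfl
  conv_lhs => rw [← FreeGroup.mk_toWord (x := w)]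
  rw [h1 _ h, FreeGroup.mk_toWord]

theorem tau_nat_of_aut {n : ℕ} (u v : FreeGroup (Fin n))
    (h : ∀ φ : MulAut (FreeGroup (Fin n)), tau (φ u) = tau (φ v))
    (Θ : FreeGroup (Fin n) →* FreeGroup ℕ) (hΘ : Function.Injective Θ) (N : ℕ)
    (hN : ∀ x, Θ (FreeGroup.of x) ∈ LB N) : tau (Θ u) = tau (Θ v) := by
  have h1 : ∀ g, Θ g ∈ LB N := by
    intro g
    induction g using FreeGroup.induction_on with
    | C1 => rw [_root_.map_one]; exact one_mem _
    | of x => exact hN x
    | inv_of x _ => rw [_root_.map_inv]; exact inv_mem (hN x)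
    | mul x y hx hy => rw [_root_.map_mul]; exact mul_mem hx hy
  have h2 : ∀ g, emb N (((prj N).comp Θ) g) = Θ g := fun g => emb_prj (h1 g)
  have h3 : Function.Injective ((prj N).comp Θ) := by
    intro a b hab
    apply hΘ
    rw [← h2, hab, h2]
  have h4 := tau_inj_of_aut u v h _ h3
  rw [← h2 u, ← h2 v]
  unfold emb
  rw [tau_map_inj _ Fin.val_injective, tau_map_inj _ Fin.val_injective, h4]

end Pool.Agent.H910Z.TE
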