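import Pool.Agent.H910Z.TE.Cyc

set_option autoImplicit false
set_option linter.unusedSectionVars false
set_option linter.unusedSimpArgs false
set_option linter.unusedVariables false

/-! # The decision procedure -/

namespace Pool.Agent.H910Z.TE

open Pool.Agent.Helper156.OF

abbrev Wd := List (ℕ × Bool)

/-- all lists of length at most `k` with entries in `A` -/
def upto {σ : Type} (A : List σ) (k : ℕ) : List (List σ) :=
  Nat.rec [[]] (fun _ ih => [] :: A.flatMap (fun a => ih.map (fun l => a :: l))) k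

lemma mem_upto {σ : Type} (A : List σ) (k : ℕ) (l : List σ) (h1 : l.length ≤ k)
    (h2 : ∀ a ∈ l, a ∈ A) : l ∈ upto A k := by
  induction k generalizing l with
  | zero =>
    have : l = [] := List.length_eq_zero_iff.1 (by omega)
    subst this
    exact List.mem_singleton.2 rfl
  | succ k ih =>
    show l ∈ [] :: A.flatMap (fun a => (upto A k).map (fun l => a :: l))
    cases l with
    | nil => exact List.mem_cons_self
    | cons a l =>
      refine List.mem_cons_of_mem _ (List.mem_flatMap.2 ⟨a, h2 a (by simp), ?_⟩)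
      exact List.mem_map.2 ⟨l, ih l (by simpa using h1) fun b hb =>
        h2 b (List.mem_cons_of_mem _ hb), rfl⟩

lemma upto_prim {σ : Type} [Primcodable σ] : Primrec₂ (upto : List σ → ℕ → List (List σ)) := by
  have h1 : Primrec₂ (fun (A : List σ) (p : ℕ × List (List σ)) =>
      ([] : List σ) :: A.flatMap (fun a => p.2.map (fun l => a :: l))) := by
    refine Primrec.list_cons.comp (Primrec.const []) ?_
    refine Primrec.list_flatMap Primrec.fst ?_
    refine Primrec.list_map (Primrec.snd.comp (Primrec.snd.comp Primrec.fst)) ?_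
    exact Primrec.list_cons.comp (Primrec.snd.comp Primrec.fst) Primrec.snd
  exact Primrec.nat_rec (f := fun _ : List σ => ([[]] : List (List σ))) (Primrec.const _) h1

def letters (N : ℕ) : Wd := (List.range N).flatMap (fun j => [(j, true), (j, false)])

lemma mem_letters {N : ℕ} (a : ℕ × Bool) (h : a.1 < N) : a ∈ letters N := by
  obtain ⟨j, s⟩ := a
  refine List.mem_flatMap.2 ⟨j, List.mem_range.2 h, ?_⟩
  cases s <;> simp

lemma letters_prim : Primrec letters := by
  refine Primrec.list_flatMap Primrec.list_range ?_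
  refine Primrec.list_cons.comp (Primrec.pair Primrec.snd (Primrec.const true)) ?_
  exact Primrec.list_cons.comp (Primrec.pair Primrec.snd (Primrec.const false)) (Primrec.const [])

lemma reduce_prim : Primrec (FreeGroup.reduce : Wd → Wd) := by
  have h1 : Primrec₂ (fun (_ : Wd) (p : (ℕ × Bool) × Wd × Wd) =>
      (List.casesOn p.2.2 [p.1] fun hd2 tl2 =>
        if p.1.1 = hd2.1 ∧ p.1.2 = not hd2.2 then tl2 else p.1 :: hd2 :: tl2 : Wd)) := by
    have h2 : Primrec₂ (fun (p : (ℕ × Bool) × Wd × Wd) (q : (ℕ × Bool) × Wd) =>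
        (if p.1.1 = q.1.1 ∧ p.1.2 = not q.1.2 then q.2 else p.1 :: q.1 :: q.2 : Wd)) := by
      refine Primrec.ite (PrimrecPred.and ?_ ?_) (Primrec.snd.comp Primrec.snd) ?_
      · exact Primrec.eq.comp (Primrec.fst.comp (Primrec.fst.comp Primrec.fst))
          (Primrec.fst.comp (Primrec.fst.comp Primrec.snd))
      · exact Primrec.eq.comp (Primrec.snd.comp (Primrec.fst.comp Primrec.fst))
          (Primrec.not.comp (Primrec.snd.comp (Primrec.fst.comp Primrec.snd)))
      · exact Primrec.list_cons.comp (Primrec.fst.comp Primrec.fst)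
          (Primrec.list_cons.comp (Primrec.fst.comp Primrec.snd) (Primrec.snd.comp Primrec.snd))
    have h3 := Primrec.list_casesOn (f := fun p : (ℕ × Bool) × Wd × Wd => p.2.2)
      (g := fun p => ([p.1] : Wd)) (Primrec.snd.comp Primrec.snd)
      (Primrec.list_cons.comp Primrec.fst (Primrec.const [])) h2
    exact h3.comp Primrec.snd
  exact Primrec.list_rec (f := fun l : Wd => l) (g := fun _ => ([] : Wd)) Primrec.id
    (Primrec.const _) h1

lemma invRev_prim : Primrec (FreeGroup.invRev : Wd → Wd) := by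
  refine Primrec.list_reverse.comp (Primrec.list_map Primrec.id ?_)
  exact Primrec.pair (Primrec.fst.comp Primrec.snd) (Primrec.not.comp (Primrec.snd.comp Primrec.snd))

def app (θ : List Wd) (u : Wd) : Wd :=
  u.flatMap (fun a => cond a.2 (θ.getD a.1 []) (FreeGroup.invRev (θ.getD a.1 [])))

lemma app_prim : Primrec₂ app := by
  refine Primrec.list_flatMap Primrec.snd ?_
  have h1 : Primrec (fun p : (List Wd × Wd) × (ℕ × Bool) => p.1.1.getD p.2.1 []) :=
    (Primrec.list_getD []).comp (Primrec.fst.comp Primrec.fst) (Primrec.fst.comp Primrec.snd)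
  exact Primrec.cond (Primrec.snd.comp Primrec.snd) h1 (invRev_prim.comp h1)

def len2 (w : Wd) : ℕ := (FreeGroup.reduce (w ++ w)).length
def len1 (w : Wd) : ℕ := (FreeGroup.reduce w).length

lemma len2_prim : Primrec len2 :=
  Primrec.list_length.comp (reduce_prim.comp (Primrec.list_append.comp Primrec.id Primrec.id))

lemma len1_prim : Primrec len1 := Primrec.list_length.comp reduce_prim

def retr (n : ℕ) (θ : List Wd) : Prop :=
  ∀ i ∈ List.range n, FreeGroup.reduce ((θ.getD i []).filter (fun a => a.1 < n)) = [(i, true)]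

lemma retr_prim : PrimrecRel retr := by
  have h0 : Primrec₂ (fun (L : Wd) (n : ℕ) => L.filter (fun a => a.1 < n)) :=
    PrimrecRel.listFilter (R := fun (a : ℕ × Bool) (n : ℕ) => a.1 < n)
      (Primrec.nat_lt.comp (Primrec.fst.comp Primrec.fst) Primrec.snd)
  have h1 : PrimrecRel (fun (i : ℕ) (p : ℕ × List Wd) =>
      FreeGroup.reduce ((p.2.getD i []).filter (fun a => a.1 < p.1)) = [(i, true)]) := by
    refine Primrec.eq.comp (reduce_prim.comp (h0.comp ?_ (Primrec.fst.comp Primrec.snd))) ?_
    · exact (Primrec.list_getD []).comp (Primrec.snd.comp Primrec.snd) Primrec.fst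
    · exact Primrec.list_cons.comp (Primrec.pair Primrec.fst (Primrec.const true))
        (Primrec.const [])
  exact h1.forall_mem_list.comp (Primrec.list_range.comp Primrec.fst) Primrec.id

lemma pow_prim : Primrec₂ ((· ^ ·) : ℕ → ℕ → ℕ) := Primrec₂.unpaired'.1 Nat.Primrec.pow

lemma NB_prim : Primrec NB := by
  have h1 : Primrec (fun B : ℕ => 4 * B + 2) :=
    Primrec.nat_add.comp (Primrec.nat_mul.comp (Primrec.const 4) Primrec.id) (Primrec.const 2)
  exact Primrec.nat_mul.comp (Primrec.nat_mul.comp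
    (pow_prim.comp (Primrec.const 2) (Primrec.nat_mul.comp (Primrec.const 2) Primrec.id))
    (pow_prim.comp (Primrec.const 2) (Primrec.nat_mul.comp h1 h1))) h1

lemma cube_prim : Primrec (fun M : ℕ => (M ^ 2 + 1) ^ 3) :=
  pow_prim.comp (Primrec.nat_add.comp (pow_prim.comp Primrec.id (Primrec.const 2))
    (Primrec.const 1)) (Primrec.const 3)

lemma ZB_prim : Primrec₂ ZB := by
  have h1 : Primrec (fun p : ℕ × ℕ => p.2 * (p.2 ^ 2 + 1) ^ 3) :=
    Primrec.nat_mul.comp Primrec.snd (cube_prim.comp Primrec.snd)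
  have h2 : Primrec (fun p : ℕ × ℕ =>
      4 * (p.1 * (p.2 * (p.2 ^ 2 + 1) ^ 3)) + p.2 * (p.2 ^ 2 + 1) ^ 3 + 2) :=
    Primrec.nat_add.comp (Primrec.nat_add.comp (Primrec.nat_mul.comp (Primrec.const 4)
      (Primrec.nat_mul.comp Primrec.fst h1)) h1) (Primrec.const 2)
  exact pow_prim.comp (Primrec.const 2) (NB_prim.comp h2)

lemma BL_prim : Primrec₂ BL := by
  have h1 : Primrec (fun p : ℕ × ℕ => ZB p.1 p.2) := ZB_prim
  exact Primrec.nat_mul.comp (Primrec.const 2) (Primrec.nat_add.comp
    (Primrec.nat_mul.comp (cube_prim.comp Primrec.snd) (Primrec.nat_mul.comp h1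
      (Primrec.nat_add.comp (Primrec.nat_mul.comp (Primrec.const 2) h1) (Primrec.const 1))))
    (Primrec.const 1))

def bnd (x : ℕ × Wd × Wd) : ℕ := BL x.1 (x.1 + 2 * x.2.1.length + 2 * x.2.2.length + 2)

lemma bnd_prim : Primrec bnd :=
  BL_prim.comp Primrec.fst (Primrec.nat_add.comp (Primrec.nat_add.comp (Primrec.nat_add.comp
    Primrec.fst (Primrec.nat_mul.comp (Primrec.const 2)
      (Primrec.list_length.comp (Primrec.fst.comp Primrec.snd))))
    (Primrec.nat_mul.comp (Primrec.const 2)
      (Primrec.list_length.comp (Primrec.snd.comp Primrec.snd)))) (Primrec.const 2))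

def cands (x : ℕ × Wd × Wd) : List (List Wd) := upto (upto (letters (x.1 + bnd x)) (bnd x)) x.1

lemma cands_prim : Primrec cands :=
  upto_prim.comp (upto_prim.comp (letters_prim.comp (Primrec.nat_add.comp Primrec.fst bnd_prim))
    bnd_prim) Primrec.fst

def okay (θ : List Wd) (x : ℕ × Wd × Wd) : Prop :=
  ¬ retr x.1 θ ∨
    len2 (app θ x.2.1) + len1 (app θ x.2.2) = len2 (app θ x.2.2) + len1 (app θ x.2.1)

lemma okay_prim : PrimrecRel okay := by
  have h1 : Primrec (fun p : List Wd × ℕ × Wd × Wd => app p.1 p.2.2.1) :=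
    app_prim.comp Primrec.fst (Primrec.fst.comp (Primrec.snd.comp Primrec.snd))
  have h2 : Primrec (fun p : List Wd × ℕ × Wd × Wd => app p.1 p.2.2.2) :=
    app_prim.comp Primrec.fst (Primrec.snd.comp (Primrec.snd.comp Primrec.snd))
  refine PrimrecPred.or (PrimrecPred.not
    (retr_prim.comp (Primrec.fst.comp Primrec.snd) Primrec.fst)) ?_
  exact Primrec.eq.comp (Primrec.nat_add.comp (len2_prim.comp h1) (len1_prim.comp h2))
    (Primrec.nat_add.comp (len2_prim.comp h2) (len1_prim.comp h1))

def test (x : ℕ × Wd × Wd) : Prop := ∀ θ ∈ cands x, okay θ x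

lemma test_prim : PrimrecPred test := okay_prim.forall_mem_list.comp cands_prim Primrec.id

/-- the homomorphism given by a list of words -/
def hom (n : ℕ) (θ : List Wd) : FreeGroup (Fin n) →* FreeGroup ℕ :=
  FreeGroup.lift (fun i => FreeGroup.mk (θ.getD i.val []))

lemma hom_app (n : ℕ) (θ : List Wd) (u : List (Fin n × Bool)) :
    hom n θ (FreeGroup.mk u) = FreeGroup.mk (app θ (u.map (fun a => (a.1.val, a.2)))) := by
  induction u with
  | nil => exact map_one _
  | cons a u ih =>
    rw [mk_cons, map_mul, ih, List.map_cons]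
    unfold app
    rw [List.flatMap_cons, mk_append']
    congr 1
    obtain ⟨j, s⟩ := a
    cases s
    · simp only [hom, gl, FreeGroup.lift_mk, List.map_cons, List.map_nil, List.prod_cons,
        List.prod_nil, mul_one, cond_false, FreeGroup.inv_mk]
    · simp only [hom, gl, FreeGroup.lift_mk, List.map_cons, List.map_nil, List.prod_cons,
        List.prod_nil, mul_one, cond_true]

lemma tau_mk (w : Wd) : tau (FreeGroup.mk w) = (len2 w : ℤ) - len1 w := by
  unfold tau len2 len1 FreeGroup.norm
  rw [← mk_append', FreeGroup.toWord_mk, FreeGroup.toWord_mk]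

lemma emb_prj_mk (n : ℕ) (l : Wd) :
    emb n (prj n (FreeGroup.mk l)) = FreeGroup.mk (l.filter (fun a => a.1 < n)) := by
  induction l with
  | nil => rw [List.filter_nil, ← FreeGroup.one_eq_mk, map_one, map_one]
  | cons a l ih =>
    rw [mk_cons, map_mul, map_mul, ih, List.filter_cons]
    by_cases h : a.1 < n
    · rw [if_pos (by simpa using h), mk_cons, emb_prj (gl_LB a h)]
    · rw [if_neg (by simpa using h), prj_gl a (by omega), map_one, one_mul]

lemma retr_iff (n : ℕ) (θ : List Wd) : retr n θ ↔ ∀ g, prj n (hom n θ g) = g := by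
  have h1 : ∀ x : Fin n, prj n (hom n θ (FreeGroup.of x)) = FreeGroup.of x ↔
      FreeGroup.reduce ((θ.getD x.val []).filter (fun a => a.1 < n)) = [(x.val, true)] := by
    intro x
    have e1 : hom n θ (FreeGroup.of x) = FreeGroup.mk (θ.getD x.val []) := by simp [hom]
    have e2 : emb n (FreeGroup.of x) = FreeGroup.of x.val := by simp [emb]
    rw [e1, ← FreeGroup.toWord_mk, ← emb_prj_mk, ← FreeGroup.toWord_of, ← e2,
      FreeGroup.toWord_inj]
    constructor
    · intro h
      rw [h]
    · intro h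
      have := congrArg (prj n) h
      rwa [prj_emb, prj_emb] at this
  constructor
  · intro h g
    have : (prj n).comp (hom n θ) = MonoidHom.id _ := by
      ext x
      exact (h1 x).2 (h x.val (List.mem_range.2 x.2))
    exact DFunLike.congr_fun this g
  · intro h i hi
    exact (h1 ⟨i, List.mem_range.1 hi⟩).1 (h _)

lemma exists_LB {n : ℕ} (Θ : FreeGroup (Fin n) →* FreeGroup ℕ) :
    ∃ N, ∀ x, Θ (FreeGroup.of x) ∈ LB N := by
  refine ⟨∑ x, ((Θ (FreeGroup.of x)).toWord.map (fun a => a.1 + 1)).sum, fun x a ha => ?_⟩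
  have h1 : a.1 + 1 ≤ ((Θ (FreeGroup.of x)).toWord.map (fun a => a.1 + 1)).sum :=
    List.single_le_sum (fun _ _ => Nat.zero_le _) _ (List.mem_map.2 ⟨a, ha, rfl⟩)
  have h2 := Finset.single_le_sum
    (f := fun x => ((Θ (FreeGroup.of x)).toWord.map (fun a => a.1 + 1)).sum)
    (fun _ _ => Nat.zero_le _) (Finset.mem_univ x)
  omega

theorem test_iff (n : ℕ) (u v : List (Fin n × Bool)) :
    test (n, u.map (fun a => (a.1.val, a.2)), v.map (fun a => (a.1.val, a.2))) ↔
      ∀ φ : MulAut (FreeGroup (Fin n)), tau (φ (FreeGroup.mk u)) = tau (φ (FreeGroup.mk v)) := by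
  have hok : ∀ θ : List Wd,
      okay θ (n, u.map (fun a => (a.1.val, a.2)), v.map (fun a => (a.1.val, a.2))) ↔
      ((∀ g, prj n (hom n θ g) = g) →
        tau (hom n θ (FreeGroup.mk u)) = tau (hom n θ (FreeGroup.mk v))) := by
    intro θ
    unfold okay
    rw [← imp_iff_not_or, retr_iff, hom_app, hom_app, tau_mk, tau_mk]
    refine imp_congr Iff.rfl ?_
    simp only
    omega
  constructor
  · intro h φ
    by_contra hne
    obtain ⟨Θ, h1, h2, h3⟩ := witness φ.toMonoidHom φ.injective u v hne
    set θ : List Wd := List.ofFn (fun x : Fin n => (Θ (FreeGroup.of x)).toWord) with hθ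
    have e1 : hom n θ = Θ := by
      ext x
      have : θ.getD x.val [] = (Θ (FreeGroup.of x)).toWord := by
        rw [List.getD_eq_getElem _ _ (by simp [hθ])]
        simp [hθ]
      simp only [hom, FreeGroup.lift_apply_of, this, FreeGroup.mk_toWord]
    have e2 : bnd (n, u.map (fun a => (a.1.val, a.2)), v.map (fun a => (a.1.val, a.2))) =
        BL n (n + 2 * u.length + 2 * v.length + 2) := by
      unfold bnd
      simp only [List.length_map]
    have e3 : θ ∈ cands (n, u.map (fun a => (a.1.val, a.2)), v.map (fun a => (a.1.val, a.2))) := by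
      unfold cands
      rw [e2]
      generalize BL n (n + 2 * u.length + 2 * v.length + 2) = L at h2 ⊢
      refine mem_upto _ _ _ (by simp [hθ]) fun w hw => ?_
      rw [hθ, List.mem_ofFn] at hw
      obtain ⟨x, rfl⟩ := hw
      exact mem_upto _ _ _ (h2 x).1 fun a ha => mem_letters a ((h2 x).2 a ha)
    have := (hok θ).1 (h θ e3)
    rw [e1] at this
    exact h3 (this h1)
  · intro h θ _
    refine (hok θ).2 fun h1 => ?_
    obtain ⟨N, hN⟩ := exists_LB (hom n θ)
    refine tau_nat_of_aut _ _ h _ (fun a b hab => ?_) N hN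
    rw [← h1 a, hab, h1]

theorem decidable_te : ∃ f : ℕ × List (ℕ × Bool) × List (ℕ × Bool) → Bool, Primrec f ∧
    ∀ (n : ℕ) (u v : List (Fin n × Bool)),
      f (n, u.map (fun a => (a.1.val, a.2)), v.map (fun a => (a.1.val, a.2))) = true ↔
      ∀ φ : MulAut (FreeGroup (Fin n)),
        (⨅ h : FreeGroup (Fin n), (h * φ (FreeGroup.mk u) * h⁻¹).norm) =
          ⨅ h : FreeGroup (Fin n), (h * φ (FreeGroup.mk v) * h⁻¹).norm := by
  classical
  refine ⟨fun x => decide (test x), test_prim.decide, fun n u v => ?_⟩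
  rw [decide_eq_true_iff, test_iff]
  refine forall_congr' fun φ => ?_
  rw [← iInf_conj, ← iInf_conj, Nat.cast_inj]

end Pool.Agent.H910Z.TE
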