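import Pool.Agent.H910Z.TE.Words1

set_option autoImplicit false
set_option linter.unusedSectionVars false
set_option linter.unusedSimpArgs false
set_option linter.unusedVariables false

/-! # Words over the natural numbers: old letters (below `n`) and new letters -/

namespace Pool.Agent.H910Z.TE

open Pool.Agent.Helper156.OF

lemma toWord_map_inj {α β : Type} [DecidableEq α] [DecidableEq β] (f : α → β)
    (hf : Function.Injective f) (g : FreeGroup α) :
    (FreeGroup.map f g).toWord = g.toWord.map (fun x => (f x.1, x.2)) := by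
  have h1 : FreeGroup.IsReduced (g.toWord.map (fun x => (f x.1, x.2))) := by
    have h := FreeGroup.isReduced_toWord (x := g)
    unfold FreeGroup.IsReduced at h ⊢
    rw [List.isChain_map]
    exact h.imp fun a b hab h2 => hab (hf h2)
  conv_lhs => rw [← FreeGroup.mk_toWord (x := g), FreeGroup.map.mk, FreeGroup.toWord_mk,
    h1.reduce_eq]

lemma norm_map_inj {α β : Type} [DecidableEq α] [DecidableEq β] (f : α → β)
    (hf : Function.Injective f) (g : FreeGroup α) : (FreeGroup.map f g).norm = g.norm := by
  simp [FreeGroup.norm, toWord_map_inj f hf]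

lemma tau_map_inj {α β : Type} [DecidableEq α] [DecidableEq β] (f : α → β)
    (hf : Function.Injective f) (g : FreeGroup α) : tau (FreeGroup.map f g) = tau g := by
  unfold tau
  rw [← map_mul, norm_map_inj f hf, norm_map_inj f hf]

variable (n : ℕ)

def emb : FreeGroup (Fin n) →* FreeGroup ℕ := FreeGroup.map Fin.val

def prj : FreeGroup ℕ →* FreeGroup (Fin n) :=
  FreeGroup.lift (fun j => if h : j < n then FreeGroup.of ⟨j, h⟩ else 1)

def dbl : FreeGroup ℕ →* FreeGroup ℕ :=
  FreeGroup.lift (fun j => if n ≤ j then FreeGroup.of j * FreeGroup.of j else FreeGroup.of j)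

/-- number of new letters -/
def cnt (w : FreeGroup ℕ) : ℕ := w.toWord.countP (fun a => decide (n ≤ a.1))

/-- the elements all of whose letters are below `n` -/
def LB : Subgroup (FreeGroup ℕ) where
  carrier := {w | ∀ a ∈ w.toWord, a.1 < n}
  mul_mem' := by
    intro x y hx hy a ha
    have := (FreeGroup.toWord_mul_sublist x y).subset ha
    rcases List.mem_append.1 this with h | h
    · exact hx a h
    · exact hy a h
  one_mem' := by
    intro a ha
    simp at ha
  inv_mem' := by
    intro x hx a ha
    rw [FreeGroup.toWord_inv] at ha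
    simp only [FreeGroup.invRev, List.mem_reverse, List.mem_map] at ha
    obtain ⟨b, hb, rfl⟩ := ha
    exact hx b hb

variable {n}

lemma emb_toWord (q : FreeGroup (Fin n)) :
    (emb n q).toWord = q.toWord.map (fun x => (x.1.val, x.2)) :=
  toWord_map_inj _ Fin.val_injective q

lemma emb_norm (q : FreeGroup (Fin n)) : (emb n q).norm = q.norm :=
  norm_map_inj _ Fin.val_injective q

lemma emb_lt (q : FreeGroup (Fin n)) : ∀ a ∈ (emb n q).toWord, a.1 < n := by
  intro a ha
  rw [emb_toWord, List.mem_map] at ha
  obtain ⟨b, _, rfl⟩ := ha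
  exact b.1.2

lemma emb_LB (q : FreeGroup (Fin n)) {N : ℕ} (h : n ≤ N) : emb n q ∈ LB N :=
  fun a ha => lt_of_lt_of_le (emb_lt q a ha) h

lemma gl_LB {N : ℕ} (a : Lt ℕ) (h : a.1 < N) : gl a ∈ LB N := by
  intro b hb
  simp only [gl, FreeGroup.toWord_mk, FreeGroup.reduce_singleton, List.mem_singleton] at hb
  rwa [hb]

lemma prj_emb (q : FreeGroup (Fin n)) : prj n (emb n q) = q := by
  have : (prj n).comp (emb n) = MonoidHom.id _ := by
    ext i
    simp [prj, emb]
  exact DFunLike.congr_fun this q

lemma prj_gl (a : Lt ℕ) (h : n ≤ a.1) : prj n (gl a) = 1 := by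
  have : ¬ a.1 < n := by omega
  obtain ⟨j, s⟩ := a
  simp only at this
  cases s <;> simp [prj, gl, this]

lemma prj_dbl (w : FreeGroup ℕ) : prj n (dbl n w) = prj n w := by
  have : (prj n).comp (dbl n) = prj n := by
    ext j
    by_cases h : n ≤ j
    · have : ¬ j < n := by omega
      simp [prj, dbl, h, this]
    · simp [dbl, h]
  exact DFunLike.congr_fun this w

lemma dbl_toWord (w : FreeGroup ℕ) :
    (dbl n w).toWord = w.toWord.flatMap (fun a => if n ≤ a.1 then [a, a] else [a]) := by
  have h1 : ∀ l : List (Lt ℕ), dbl n (FreeGroup.mk l) =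
      FreeGroup.mk (l.flatMap (fun a => if n ≤ a.1 then [a, a] else [a])) := by
    intro l
    induction l with
    | nil => exact map_one _
    | cons a l ih =>
      rw [mk_cons, map_mul, ih, List.flatMap_cons, mk_append']
      congr 1
      obtain ⟨j, s⟩ := a
      by_cases h : n ≤ j
      · cases s
        · simp only [dbl, gl, FreeGroup.lift_mk, h, if_true, List.map_cons, List.map_nil,
            List.prod_cons, List.prod_nil, mul_one, cond_false, mul_inv_rev]
          rfl
        · simp only [dbl, gl, FreeGroup.lift_mk, h, if_true, List.map_cons, List.map_nil,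
            List.prod_cons, List.prod_nil, mul_one, cond_true]
          rfl
      · cases s
        · simp only [dbl, gl, FreeGroup.lift_mk, h, if_false, List.map_cons, List.map_nil,
            List.prod_cons, List.prod_nil, mul_one, cond_false]
          rfl
        · simp only [dbl, gl, FreeGroup.lift_mk, h, if_false, List.map_cons, List.map_nil,
            List.prod_cons, List.prod_nil, mul_one, cond_true]
          rfl
  have h2 : ∀ l : List (Lt ℕ), FreeGroup.IsReduced l →
      FreeGroup.IsReduced (l.flatMap (fun a => if n ≤ a.1 then [a, a] else [a])) ∧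
      (l.flatMap (fun a => if n ≤ a.1 then [a, a] else [a])).head? = l.head? := by
    intro l
    induction l with
    | nil => intro _; simp
    | cons a l ih =>
      intro h
      have hl : FreeGroup.IsReduced l := List.IsChain.tail h
      obtain ⟨h3, h4⟩ := ih hl
      have h5 : FreeGroup.IsReduced
          (a :: l.flatMap (fun a => if n ≤ a.1 then [a, a] else [a])) := by
        refine red_cons h3 fun x hx => ?_
        rw [h4] at hx
        cases l with
        | nil => simp at hx
        | cons b l =>
          simp only [List.head?_cons, Option.mem_def, Option.some.injEq] at hx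
          rw [← hx]
          exact (ne_nv_of_red h).1
      rw [List.flatMap_cons]
      split_ifs
      · refine ⟨red_cons h5 fun x hx => ?_, rfl⟩
        have hx' : a = x := Option.some.inj hx
        rw [← hx']
        exact ne_nv a
      · exact ⟨h5, rfl⟩
  conv_lhs => rw [← FreeGroup.mk_toWord (x := w), h1, FreeGroup.toWord_mk,
    (h2 _ FreeGroup.isReduced_toWord).1.reduce_eq]

lemma dbl_norm (w : FreeGroup ℕ) : (dbl n w).norm = w.norm + cnt n w := by
  unfold FreeGroup.norm cnt
  rw [dbl_toWord]
  induction w.toWord with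
  | nil => rfl
  | cons a l ih =>
    rw [List.flatMap_cons, List.length_append, ih, List.countP_cons]
    by_cases h : n ≤ a.1
    · simp [h]
      omega
    · simp [h]
      omega

lemma cnt_le (w : FreeGroup ℕ) : cnt n w ≤ w.norm := List.countP_le_length

lemma dbl_LB {N : ℕ} {w : FreeGroup ℕ} (h : w ∈ LB N) : dbl n w ∈ LB N := by
  intro a ha
  rw [dbl_toWord, List.mem_flatMap] at ha
  obtain ⟨b, hb, hab⟩ := ha
  have : a = b := by
    split_ifs at hab <;> simpa using hab
  rw [this]
  exact h b hb

/-- a conjugate of a new letter -/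
def cj (x : FreeGroup (Fin n) × Lt ℕ) : FreeGroup ℕ := emb n x.1 * gl x.2 * (emb n x.1)⁻¹

lemma nf_aux (T : List (FreeGroup (Fin n) × Lt ℕ)) (hT : ∀ x ∈ T, n ≤ x.2.1)
    (hc : T.IsChain (fun x y => ¬ (x.1 = y.1 ∧ y.2 = nv x.2))) (q : FreeGroup (Fin n)) :
    ∀ q0 : FreeGroup (Fin n), cnt n (emb n q0 * (T.map cj).prod * emb n q) = T.length ∧
      ∀ x ∈ (emb n q0 * (T.map cj).prod * emb n q).toWord.head?, n ≤ x.1 →
        ∃ y ∈ T.head?, q0 * y.1 = 1 ∧ x = y.2 := by
  have hc0 : ∀ g : FreeGroup (Fin n),
      (emb n g).toWord.countP (fun a => decide (n ≤ a.1)) = 0 := by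
    intro g
    rw [List.countP_eq_zero]
    intro a ha
    have := emb_lt g a ha
    simp only [decide_eq_true_eq]
    omega
  induction T with
  | nil =>
    intro q0
    simp only [List.map_nil, List.prod_nil, mul_one, ← map_mul, List.length_nil]
    refine ⟨hc0 _, fun x hx h => ?_⟩
    have := emb_lt _ x (List.mem_of_mem_head? hx)
    omega
  | cons y T ih =>
    intro q0
    obtain ⟨g, a⟩ := y
    have ha : n ≤ a.1 := hT (g, a) (by simp)
    obtain ⟨ih1, ih2⟩ := ih (fun x hx => hT x (List.mem_cons_of_mem _ hx)) hc.tail g⁻¹
    set W := emb n g⁻¹ * (T.map cj).prod * emb n q with hW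
    have h1 : emb n q0 * (((g, a) :: T).map cj).prod * emb n q = emb n (q0 * g) * (gl a * W) := by
      simp only [List.map_cons, List.prod_cons, cj, hW, map_mul, map_inv, mul_assoc]
    have h2 : FreeGroup.IsReduced (a :: W.toWord) := by
      refine red_cons FreeGroup.isReduced_toWord fun x hx h3 => ?_
      obtain ⟨y, hy, h4, h5⟩ := ih2 x hx (by rw [h3]; exact ha)
      cases T with
      | nil => simp at hy
      | cons z T =>
        simp only [List.head?_cons, Option.mem_def, Option.some.injEq] at hy
        subst hy
        rw [List.isChain_cons_cons] at hc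
        exact hc.1 ⟨inv_mul_eq_one.1 h4, by rw [← h5, h3]⟩
    have h3 : FreeGroup.IsReduced ((emb n (q0 * g)).toWord ++ a :: W.toWord) := by
      refine List.IsChain.append FreeGroup.isReduced_toWord h2 ?_
      intro x hx y hy hxy
      simp only [List.head?_cons, Option.mem_def, Option.some.injEq] at hy
      have := emb_lt _ x (List.mem_of_mem_getLast? hx)
      rw [← hy] at hxy
      omega
    have h4 : (emb n (q0 * g) * (gl a * W)).toWord = (emb n (q0 * g)).toWord ++ a :: W.toWord := by
      conv_lhs => rw [← FreeGroup.mk_toWord (x := emb n (q0 * g)), ← FreeGroup.mk_toWord (x := W),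
        ← mk_cons, ← mk_append', FreeGroup.toWord_mk, h3.reduce_eq]
    rw [h1]
    constructor
    · unfold cnt at ih1 ⊢
      rw [h4, List.countP_append, hc0, List.countP_cons, ih1]
      simp [ha]
    · intro x hx h5
      rw [h4] at hx
      refine ⟨(g, a), by simp, ?_⟩
      cases h6 : (emb n (q0 * g)).toWord with
      | nil =>
        rw [h6] at hx
        simp only [List.nil_append, List.head?_cons, Option.mem_def, Option.some.injEq] at hx
        refine ⟨?_, hx.symm⟩
        rw [FreeGroup.toWord_eq_nil_iff] at h6
        have := congrArg (prj n) h6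
        rwa [prj_emb, map_one] at this
      | cons z l =>
        rw [h6] at hx
        simp only [List.cons_append, List.head?_cons, Option.mem_def, Option.some.injEq] at hx
        have := emb_lt (q0 * g) z (by rw [h6]; simp)
        rw [hx] at this
        omega

lemma nf (T : List (FreeGroup (Fin n) × Lt ℕ)) (hT : ∀ x ∈ T, n ≤ x.2.1)
    (hc : T.IsChain (fun x y => ¬ (x.1 = y.1 ∧ y.2 = nv x.2))) (q : FreeGroup (Fin n)) :
    cnt n ((T.map cj).prod * emb n q) = T.length := by
  have := (nf_aux T hT hc q 1).1
  rwa [map_one, one_mul] at this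

lemma norm_prod_le {α : Type} [DecidableEq α] (l : List (FreeGroup α)) (m : ℕ)
    (h : ∀ x ∈ l, x.norm ≤ m) : l.prod.norm ≤ l.length * m := by
  induction l with
  | nil => simp
  | cons a l ih =>
    have h1 := FreeGroup.norm_mul_le a l.prod
    have h2 := ih fun x hx => h x (List.mem_cons_of_mem _ hx)
    have h3 := h a (by simp)
    rw [List.prod_cons, List.length_cons, Nat.succ_mul]
    omega

end Pool.Agent.H910Z.TE
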