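import Pool.Agent.H910Z.TE.Mach4

set_option autoImplicit false
set_option linter.unusedSectionVars false
set_option linter.unusedSimpArgs false
set_option linter.unusedVariables false

/-! # Band systems: the main induction -/

namespace Pool.Agent.H910Z.TE

variable {ι : Type} [Fintype ι] [DecidableEq ι]

lemma inv_cut_mid {σ : ℕ} (hσ : 3 * σ + 2 < 2 * Fintype.card ι) {d : Dir ι} {c : Nm ι → ℤ}
    (hc : Good d c) (hN : Norm d c) {b bs : ι} {s : Bool}
    {k0 k1 : ℤ} (h0 : 0 < k0) (h1 : k0 < k1) (h2 : k1 < len d c b false)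
    (hbs : len d c bs false = 0) (hW : ∀ k, k0 ≤ k → k < k1 → W1 d c (b, s) k)
    (hW0 : ¬ W1 d c (b, s) (k0 - 1)) (hW1 : ¬ W1 d c (b, s) k1)
    (κ : ι × Bool → ℕ) (X : Finset (ι × Bool)) (hX : X.card ≤ σ)
    (hκ : ∀ β β' t, cov d c β t → cov d c β' t → κ β = κ β')
    (hcl : ∀ n, ((NE d c).filter (fun β => κ β = n ∧ β ∉ X)).card ≤ 2)
    (hcard : (NE d c).card ≤ 3 * σ) :
    Inv σ (cutD d b bs) (cutC d c b bs k0 k1) := by
  classical
  have hb : b ≠ bs := by
    rintro rfl
    omega
  set d' := cutD d b bs with hd'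
  set c' := cutC d c b bs k0 k1 with hc'
  have hcov := cut_cov hc hb h0.le h1.le h2.le
  set f : ι × Bool → ι × Bool := fun β => if β.1 = bs then (b, β.2) else β with hf
  have hNE : ∀ β ∈ NE d' c', β.1 ≠ bs → β ∈ NE d c := by
    intro β hβ h3
    have h4 := hcov β _ ⟨0, le_rfl, mem_NE.1 hβ, rfl⟩
    simp only [h3, if_false] at h4
    exact h4.mem
  obtain ⟨j0, hj0⟩ : ∃ j, j = if d b s = true then c (bg b s) + k0 else c (bg b s) - k1 := ⟨_, rfl⟩
  obtain ⟨j1, hj1⟩ : ∃ j, j = if d b s = true then c (bg b s) + k1 else c (bg b s) - k0 := ⟨_, rfl⟩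
  have hLR := sides_of_W1 hc hN h0.le h1 h2.le hW j0 j1 hj0 hj1
  have hj : j0 < j1 := by split_ifs at hj0 hj1 <;> omega
  have hold : ∀ β, β ≠ (b, s) → ∀ t t', cov d c β t → cov d c β t' → (j1 ≤ t ↔ j1 ≤ t') := by
    rintro ⟨b', s'⟩ hβ t t' h3 h4
    have h5 := hLR b' s' (by simpa using hβ)
    rw [cov_iff hc] at h3 h4
    split_ifs at h3 h4 <;> omega
  have hU1 : ∀ t, cov d' c' (b, s) t → (j1 ≤ t ↔ j1 ≤ pos d c b s (k0 - 1)) := by
    rintro t ⟨k, h3, h4, h5⟩
    simp only [hd', hc', cut_len hc hb, cut_pos, if_true, hb, if_false] at h4 h5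
    simp only [pos] at h5 ⊢
    split_ifs at h5 hj0 hj1 ⊢ <;> omega
  have hU2 : ∀ t, cov d' c' (bs, s) t → (j1 ≤ t ↔ j1 ≤ pos d c b s k1) := by
    rintro t ⟨k, h3, h4, h5⟩
    simp only [hd', hc', cut_len hc hb, cut_pos, if_true, hb.symm, if_false] at h4 h5
    simp only [pos] at h5 ⊢
    split_ifs at h5 hj0 hj1 ⊢ <;> omega
  have hxor : (j1 ≤ pos d c b s (k0 - 1)) ↔ ¬ (j1 ≤ pos d c b s k1) := by
    simp only [pos]
    split_ifs at hj0 hj1 ⊢ <;> omega
  have hnew : ∀ β t t', cov d' c' β t → cov d' c' β t' → (j1 ≤ t ↔ j1 ≤ t') := by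
    intro β t t' h3 h4
    by_cases h5 : β = (b, s)
    · subst h5
      rw [hU1 t h3, hU1 t' h4]
    · by_cases h6 : β = (bs, s)
      · subst h6
        rw [hU2 t h3, hU2 t' h4]
      · refine hold (f β) ?_ t t' (hcov β t h3) (hcov β t' h4)
        obtain ⟨b', s'⟩ := β
        simp only [hf]
        split_ifs with h7
        · intro h8
          simp only [Prod.mk.injEq, true_and] at h8
          exact h6 (by rw [h7, h8])
        · exact h5
  unfold W1 at hW0 hW1
  push Not at hW0 hW1
  obtain ⟨w0, hw0, hw0c⟩ := hW0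
  obtain ⟨w1, hw1, hw1c⟩ := hW1
  simp only at hw0c hw1c
  have hUc0 : cov d c (b, s) (pos d c b s (k0 - 1)) := ⟨k0 - 1, by omega, by simp only; omega, rfl⟩
  have hUc1 : cov d c (b, s) (pos d c b s k1) := ⟨k1, by omega, h2, rfl⟩
  have hw01 : w0 ≠ w1 := by
    rintro rfl
    have := hold w0 hw0 _ _ hw0c hw1c
    tauto
  set n0 := κ (b, s) with hn0
  set C := (NE d c).filter (fun β => κ β = n0) with hC
  have hsub : ({(b, s), w0, w1} : Finset (ι × Bool)) ⊆ C := by
    intro β hβ
    simp only [Finset.mem_insert, Finset.mem_singleton] at hβ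
    rcases hβ with rfl | rfl | rfl
    · exact Finset.mem_filter.2 ⟨hUc0.mem, rfl⟩
    · exact Finset.mem_filter.2 ⟨hw0c.mem, hκ _ _ _ hw0c hUc0⟩
    · exact Finset.mem_filter.2 ⟨hw1c.mem, hκ _ _ _ hw1c hUc1⟩
  have hc3 : ({(b, s), w0, w1} : Finset (ι × Bool)).card = 3 :=
    Finset.card_eq_three.2 ⟨_, _, _, hw0.symm, hw1.symm, hw01, rfl⟩
  have hCX : C.card ≤ (X.filter (fun β => κ β = n0)).card + 2 := by
    have h3 : C ⊆ X.filter (fun β => κ β = n0) ∪
        (NE d c).filter (fun β => κ β = n0 ∧ β ∉ X) := by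
      intro β hβ
      have h4 := Finset.mem_filter.1 hβ
      by_cases h5 : β ∈ X
      · exact Finset.mem_union_left _ (Finset.mem_filter.2 ⟨h5, h4.2⟩)
      · exact Finset.mem_union_right _ (Finset.mem_filter.2 ⟨h4.1, h4.2, h5⟩)
    have h4 := Finset.card_le_card h3
    have h5 := Finset.card_union_le (X.filter (fun β => κ β = n0))
      ((NE d c).filter (fun β => κ β = n0 ∧ β ∉ X))
    have h6 := hcl n0
    omega
  set sd : ι × Bool → Prop := fun β => ∃ t, cov d' c' β t ∧ j1 ≤ t with hsd
  have hsd' : ∀ β t, cov d' c' β t → (sd β ↔ j1 ≤ t) := by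
    intro β t h3
    constructor
    · rintro ⟨t', h4, h5⟩
      exact (hnew β t t' h3 h4).2 h5
    · intro h4
      exact ⟨t, h3, h4⟩
  refine ⟨?_, fun β => 2 * κ (f β) + if sd β then 1 else 0,
    X.filter (fun β => ¬ κ β = n0) ∪ insert (bs, !s) (C \ {(b, s), w0, w1}), ?_, ?_, ?_⟩
  · have h3 : NE d' c' ⊆ insert (bs, false) (insert (bs, true) (NE d c)) := by
      rintro ⟨b', s'⟩ hβ
      by_cases h4 : b' = bs
      · subst h4
        cases s' <;> simp
      · exact Finset.mem_insert_of_mem (Finset.mem_insert_of_mem (hNE _ hβ h4))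
    have h4 := Finset.card_le_card h3
    have h5 := Finset.card_insert_le (bs, false) (insert (bs, true) (NE d c))
    have h6 := Finset.card_insert_le (bs, true) (NE d c)
    omega
  · have h3 := Finset.card_union_le (X.filter (fun β => ¬ κ β = n0))
      (insert (bs, !s) (C \ {(b, s), w0, w1}))
    have h4 := Finset.card_insert_le (bs, !s) (C \ {(b, s), w0, w1})
    have h5 := Finset.card_sdiff_of_subset hsub
    have h6 := Finset.card_le_card hsub
    have h7 := Finset.card_filter_add_card_filter_not (s := X) (fun β => κ β = n0)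
    omega
  · intro β β' t h3 h4
    simp only
    have h5 : κ (f β) = κ (f β') := hκ _ _ t (hcov β t h3) (hcov β' t h4)
    have : sd β ↔ sd β' := by rw [hsd' β t h3, hsd' β' t h4]
    simp only [this, h5]
  · intro n
    by_cases hn : n / 2 = n0
    · have h3 : ∀ β ∈ (NE d' c').filter (fun β => (2 * κ (f β) + if sd β then 1 else 0) = n ∧
          β ∉ X.filter (fun β => ¬ κ β = n0) ∪ insert (bs, !s) (C \ {(b, s), w0, w1})),
          ((β = (b, s) ∨ β = w0) ∧ (n % 2 = 1 ↔ j1 ≤ pos d c b s (k0 - 1))) ∨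
          ((β = (bs, s) ∨ β = w1) ∧ (n % 2 = 1 ↔ j1 ≤ pos d c b s k1)) := by
        intro β hβ
        obtain ⟨h4, h5, h6⟩ := Finset.mem_filter.1 hβ
        have h7 : κ (f β) = n0 := by split_ifs at h5 <;> omega
        have h8 : n % 2 = 1 ↔ sd β := by
          split_ifs at h5 with h9
          · simp only [h9, iff_true]
            omega
          · simp only [h9, iff_false]
            omega
        have hcβ : cov d' c' β (pos d' c' β.1 β.2 0) := ⟨0, le_rfl, mem_NE.1 h4, rfl⟩
        rw [hsd' β _ hcβ] at h8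
        simp only [Finset.mem_union, Finset.mem_insert, Finset.mem_sdiff, Finset.mem_singleton,
          not_or] at h6
        by_cases h9 : β.1 = bs
        · right
          have h10 : β = (bs, s) := by
            obtain ⟨b', s'⟩ := β
            simp only at h9
            subst h9
            have := h6.2.1
            cases s <;> cases s' <;> simp at this ⊢
          refine ⟨Or.inl h10, ?_⟩
          rw [h8]
          subst h10
          exact hU2 _ hcβ
        · have h10 : f β = β := by simp [hf, h9]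
          rw [h10] at h7
          have h11 : β ∈ C := Finset.mem_filter.2 ⟨hNE β h4 h9, h7⟩
          have h12 : cov d c β (pos d' c' β.1 β.2 0) := by
            have := hcov β _ hcβ
            simpa only [h9, if_false] using this
          have h13 : β = (b, s) ∨ β = w0 ∨ β = w1 := by
            have := h6.2.2
            tauto
          rcases h13 with h14 | h14 | h14
          · left
            refine ⟨Or.inl h14, ?_⟩
            rw [h8]
            subst h14
            exact hU1 _ hcβ
          · left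
            refine ⟨Or.inr h14, ?_⟩
            rw [h8]
            subst h14
            exact hold _ hw0 _ _ h12 hw0c
          · right
            refine ⟨Or.inr h14, ?_⟩
            rw [h8]
            subst h14
            exact hold _ hw1 _ _ h12 hw1c
      by_cases h4 : (n % 2 = 1 ↔ j1 ≤ pos d c b s (k0 - 1))
      · refine le_trans (Finset.card_le_card (t := {(b, s), w0}) ?_) Finset.card_le_two
        intro β hβ
        rcases h3 β hβ with h5 | h5
        · simpa using h5.1
        · tauto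
      · refine le_trans (Finset.card_le_card (t := {(bs, s), w1}) ?_) Finset.card_le_two
        intro β hβ
        rcases h3 β hβ with h5 | h5
        · tauto
        · simpa using h5.1
    · refine le_trans (Finset.card_le_card ?_) (hcl (n / 2))
      intro β hβ
      obtain ⟨h4, h5, h6⟩ := Finset.mem_filter.1 hβ
      beta_reduce at h5
      have h7 : κ (f β) = n / 2 := by split_ifs at h5 <;> omega
      simp only [Finset.mem_union, Finset.mem_insert, Finset.mem_filter, not_or] at h6
      have h9 : β.1 ≠ bs := by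
        intro h9
        obtain ⟨b', s'⟩ := β
        simp only at h9
        subst h9
        have h10 : s' = s := by
          have := h6.2.1
          cases s <;> cases s' <;> simp at this ⊢
        subst h10
        simp only [hf, if_true] at h7
        omega
      have h10 : f β = β := by simp [hf, h9]
      rw [h10] at h7
      refine Finset.mem_filter.2 ⟨hNE β h4 h9, h7, fun h11 => h6.1 ⟨h11, by omega⟩⟩

lemma slide_cov {d : Dir ι} {c : Nm ι → ℤ} (hc : Good d c) {b1 b2 : ι} (hb : b1 ≠ b2)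
    (s1 s2 : Bool) (hs : SameI d c b1 s1 b2 s2) (β : ι × Bool) (t : ℤ)
    (h : cov (slideD d b1 s1 b2 s2) (slideC d c b1 s1 b2 s2) β t) :
    cov d c (if β = (b2, s2) then (b1, !s1) else β) t := by
  obtain ⟨b, s⟩ := β
  rw [cov_iff (slide_good hc hb s1 s2 hs).2] at h
  by_cases h1 : b = b2 ∧ s = s2
  · obtain ⟨rfl, rfl⟩ := h1
    simp only [if_true]
    rw [cov_iff hc]
    simp only [slideD, slideC, and_self, if_true, fn_ne_bg, if_false] at h
    cases hd1 : d b1 s1 <;> cases hd2 : d b s <;> cases hd3 : d b1 (!s1) <;>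
      simp [hd1, hd2, hd3] at h ⊢ <;> omega
  · have h2 : ¬ ((b, s) = (b2, s2)) := by simpa using h1
    simp only [h2, if_false]
    rw [cov_iff hc]
    simpa [slideD, slideC, h1] using h

lemma step_norm {σ : ℕ} (hσ : 3 * σ + 2 < 2 * Fintype.card ι) {d : Dir ι} {c : Nm ι → ℤ}
    (hc : Good d c) (hN : Norm d c) (hI : Inv σ d c)
    (ih : ∀ (d' : Dir ι) (c' : Nm ι → ℤ), Good d' c' → Inv σ d' c' → TL d' c' < TL d c →
      PP d' c') : PP d c := by
  classical
  by_cases hne : (NE d c).Nonempty
  swap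
  · refine terminal hc hN fun b => ?_
    have h1 := hc.len_nonneg b
    by_contra h2
    exact hne ⟨(b, false), mem_NE.2 (by simp only; omega)⟩
  obtain ⟨bs, hbs⟩ : ∃ bs, len d c bs false = 0 := by
    by_contra h1
    push Not at h1
    have h2 : NE d c = Finset.univ := by
      apply Finset.eq_univ_of_forall
      intro β
      have := hc.len_nonneg β.1
      have := h1 β.1
      rw [mem_NE]
      omega
    have h3 := hI.1
    rw [h2, Finset.card_univ, Fintype.card_prod, Fintype.card_bool] at h3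
    omega
  have hend : ∀ b s k0 k1, 0 ≤ k0 → k0 < k1 → k1 ≤ len d c b false →
      (k0 = 0 ∨ k1 = len d c b false) → (∀ k, k0 ≤ k → k < k1 → W1 d c (b, s) k) → PP d c := by
    intro b s k0 k1 h0 h1 h2 h3 h4
    have hb : b ≠ bs := by
      rintro rfl
      omega
    refine collapse hc hN h0 h1 h2 hbs h4 (ih _ _ (cut_good hc hb h0 h1.le h2)
      (inv_cut_end hc hb h0 h1.le h2 h3 hI) ?_)
    rw [TL_cut hc hb _ _ hbs]
    omega
  by_cases hE0 : ∃ β ∈ NE d c, W1 d c β 0
  · obtain ⟨⟨b, s⟩, h1, h2⟩ := hE0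
    have h3 := mem_NE.1 h1
    refine hend b s 0 1 le_rfl (by omega) h3 (Or.inl rfl) fun k h4 h5 => ?_
    rwa [show k = 0 by omega]
  by_cases hE1 : ∃ β ∈ NE d c, W1 d c β (len d c β.1 false - 1)
  · obtain ⟨⟨b, s⟩, h1, h2⟩ := hE1
    have h3 := mem_NE.1 h1
    simp only at h2 h3
    refine hend b s (len d c b false - 1) (len d c b false) (by omega) (by omega) le_rfl
      (Or.inr rfl) fun k h4 h5 => ?_
    rwa [show k = len d c b false - 1 by omega]
  push Not at hE0 hE1
  obtain ⟨hcard, κ, X, hX, hκ, hcl⟩ := id hI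
  by_cases hcase : ∃ β ∈ NE d c, ∀ x ∈ X, κ x ≠ κ β
  · obtain ⟨β, hβ, hβX⟩ := hcase
    have hself : ∀ γ ∈ NE d c, ∀ k, 0 ≤ k → k < len d c γ.1 false →
        cov d c γ (pos d c γ.1 γ.2 k) := fun γ _ k h1 h2 => ⟨k, h1, h2, rfl⟩
    have hβ0 := mem_NE.1 hβ
    obtain ⟨β', hβ', hβ'c⟩ : ∃ β', β' ≠ β ∧ cov d c β' (pos d c β.1 β.2 0) := by
      have := hE0 β hβ
      unfold W1 at this
      push Not at this
      exact this
    have hκ' : κ β' = κ β := hκ _ _ _ hβ'c (hself β hβ 0 le_rfl hβ0)
    have hcls : ∀ γ ∈ NE d c, κ γ = κ β → γ = β ∨ γ = β' := by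
      intro γ h1 h2
      by_contra h3
      push Not at h3
      have h4 : ({γ, β, β'} : Finset (ι × Bool)) ⊆
          (NE d c).filter (fun x => κ x = κ β ∧ x ∉ X) := by
        intro x hx
        simp only [Finset.mem_insert, Finset.mem_singleton] at hx
        rcases hx with rfl | rfl | rfl
        · exact Finset.mem_filter.2 ⟨h1, h2, fun h => hβX _ h h2⟩
        · exact Finset.mem_filter.2 ⟨hβ, rfl, fun h => hβX _ h rfl⟩
        · exact Finset.mem_filter.2 ⟨hβ'c.mem, hκ', fun h => hβX _ h hκ'⟩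
      have h5 : ({γ, β, β'} : Finset (ι × Bool)).card = 3 :=
        Finset.card_eq_three.2 ⟨_, _, _, h3.1, h3.2, hβ'.symm, rfl⟩
      have h6 := Finset.card_le_card h4
      have h7 := hcl (κ β)
      omega
    have hβ'0 := mem_NE.1 hβ'c.mem
    have e1 : cov d c β' (pos d c β.1 β.2 (len d c β.1 false - 1)) := by
      have := hE1 β hβ
      unfold W1 at this
      push Not at this
      obtain ⟨γ, h1, h2⟩ := this
      rcases hcls γ h2.mem (hκ _ _ _ h2 (hself β hβ _ (by omega) (by omega))) with h3 | h3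
      · exact absurd h3 h1
      · rwa [h3] at h2
    have e2 : ∀ k, 0 ≤ k → k < len d c β'.1 false → ¬ W1 d c β' k →
        cov d c β (pos d c β'.1 β'.2 k) := by
      intro k h1 h2 h3
      unfold W1 at h3
      push Not at h3
      obtain ⟨γ, h4, h5⟩ := h3
      rcases hcls γ h5.mem ((hκ _ _ _ h5 (hself β' hβ'c.mem _ h1 h2)).trans hκ') with h6 | h6
      · rwa [h6] at h5
      · exact absurd h6 h4
    have e3 := e2 0 le_rfl hβ'0 (hE0 β' hβ'c.mem)
    have e4 := e2 _ (by omega) (by omega) (hE1 β' hβ'c.mem)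
    obtain ⟨b1, s1⟩ := β
    obtain ⟨b2, s2⟩ := β'
    have hs : SameI d c b1 s1 b2 s2 := by
      rw [cov_iff hc] at hβ'c e1 e3 e4
      simp only at hβ'c e1 e3 e4 hβ0 hβ'0
      rw [← hc.len_side b1 s1] at e1 hβ0
      rw [← hc.len_side b2 s2] at e4 hβ'0
      simp only [SameI, pos, len] at hβ'c e1 e3 e4 hβ0 hβ'0 ⊢
      cases hd1 : d b1 s1 <;> cases hd2 : d b2 s2 <;>
        simp [hd1, hd2] at hβ'c e1 e3 e4 hβ0 hβ'0 ⊢ <;> omega
    by_cases hb : b1 = b2
    · exfalso
      subst hb
      simp only at hβ0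
      cases s1 <;> cases s2
      · exact hβ' rfl
      · exact not_same hc hβ0 hs
      · refine not_same hc hβ0 ?_
        unfold SameI at hs ⊢
        by_cases h1 : d b1 true = d b1 false
        · rw [if_pos h1] at hs
          rw [if_pos h1.symm]
          omega
        · rw [if_neg h1] at hs
          rw [if_neg (Ne.symm h1)]
          omega
      · exact hβ' rfl
    refine moveS hc hb s1 s2 hs ?_
    obtain ⟨hl1, hc1⟩ := slide_good hc hb s1 s2 hs
    have hcov1 := slide_cov hc hb s1 s2 hs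
    set d1 := slideD d b1 s1 b2 s2 with hd1
    set c1 := slideC d c b1 s1 b2 s2 with hc1def
    simp only at hβ0 hβ'0
    have hN1 : Norm d1 c1 := by
      intro b τ h1
      rw [hl1] at h1
      have h2 : b ≠ b2 := by
        rintro rfl
        omega
      have h3 := hN b τ h1
      simpa [hc1def, slideC, h2] using h3
    have hb1 : b1 ≠ bs := by
      rintro rfl
      omega
    have hbs1 : len d1 c1 bs false = 0 := by rw [hl1, hbs]
    have hpos1 : ∀ k, pos d1 c1 b1 s1 k = pos d c b1 s1 k := by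
      intro k
      simp [pos, hd1, hc1def, slideD, slideC, hb]
    have hW : ∀ k, 0 ≤ k → k < len d1 c1 b1 false → W1 d1 c1 (b1, s1) k := by
      intro k h1 h2 γ h3 h4
      rw [hl1] at h2
      simp only [hpos1] at h4
      have h5 := hcov1 γ _ h4
      rcases hcls _ h5.mem (hκ _ _ _ h5 (hself (b1, s1) hβ k h1 h2)) with h6 | h6
      · split_ifs at h6 with h7
        · cases s1 <;> simp at h6
        · exact h3 h6
      · split_ifs at h6 with h7
        · simp [hb] at h6
        · exact h7 h6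
    have hl0 : 0 < len d1 c1 b1 false := by rw [hl1]; exact hβ0
    refine collapse hc1 hN1 le_rfl hl0 le_rfl hbs1 hW (ih _ _
      (cut_good hc1 hb1 le_rfl hl0.le le_rfl) ?_ ?_)
    · have hne1 : ∀ γ ∈ NE (cutD d1 b1 bs) (cutC d1 c1 b1 bs 0 (len d1 c1 b1 false)),
          γ.1 ≠ b1 ∧ γ.1 ≠ bs ∧ γ ∈ NE d c := by
        intro γ hγ
        rw [mem_NE, cut_len hc1 hb1] at hγ
        split_ifs at hγ with h1 h2
        · omega
        · omega
        · exact ⟨h1, h2, mem_NE.2 (by rwa [hl1] at hγ)⟩
      refine hI.shrink (fun γ => if γ = (b2, s2) then (b1, !s1) else γ) ?_ ?_ ?_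
      · intro γ h1 γ' h2 h3
        have h4 := hne1 γ h1
        have h5 := hne1 γ' h2
        simp only at h3
        split_ifs at h3 with h6 h7 h7
        · rw [h6, h7]
        · exact absurd (congrArg Prod.fst h3).symm h5.1
        · exact absurd (congrArg Prod.fst h3) h4.1
        · exact h3
      · intro γ h1
        split_ifs
        · exact mem_NE.2 hβ0
        · exact (hne1 γ h1).2.2
      · intro γ t h1
        have h2 := cut_cov hc1 hb1 le_rfl hl0.le le_rfl γ t h1
        rw [if_neg (hne1 γ h1.mem).2.1] at h2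
        exact hcov1 γ t h2
    · rw [TL_cut hc1 hb1 _ _ hbs1]
      have : TL d1 c1 = TL d c := by simp only [TL, hl1]
      omega
  · push Not at hcase
    have hcard3 : (NE d c).card ≤ 3 * σ := by
      have h1 : NE d c ⊆ X ∪ X.biUnion
          (fun x => (NE d c).filter (fun β => κ β = κ x ∧ β ∉ X)) := by
        intro β hβ
        by_cases h2 : β ∈ X
        · exact Finset.mem_union_left _ h2
        · obtain ⟨x, h3, h4⟩ := hcase β hβ
          exact Finset.mem_union_right _ (Finset.mem_biUnion.2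
            ⟨x, h3, Finset.mem_filter.2 ⟨hβ, h4.symm, h2⟩⟩)
      have h2 := Finset.card_le_card h1
      have h3 := Finset.card_union_le X (X.biUnion
          (fun x => (NE d c).filter (fun β => κ β = κ x ∧ β ∉ X)))
      have h4 := Finset.card_biUnion_le_card_mul X
        (fun x => (NE d c).filter (fun β => κ β = κ x ∧ β ∉ X)) 2 (fun x _ => hcl (κ x))
      omega
    obtain ⟨⟨b, s⟩, k, h1, h2, h3⟩ := exists_W1 hc hne
    simp only at h2
    have hmem : (b, s) ∈ NE d c := mem_NE.2 (by simp only; omega)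
    obtain ⟨k0, ⟨h4, h5, h6⟩, h7⟩ := Int.exists_least_of_bdd
      (P := fun j => 0 ≤ j ∧ j ≤ k ∧ ∀ i, j ≤ i → i ≤ k → W1 d c (b, s) i)
      ⟨0, fun z hz => hz.1⟩ ⟨k, h1, le_rfl, fun i h4 h5 => by rwa [show i = k by omega]⟩
    obtain ⟨k1, ⟨h8, h9, h10⟩, h11⟩ := Int.exists_greatest_of_bdd
      (P := fun j => k < j ∧ j ≤ len d c b false ∧ ∀ i, k ≤ i → i < j → W1 d c (b, s) i)
      ⟨len d c b false, fun z hz => hz.2.1⟩
      ⟨k + 1, by omega, by omega, fun i h4 h5 => by rwa [show i = k by omega]⟩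
    have hk0 : 0 < k0 := by
      by_contra h12
      exact hE0 _ hmem (h6 0 (by omega) h1)
    have hk1 : k1 < len d c b false := by
      by_contra h12
      exact hE1 _ hmem (h10 _ (by simp only; omega) (by simp only; omega))
    have hW : ∀ i, k0 ≤ i → i < k1 → W1 d c (b, s) i := by
      intro i h12 h13
      by_cases h14 : i ≤ k
      · exact h6 i h12 h14
      · exact h10 i (by omega) h13
    have hW0 : ¬ W1 d c (b, s) (k0 - 1) := by
      intro h12
      have := h7 (k0 - 1) ⟨by omega, by omega, fun i h13 h14 => by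
        by_cases h15 : i = k0 - 1
        · rwa [h15]
        · exact h6 i (by omega) h14⟩
      omega
    have hW1 : ¬ W1 d c (b, s) k1 := by
      intro h12
      have := h11 (k1 + 1) ⟨by omega, by omega, fun i h13 h14 => by
        by_cases h15 : i = k1
        · rwa [h15]
        · exact h10 i h13 (by omega)⟩
      omega
    have hb : b ≠ bs := by
      rintro rfl
      omega
    have hkk : k0 < k1 := by omega
    refine collapse hc hN hk0.le hkk hk1.le hbs hW (ih _ _ (cut_good hc hb hk0.le hkk.le hk1.le)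
      (inv_cut_mid hσ hc hN hk0 hkk hk1 hbs hW hW0 hW1 κ X hX hκ hcl hcard3) ?_)
    rw [TL_cut hc hb _ _ hbs]
    omega

lemma PP_of_inv {σ : ℕ} (hσ : 3 * σ + 2 < 2 * Fintype.card ι) (n : ℕ) :
    ∀ (d : Dir ι) (c : Nm ι → ℤ), Good d c → Inv σ d c → TL d c < n → PP d c := by
  induction n with
  | zero =>
    intro d c hc _ h
    have : 0 ≤ TL d c := Finset.sum_nonneg fun b _ => hc.len_nonneg b
    omega
  | succ n ih =>
    intro d c hc hI h
    obtain ⟨h1, h2⟩ := nrm_step d hc Finset.univ
    apply h2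
    have hl := nrm_len d hc Finset.univ
    have hT : TL d (nrm d c Finset.univ) = TL d c := by simp only [TL, hl]
    refine step_norm hσ h1 ?_ ?_ ?_
    · intro b s h3
      rw [hl] at h3
      simp [nrm_bg, nrm_fn, nrm_lo, h3]
    · refine hI.shrink id (Set.injOn_id _) ?_ ?_
      · intro β hβ
        rw [mem_NE] at hβ ⊢
        rwa [hl] at hβ
      · rintro ⟨b, s⟩ t ⟨k, h3, h4, h5⟩
        rw [hl] at h4
        refine ⟨k, h3, h4, ?_⟩
        have h6 : len d c b false ≠ 0 := by
          simp only at h4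
          omega
        simpa [pos, nrm_bg, h6] using h5
    · intro d' c' h3 h4 h5
      exact ih d' c' h3 h4 (by omega)

/-- the pumping theorem for band systems -/
theorem machine {d : Dir ι} {c : Nm ι → ℤ} (hc : Good d c)
    (hcard : 3 * (NE d c).card + 2 < 2 * Fintype.card ι) (f : (Nm ι → ℚ) →ₗ[ℚ] ℚ)
    (hf : f (cst c) ≠ 0) :
    ∃ c', Sol (d, typ c) c' ∧ size c' ≤ 2 ^ NN ι ∧ f (cst c') ≠ 0 := by
  refine small_of_PP (PP_of_inv hcard ((TL d c).toNat + 1) d c hc ?_ (by omega)) f hf
  refine ⟨by omega, fun _ => 0, NE d c, le_rfl, fun _ _ _ _ _ => rfl, fun n => ?_⟩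
  have : (NE d c).filter (fun β => (fun _ => 0 : ι × Bool → ℕ) β = n ∧ β ∉ NE d c) = ∅ := by
    apply Finset.filter_eq_empty_iff.2
    intro β hβ h
    exact h.2 hβ
  rw [this]
  simp

end Pool.Agent.H910Z.TE
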