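import Pool.Agent.H910Z.TE.Back1
import Pool.Agent.H910Z.TE.Mach5

set_option autoImplicit false
set_option linter.unusedSectionVars false
set_option linter.unusedSimpArgs false
set_option linter.unusedVariables false

/-! # From a band system with the forest property to a homomorphism -/

namespace Pool.Agent.H910Z.TE

open Pool.Agent.Helper156.OF

variable {ι : Type} [Fintype ι] [DecidableEq ι] {n : ℕ}

/-- one step along a band -/
def Stp (d : Dir ι) (c : Nm ι → ℤ) (ty : ι → Fin n) (a : Lt (Fin n)) (t1 t2 : ℤ) : Prop :=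
  ∃ b k, ty b = a.1 ∧ 0 ≤ k ∧ k < len d c b false ∧ t1 = pos d c b (!a.2) k ∧ t2 = pos d c b a.2 k

def Reach (d : Dir ι) (c : Nm ι → ℤ) (ty : ι → Fin n) : List (Lt (Fin n)) → ℤ → ℤ → Prop
  | [], t, t' => t' = t
  | a :: w, t, t' => ∃ t1, Stp d c ty a t1 t' ∧ Reach d c ty w t t1

/-- bands of the same type have disjoint bases -/
def Det (d : Dir ι) (c : Nm ι → ℤ) (ty : ι → Fin n) : Prop :=
  ∀ b b' s t, b ≠ b' → ty b = ty b' → cov d c (b, s) t → cov d c (b', s) t → False

variable {d : Dir ι} {c : Nm ι → ℤ} {ty : ι → Fin n}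

lemma Stp.symm {a : Lt (Fin n)} {t1 t2 : ℤ} (h : Stp d c ty a t1 t2) :
    Stp d c ty (nv a) t2 t1 := by
  obtain ⟨b, k, h1, h2, h3, h4, h5⟩ := h
  exact ⟨b, k, h1, h2, h3, by simpa [nv] using h5, h4⟩

lemma Stp.det (hD : Det d c ty) {a : Lt (Fin n)} {t1 t1' t2 : ℤ} (h : Stp d c ty a t1 t2)
    (h' : Stp d c ty a t1' t2) : t1 = t1' := by
  obtain ⟨b, k, h1, h2, h3, h4, h5⟩ := h
  obtain ⟨b', k', h1', h2', h3', h4', h5'⟩ := h'
  by_cases hb : b = b'
  · subst hb
    have : k = k' := by
      rw [h5] at h5'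
      simp only [pos] at h5'
      split_ifs at h5' <;> omega
    rw [h4, h4', this]
  · exact (hD b b' a.2 t2 hb (h1.trans h1'.symm) ⟨k, h2, h3, h5⟩ ⟨k', h2', h3', h5'⟩).elim

lemma cov_range (hc : Good d c) {β : ι × Bool} {t : ℤ} (h : cov d c β t) :
    c lo ≤ t ∧ t < c hi := by
  obtain ⟨b, s⟩ := β
  rw [cov_iff hc] at h
  have := hc.lo_le (bg b s)
  have := hc.lo_le (fn b s)
  have := hc.le_hi (bg b s)
  have := hc.le_hi (fn b s)
  split_ifs at h <;> omega

lemma Reach.range (hc : Good d c) {w : List (Lt (Fin n))} {t t' : ℤ} (h : Reach d c ty w t t')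
    (ht : c lo ≤ t ∧ t < c hi) : c lo ≤ t' ∧ t' < c hi := by
  cases w with
  | nil => rwa [show t' = t from h]
  | cons a w =>
    obtain ⟨t1, ⟨b, k, h1, h2, h3, h4, h5⟩, _⟩ := h
    exact cov_range hc (β := (b, a.2)) ⟨k, h2, h3, h5⟩

lemma Reach.append {w w' : List (Lt (Fin n))} {t t1 t2 : ℤ} (h : Reach d c ty w t t1)
    (h' : Reach d c ty w' t1 t2) : Reach d c ty (w' ++ w) t t2 := by
  induction w' generalizing t2 with
  | nil => rwa [show t2 = t1 from h']
  | cons a w' ih =>
    obtain ⟨t3, h1, h2⟩ := h'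
    exact ⟨t3, h1, ih h2⟩

lemma Reach.symm {w : List (Lt (Fin n))} {t t' : ℤ} (h : Reach d c ty w t t') :
    ∃ w', Reach d c ty w' t' t := by
  induction w generalizing t' with
  | nil => exact ⟨[], (show t' = t from h).symm⟩
  | cons a w ih =>
    obtain ⟨t1, h1, h2⟩ := h
    obtain ⟨w', h3⟩ := ih h2
    exact ⟨w' ++ [nv a], Reach.append (t1 := t1) ⟨t', h1.symm, rfl⟩ h3⟩

lemma Reach.reduce (hD : Det d c ty) {w : List (Lt (Fin n))} {t t' : ℤ}
    (h : Reach d c ty w t t') : Reach d c ty (FreeGroup.reduce w) t t' := by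
  induction w generalizing t' with
  | nil => exact h
  | cons a w ih =>
    obtain ⟨t1, h1, h2⟩ := h
    have h3 := ih h2
    rw [FreeGroup.reduce.cons]
    cases hw : FreeGroup.reduce w with
    | nil =>
      rw [hw] at h3
      exact ⟨t1, h1, h3⟩
    | cons x l =>
      rw [hw] at h3
      simp only
      split_ifs with h4
      · obtain ⟨t2, h5, h6⟩ := h3
        have h7 : x = nv a := by
          obtain ⟨a1, a2⟩ := a
          obtain ⟨x1, x2⟩ := x
          simp only at h4
          simp [nv, h4.1, h4.2]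
        rw [h7] at h5
        rwa [Stp.det hD h1.symm h5]
      · exact ⟨t1, h1, h3⟩

lemma Reach.val {g : ℤ → FreeGroup (Fin n)}
    (hg : ∀ a t1 t2, Stp d c ty a t1 t2 → g t2 = gl a * g t1) {w : List (Lt (Fin n))} {t t' : ℤ}
    (h : Reach d c ty w t t') : g t' = FreeGroup.mk w * g t := by
  induction w generalizing t' with
  | nil =>
    rw [show t' = t from h, ← FreeGroup.one_eq_mk, one_mul]
  | cons a w ih =>
    obtain ⟨t1, h1, h2⟩ := h
    rw [hg a t1 t' h1, ih h2, mk_cons, mul_assoc]

lemma Reach.bound (hc : Good d c) {g : ℤ → FreeGroup (Fin n)}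
    (hg : ∀ a t1 t2, Stp d c ty a t1 t2 → g t2 = gl a * g t1) {w : List (Lt (Fin n))} {t t' : ℤ}
    (h : Reach d c ty w t t') (hw : FreeGroup.IsReduced w) (ht : c lo ≤ t ∧ t < c hi) :
    (w.length : ℤ) < size c := by
  have h1 : ∀ (w : List (Lt (Fin n))) (t' : ℤ), Reach d c ty w t t' → FreeGroup.IsReduced w →
      ∀ i, i ≤ w.length → ∃ s ∈ Finset.Ico (c lo) (c hi), (g s * (g t)⁻¹).norm = i := by
    intro w
    induction w with
    | nil =>
      intro t' _ _ i hi
      refine ⟨t, Finset.mem_Ico.2 ht, ?_⟩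
      simp only [List.length_nil, Nat.le_zero] at hi
      simp [hi]
    | cons a w ih =>
      intro t' h hw i hi
      by_cases h2 : i ≤ w.length
      · obtain ⟨t1, _, h3⟩ := h
        exact ih t1 h3 (List.IsChain.tail hw) i h2
      · refine ⟨t', Finset.mem_Ico.2 (h.range hc ht), ?_⟩
        rw [h.val hg, mul_inv_cancel_right, FreeGroup.norm, FreeGroup.toWord_mk, hw.reduce_eq]
        simp only [List.length_cons] at hi ⊢
        omega
  have h2 : Finset.range (w.length + 1) ⊆
      (Finset.Ico (c lo) (c hi)).image (fun s => (g s * (g t)⁻¹).norm) := by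
    intro i hi
    obtain ⟨s, h3, h4⟩ := h1 w t' h hw i (by simpa [Nat.lt_succ_iff] using hi)
    exact Finset.mem_image.2 ⟨s, h3, h4⟩
  have h3 := (Finset.card_le_card h2).trans Finset.card_image_le
  rw [Finset.card_range, Int.card_Ico] at h3
  unfold size
  omega

/-- decorations of the positions -/
lemma exists_deco (hc : Good d c) (hD : Det d c ty) :
    ∃ (g : ℤ → FreeGroup (Fin n)) (r : ℤ → ℤ) (sg : ℤ → ℤˣ),
      (∀ b k, 0 ≤ k → k < len d c b false →
        g (pos d c b true k) = FreeGroup.of (ty b) * g (pos d c b false k) ∧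
        r (pos d c b true k) = r (pos d c b false k) ∧
        sg (pos d c b true k) = (if d b false = d b true then 1 else -1) * sg (pos d c b false k)) ∧
      (∀ t t', r t = r t' → g t = g t' → t = t') ∧
      ∀ t, c lo ≤ t ∧ t < c hi → (c lo ≤ r t ∧ r t < c hi) ∧ ((g t).norm : ℤ) < size c := by
  obtain ⟨g0, hg0⟩ := hc.lift (FreeGroup (Fin n))
    (fun b s k => if s = true then 1 else FreeGroup.of (ty b))
  obtain ⟨sg, hsg⟩ := hc.lift ℤˣ
    (fun b s k => if s = true then 1 else (if d b false = d b true then 1 else -1))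
  simp only [if_true, one_mul, Bool.false_eq_true, if_false] at hg0 hsg
  have hg : ∀ a t1 t2, Stp d c ty a t1 t2 → g0 t2 = gl a * g0 t1 := by
    rintro ⟨i, s⟩ t1 t2 ⟨b, k, h1, h2, h3, h4, h5⟩
    simp only at h1 h4 h5
    have h6 := hg0 b k ⟨h2, h3⟩
    cases s
    · rw [h4, h5, Bool.not_false, ← h6, ← h1]
      have : gl (ty b, false) = (FreeGroup.of (ty b))⁻¹ := rfl
      rw [this]
      simp
    · rw [h4, h5, Bool.not_true, ← h6, ← h1]
      rfl
  let S : Setoid ℤ := ⟨fun t t' => ∃ w, Reach d c ty w t t',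
    ⟨fun t => ⟨[], rfl⟩, fun ⟨w, h⟩ => h.symm, fun ⟨w, h⟩ ⟨w', h'⟩ => ⟨_, h.append h'⟩⟩⟩
  set r : ℤ → ℤ := fun t => (Quotient.mk S t).out with hr
  have hr1 : ∀ t, ∃ w, Reach d c ty w (r t) t := fun t => Quotient.mk_out (s := S) t
  have hr2 : ∀ t t', (∃ w, Reach d c ty w t t') → r t = r t' := by
    intro t t' h
    have : Quotient.mk S t = Quotient.mk S t' := Quotient.sound h
    simp only [hr, this]
  refine ⟨fun t => g0 t * (g0 (r t))⁻¹, r, sg, ?_, ?_, ?_⟩
  · intro b k h1 h2
    have h3 : r (pos d c b true k) = r (pos d c b false k) :=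
      (hr2 _ _ ⟨[(ty b, true)], _, ⟨b, k, rfl, h1, h2, rfl, rfl⟩, rfl⟩).symm
    refine ⟨?_, h3, (hsg b k ⟨h1, h2⟩).symm⟩
    simp only
    rw [h3, ← hg0 b k ⟨h1, h2⟩, mul_assoc]
  · intro t t' h1 h2
    simp only [h1, mul_left_inj] at h2
    obtain ⟨w, h3⟩ := hr1 t
    obtain ⟨w', h4⟩ := hr1 t'
    obtain ⟨w'', h5⟩ := h3.symm
    rw [h1] at h5
    have h6 := (h5.append h4).reduce hD
    have h7 := (h5.append h4).val hg
    rw [h2] at h7
    have h8 : FreeGroup.mk (w' ++ w'') = 1 := by simpa using h7
    have h9 : FreeGroup.reduce (w' ++ w'') = [] := by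
      rw [← FreeGroup.toWord_mk, h8, FreeGroup.toWord_one]
    rw [h9] at h6
    exact (show t' = t from h6).symm
  · intro t ht
    obtain ⟨w, h3⟩ := hr1 t
    obtain ⟨w', h4⟩ := h3.symm
    have h5 := h4.range hc ht
    refine ⟨h5, ?_⟩
    have h6 := (h3.reduce hD).bound hc hg
      (FreeGroup.isReduced_iff_reduce_eq.2 FreeGroup.reduce.idem) h5
    simp only
    rw [h3.val hg, mul_inv_cancel_right, FreeGroup.norm, FreeGroup.toWord_mk]
    exact h6

/-- the positions from `s` to `t` -/
def seg (s t : ℤ) : List ℤ := (List.range (t - s).toNat).map (fun i : ℕ => s + i)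

lemma seg_succ {s t : ℤ} (h : s ≤ t) : seg s (t + 1) = seg s t ++ [t] := by
  unfold seg
  rw [show (t + 1 - s).toNat = (t - s).toNat + 1 by omega, List.range_succ, List.map_append]
  simp only [List.map_cons, List.map_nil, List.append_cancel_left_eq, List.cons.injEq, and_true]
  omega

theorem back (hc : Good d c) (hD : Det d c ty) :
    ∃ F : ℤ → FreeGroup ℕ,
      (∀ b, (F (c (bg b true)))⁻¹ * F (c (fn b true)) = FreeGroup.of (ty b).val *
        ((F (c (bg b false)))⁻¹ * F (c (fn b false))) * (FreeGroup.of (ty b).val)⁻¹) ∧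
      ∀ P : List (ℤ × ℤ), (∀ x ∈ P, c lo ≤ x.1 ∧ x.1 ≤ x.2 ∧ x.2 ≤ c hi) →
        (∀ q, (cnt n ((P.map (fun x => (F x.1)⁻¹ * F x.2)).prod * emb n q) : ℤ) =
          (P.map (fun x => x.2 - x.1)).sum) ∧
        prj n (P.map (fun x => (F x.1)⁻¹ * F x.2)).prod = 1 ∧
        (P.map (fun x => (F x.1)⁻¹ * F x.2)).prod ∈ LB (n + (size c).toNat) ∧
        ((P.map (fun x => (F x.1)⁻¹ * F x.2)).prod.norm : ℤ) ≤
          P.length * (size c * (2 * size c + 1)) := by
  obtain ⟨g, r, sg, h1, h2, h3⟩ := exists_deco hc hD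
  set dc : ℤ → FreeGroup (Fin n) × Lt ℕ :=
    fun t => (g t, (n + (r t - c lo).toNat, decide (sg t = 1))) with hdc
  set F : ℤ → FreeGroup ℕ := fun t => (((seg (c lo) t).map dc).map cj).prod with hF
  have hF1 : ∀ t, c lo ≤ t → F (t + 1) = F t * cj (dc t) := by
    intro t ht
    simp only [hF, seg_succ ht, List.map_append, List.prod_append, List.map_cons, List.map_nil,
      List.prod_cons, List.prod_nil, mul_one]
  have hF2 : ∀ s t, c lo ≤ s → s ≤ t → (F s)⁻¹ * F t = (((seg s t).map dc).map cj).prod := by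
    intro s t hs ht
    induction t, ht using Int.leInduction with
    | base => simp [seg]
    | succ t ht ih =>
      rw [hF1 t (by omega), ← mul_assoc, ih, seg_succ ht]
      simp
  have hseg : ∀ s t x, x ∈ seg s t → s ≤ x ∧ x < t := by
    intro s t x hx
    simp only [seg, List.mem_map, List.mem_range] at hx
    obtain ⟨i, h4, h5⟩ := hx
    omega
  refine ⟨F, ?_, ?_⟩
  · intro b
    have key : ∀ k : ℤ, 0 ≤ k → k ≤ len d c b false →
        (F (c (bg b true)))⁻¹ * F (adv (d b true) (c (bg b true)) k) = FreeGroup.of (ty b).val *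
        ((F (c (bg b false)))⁻¹ * F (adv (d b false) (c (bg b false)) k)) *
          (FreeGroup.of (ty b).val)⁻¹ := by
      intro k hk
      induction k, hk using Int.leInduction with
      | base => intro _; simp [adv]
      | succ k hk ih =>
        intro hk2
        have e1 : ∀ s, F (adv (d b s) (c (bg b s)) (k + 1)) = F (adv (d b s) (c (bg b s)) k) *
            (if d b s = true then cj (dc (pos d c b s k)) else (cj (dc (pos d c b s k)))⁻¹) := by
          intro s
          have e2 := (cov_range hc (β := (b, s)) ⟨k, hk, by simp only; omega, rfl⟩).1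
          simp only at e2
          have e3 := hF1 _ e2
          simp only [adv, pos] at e3 ⊢
          split_ifs at e3 ⊢
          · rw [← add_assoc, e3]
          · rw [show c (bg b s) - k = c (bg b s) - 1 - k + 1 by ring, e3,
              show c (bg b s) - (k + 1) = c (bg b s) - 1 - k by ring]
            simp
        obtain ⟨e4, e5, e6⟩ := h1 b k hk (by omega)
        have e7 : (if d b true = true then cj (dc (pos d c b true k))
            else (cj (dc (pos d c b true k)))⁻¹) = FreeGroup.of (ty b).val *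
            (if d b false = true then cj (dc (pos d c b false k))
            else (cj (dc (pos d c b false k)))⁻¹) * (FreeGroup.of (ty b).val)⁻¹ := by
          have e8 : emb n (FreeGroup.of (ty b)) = FreeGroup.of (ty b).val := by simp [emb]
          have e9 : ∀ j : ℕ, gl (j, false) = (gl (j, true))⁻¹ := fun j => rfl
          have e10 : (-1 : ℤˣ) ≠ 1 := by decide
          simp only [hdc, cj, e4, e5, e6, map_mul, e8]
          rcases Int.units_eq_one_or (sg (pos d c b false k)) with e11 | e11 <;>
            cases d b false <;> cases d b true <;>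
            simp [e11, e9, e10, mul_assoc]
        rw [e1, e1, ← mul_assoc, ih (by omega), e7]
        group
    have e1 := key _ (hc.len_nonneg b) le_rfl
    have e2 : ∀ s, adv (d b s) (c (bg b s)) (len d c b false) = c (fn b s) := by
      intro s
      rw [← hc.len_side b s]
      simp only [adv, len]
      split_ifs <;> ring
    rwa [e2, e2] at e1
  · intro P hP
    set T := P.flatMap (fun x => seg x.1 x.2) with hT
    have e1 : (P.map (fun x => (F x.1)⁻¹ * F x.2)).prod = ((T.map dc).map cj).prod ∧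
        (T.length : ℤ) = (P.map (fun x => x.2 - x.1)).sum ∧ (T.length : ℤ) ≤ P.length * size c := by
      rw [hT]
      clear hT T
      induction P with
      | nil => simp
      | cons x P ih =>
        obtain ⟨i1, i2, i3⟩ := ih fun y hy => hP y (List.mem_cons_of_mem _ hy)
        obtain ⟨i4, i5, i6⟩ := hP x (by simp)
        have i7 : ((seg x.1 x.2).length : ℤ) = x.2 - x.1 := by
          simp only [seg, List.length_map, List.length_range]
          omega
        simp only [List.map_cons, List.prod_cons, List.flatMap_cons, List.map_append,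
          List.prod_append, List.length_append, List.sum_cons, List.length_cons]
        rw [i1, hF2 _ _ i4 i5]
        push_cast
        rw [i7]
        refine ⟨rfl, by omega, ?_⟩
        have : size c = c hi - c lo := rfl
        rw [add_mul, one_mul]
        omega
    have e2 : ∀ t ∈ T, c lo ≤ t ∧ t < c hi := by
      intro t ht
      rw [hT, List.mem_flatMap] at ht
      obtain ⟨x, hx, ht⟩ := ht
      have := hP x hx
      have := hseg _ _ _ ht
      omega
    rw [e1.1]
    refine ⟨fun q => ?_, ?_, ?_, ?_⟩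
    · rw [nf, List.length_map, e1.2.1]
      · intro x hx
        obtain ⟨t, _, rfl⟩ := List.mem_map.1 hx
        simp [hdc]
      · rw [List.isChain_map]
        refine List.Pairwise.isChain (List.pairwise_of_forall_mem_list ?_)
        rintro t ht t' ht' ⟨e3, e4⟩
        have e5 := (h3 t (e2 t ht)).1
        have e6 := (h3 t' (e2 t' ht')).1
        simp only [hdc, nv, Prod.mk.injEq] at e3 e4
        have e7 : t = t' := h2 t t' (by omega) e3
        rw [e7] at e4
        simp at e4
    · rw [map_list_prod]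
      apply List.prod_eq_one
      intro x hx
      simp only [List.mem_map] at hx
      obtain ⟨_, ⟨_, ⟨t, _, rfl⟩, rfl⟩, rfl⟩ := hx
      simp only [cj, map_mul, map_inv]
      rw [prj_gl _ (by simp [hdc])]
      simp
    · apply Subgroup.list_prod_mem
      intro x hx
      simp only [List.mem_map] at hx
      obtain ⟨_, ⟨t, ht, rfl⟩, rfl⟩ := hx
      have e5 := (h3 t (e2 t ht)).1
      refine mul_mem (mul_mem (emb_LB _ (by omega)) (gl_LB _ ?_)) (inv_mem (emb_LB _ (by omega)))
      simp only [hdc, size]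
      omega
    · have e0 : 0 ≤ size c := by
        have := hc.lo_le hi
        unfold size
        omega
      have e3 := norm_prod_le ((T.map dc).map cj) (2 * size c + 1).toNat (by
        intro x hx
        simp only [List.mem_map] at hx
        obtain ⟨_, ⟨t, ht, rfl⟩, rfl⟩ := hx
        have e5 := (h3 t (e2 t ht)).2
        have e6 := FreeGroup.norm_mul_le (emb n (dc t).1 * gl (dc t).2) (emb n (dc t).1)⁻¹
        have e7 := FreeGroup.norm_mul_le (emb n (dc t).1) (gl (dc t).2)
        have e8 := (norm_eq_one_iff (gl (dc t).2)).2 ⟨_, rfl⟩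
        rw [FreeGroup.norm_inv_eq] at e6
        have e9 : (emb n (dc t).1).norm = (g t).norm := emb_norm _
        unfold cj
        omega)
      rw [List.length_map, List.length_map] at e3
      have e4 : (((T.map dc).map cj).prod.norm : ℤ) ≤ T.length * (2 * size c + 1) := by
        have e5 : (((2 * size c + 1).toNat : ℕ) : ℤ) = 2 * size c + 1 := by omega
        rw [← e5]
        exact_mod_cast e3
      refine e4.trans ?_
      rw [← mul_assoc]
      exact mul_le_mul_of_nonneg_right e1.2.2 (by omega)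

end Pool.Agent.H910Z.TE
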