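import Pool.Agent.H910Z.TE.Back2

set_option autoImplicit false
set_option linter.unusedSectionVars false
set_option linter.unusedSimpArgs false
set_option linter.unusedVariables false

/-! # The tree of initial segments of finitely many words, laid out on the integer line -/

namespace Pool.Agent.H910Z.TE

open Pool.Agent.Helper156.OF

lemma lift_of_action {ι X Ω : Type} (ρ : FreeGroup X →* Equiv.Perm Ω)
    (hfree : ∀ g ω, ρ g ω = ω → g = 1) (E : ι → ℤ → Prop) (p : ι → Bool → ℤ → ℤ) (ty : ι → X)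
    (de : ℤ → Ω) (h1 : ∀ b k, E b k → de (p b true k) = ρ (FreeGroup.of (ty b)) (de (p b false k)))
    (h2 : ∀ b k b' k', E b k → E b' k' → ty b = ty b' → de (p b false k) = de (p b' false k') →
      b = b' ∧ k = k') : LiftE E p := by
  classical
  intro Q _ q
  set qq : X → Ω → Q := fun x ω =>
    if h : ∃ y : ι × ℤ, E y.1 y.2 ∧ ty y.1 = x ∧ de (p y.1 false y.2) = ω then
      (q h.choose.1 true h.choose.2)⁻¹ * q h.choose.1 false h.choose.2 else 1 with hqq
  have hq : ∀ b k, E b k → qq (ty b) (de (p b false k)) = (q b true k)⁻¹ * q b false k := by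
    intro b k hE
    have h : ∃ y : ι × ℤ, E y.1 y.2 ∧ ty y.1 = ty b ∧ de (p y.1 false y.2) = de (p b false k) :=
      ⟨(b, k), hE, rfl, rfl⟩
    obtain ⟨e1, e2, e3⟩ := h.choose_spec
    obtain ⟨e4, e5⟩ := h2 _ _ _ _ e1 hE e2 e3
    simp only [hqq, dif_pos h, e4, e5]
  let pm : X → Equiv.Perm (Ω × Q) := fun x =>
    { toFun := fun z => (ρ (FreeGroup.of x) z.1, qq x z.1 * z.2)
      invFun := fun z => ((ρ (FreeGroup.of x)).symm z.1,
        (qq x ((ρ (FreeGroup.of x)).symm z.1))⁻¹ * z.2)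
      left_inv := fun z => by simp
      right_inv := fun z => by simp }
  set Φ : FreeGroup X →* Equiv.Perm (Ω × Q) := FreeGroup.lift pm with hΦ
  have hΦ1 : ∀ x z, Φ (FreeGroup.of x) z = (ρ (FreeGroup.of x) z.1, qq x z.1 * z.2) := by
    intro x z
    simp only [hΦ, FreeGroup.lift_apply_of]
    rfl
  have hΦ2 : ∀ g z, (Φ g z).1 = ρ g z.1 := by
    intro g
    induction g using FreeGroup.induction_on with
    | C1 => intro z; simp
    | of x => intro z; rw [hΦ1]
    | inv_of x ih =>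
      intro z
      have := ih (Φ (FreeGroup.of x)⁻¹ z)
      rw [← Equiv.Perm.mul_apply, ← map_mul, mul_inv_cancel, map_one, Equiv.Perm.one_apply] at this
      rw [this, ← Equiv.Perm.mul_apply, ← map_mul, inv_mul_cancel, map_one, Equiv.Perm.one_apply]
    | mul x y ihx ihy =>
      intro z
      rw [map_mul, map_mul, Equiv.Perm.mul_apply, Equiv.Perm.mul_apply, ihx, ihy]
  let S : Setoid Ω := ⟨fun ω ω' => ∃ g, ρ g ω = ω',
    ⟨fun ω => ⟨1, by simp⟩,
     fun ⟨g, h⟩ => ⟨g⁻¹, by rw [← h, ← Equiv.Perm.mul_apply, ← map_mul]; simp⟩,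
     fun ⟨g, h⟩ ⟨g', h'⟩ => ⟨g' * g, by rw [map_mul, Equiv.Perm.mul_apply, h, h']⟩⟩⟩
  set r : Ω → Ω := fun ω => (Quotient.mk S ω).out with hr
  have hr1 : ∀ ω, ∃ g, ρ g (r ω) = ω := fun ω => Quotient.mk_out (s := S) ω
  choose γ hγ using hr1
  refine ⟨fun t => (Φ (γ (de t)) (r (de t), 1)).2, fun b k hE => ?_⟩
  have e1 : r (de (p b true k)) = r (de (p b false k)) := by
    have : Quotient.mk S (de (p b false k)) = Quotient.mk S (de (p b true k)) :=
      Quotient.sound ⟨_, (h1 b k hE).symm⟩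
    simp only [hr, this]
  have e2 : γ (de (p b true k)) = FreeGroup.of (ty b) * γ (de (p b false k)) := by
    have e3 := hγ (de (p b true k))
    rw [e1] at e3
    have e4 := hfree ((γ (de (p b true k)))⁻¹ * (FreeGroup.of (ty b) * γ (de (p b false k))))
      (r (de (p b false k))) (by
        rw [map_mul, map_mul, Equiv.Perm.mul_apply, Equiv.Perm.mul_apply, hγ, ← h1 b k hE, map_inv,
          Equiv.Perm.inv_eq_iff_eq, e3])
    exact inv_mul_eq_one.1 e4
  simp only
  rw [e1, e2, map_mul, Equiv.Perm.mul_apply, hΦ1, hΦ2, hγ, hq b k hE]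
  simp [mul_assoc]

section lists

variable {β : Type} [DecidableEq β]

lemma take_prefix_iff {γ : Type} [DecidableEq γ] (u w : List γ) {k : ℕ} (hk : k ≤ u.length) :
    u.take k <+: w ↔ k ≤ nlcp u w := by
  rw [le_nlcp_iff, List.prefix_iff_eq_take, List.length_take, min_eq_left hk]
  constructor
  · intro h
    refine ⟨hk, ?_, h⟩
    have := congrArg List.length h
    simp only [List.length_take] at this
    omega
  · exact fun h => h.2.2

lemma take_eq_of_le {γ : Type} [DecidableEq γ] {u w : List γ} {k : ℕ} (h : k ≤ nlcp u w) :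
    u.take k = w.take k := ((le_nlcp_iff u w k).1 h).2.2

lemma nlcp_self {γ : Type} [DecidableEq γ] (u : List γ) : nlcp u u = u.length :=
  le_antisymm (nlcp_le_left _ _) ((le_nlcp_iff u u _).2 ⟨le_rfl, le_rfl, rfl⟩)

lemma red_take (g : FreeGroup β) (k : ℕ) :
    (FreeGroup.mk (g.toWord.take k)).toWord = g.toWord.take k := by
  rw [FreeGroup.toWord_mk]
  have h : FreeGroup.IsReduced (g.toWord.take k) := List.IsChain.take FreeGroup.isReduced_toWord k
  exact h.reduce_eq

lemma take_invRev (l : List (Lt β)) (t : ℕ) :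
    (FreeGroup.invRev l).take t = FreeGroup.invRev (l.drop (l.length - t)) := by
  simp only [FreeGroup.invRev, List.take_reverse, List.length_map, List.map_drop]

lemma vx_back (A B : FreeGroup β) (t : ℕ) (ht : t ≤ A.toWord.length - nlcp A.toWord B.toWord) :
    (A * FreeGroup.mk ((A⁻¹ * B).toWord.take t)).toWord = A.toWord.take (A.toWord.length - t) := by
  have hr := nlcp_le_left A.toWord B.toWord
  rw [toWord_inv_mul, List.take_append_of_le_length (by
    rw [FreeGroup.invRev_length, List.length_drop]; exact ht), take_invRev, List.drop_drop,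
    List.length_drop, ← FreeGroup.inv_mk]
  have e1 : gp A B + (A.toWord.length - gp A B - t) = A.toWord.length - t := by
    unfold gp
    omega
  rw [e1, ← red_take]
  congr 1
  rw [mul_inv_eq_iff_eq_mul, ← mk_append', List.take_append_drop, FreeGroup.mk_toWord]

lemma vx_fwd (A B : FreeGroup β) (t : ℕ) (ht : A.toWord.length - nlcp A.toWord B.toWord ≤ t) :
    (A * FreeGroup.mk ((A⁻¹ * B).toWord.take t)).toWord =
      B.toWord.take (nlcp A.toWord B.toWord + (t - (A.toWord.length - nlcp A.toWord B.toWord))) := by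
  rw [toWord_inv_mul, List.take_append, List.take_of_length_le (by
    rw [FreeGroup.invRev_length, List.length_drop]; exact ht), FreeGroup.invRev_length,
    List.length_drop, mk_append', ← FreeGroup.inv_mk, ← red_take, List.take_add, mk_append',
    ← take_nlcp]
  congr 1
  rw [← mul_assoc]
  congr 1
  rw [mul_inv_eq_iff_eq_mul, ← mk_append']
  unfold gp
  rw [List.take_append_drop, FreeGroup.mk_toWord]

lemma len_inv_mul (A B : FreeGroup β) : (A⁻¹ * B).toWord.length =
    (A.toWord.length - nlcp A.toWord B.toWord) + (B.toWord.length - nlcp A.toWord B.toWord) := by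
  rw [toWord_inv_mul, List.length_append, FreeGroup.invRev_length, List.length_drop,
    List.length_drop]
  rfl

end lists

section layout

variable {n : ℕ} {β : Type} [DecidableEq β] (φ : FreeGroup (Fin n) →* FreeGroup β)
  (gs : ℕ → FreeGroup (Fin n)) (M : ℕ)

def wd (i : ℕ) : List (Lt β) := (φ (gs i)).toWord

def LL : ℕ := 2 * (∑ i ∈ Finset.range M, (wd φ gs i).length) + 1

noncomputable def own (a : List (Lt β)) : ℕ := sInf {j | a <+: wd φ gs j ∧ j < M}

def Lc : Finset ℕ := insert 0 ((Finset.range M ×ˢ Finset.range M).image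
  fun p => nlcp (wd φ gs p.1) (wd φ gs p.2))

def Dp : Finset ℕ := (Lc φ gs M ×ˢ Lc φ gs M ×ˢ Lc φ gs M).image
  fun p => p.1 - p.2.1 + p.2.2 - p.2.1

noncomputable def nx (k : ℕ) : ℕ := sInf {z | z ∈ Dp φ gs M ∧ k < z}

def Vx (x : Fin n) (j k : ℕ) : List (Lt β) :=
  (φ (FreeGroup.of x) * FreeGroup.mk ((wd φ gs j).take k)).toWord

def Act (x : Fin n) (j k : ℕ) : Prop :=
  k < (wd φ gs j).length ∧ own φ gs M ((wd φ gs j).take (k + 1)) = j ∧
    ∃ i i', i < M ∧ i' < M ∧ gs i' = FreeGroup.of x * gs i ∧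
      (wd φ gs j).take (k + 1) <+: wd φ gs i

def fw (x : Fin n) (j k : ℕ) : Bool := decide ((Vx φ gs x j k).length < (Vx φ gs x j (k + 1)).length)

noncomputable def ow (x : Fin n) (j k : ℕ) : ℕ :=
  own φ gs M (if fw φ gs x j k = true then Vx φ gs x j (k + 1) else Vx φ gs x j k)

variable {φ gs M}

lemma own_spec {a : List (Lt β)} {j : ℕ} (h : a <+: wd φ gs j) (hj : j < M) :
    own φ gs M a ≤ j ∧ a <+: wd φ gs (own φ gs M a) ∧ own φ gs M a < M := by
  have h1 : j ∈ {j | a <+: wd φ gs j ∧ j < M} := ⟨h, hj⟩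
  exact ⟨Nat.sInf_le h1, Nat.sInf_mem ⟨j, h1⟩⟩

lemma own_mono {a a' : List (Lt β)} {j : ℕ} (h : a <+: a') (h' : a' <+: wd φ gs j) (hj : j < M) :
    own φ gs M a ≤ own φ gs M a' := by
  obtain ⟨_, h2, h3⟩ := own_spec h' hj
  exact (own_spec (h.trans h2) h3).1

lemma len_lt_LL {j : ℕ} (hj : j < M) : 2 * (wd φ gs j).length < LL φ gs M := by
  have := Finset.single_le_sum (f := fun i => (wd φ gs i).length) (s := Finset.range M)
    (fun _ _ => Nat.zero_le _) (Finset.mem_range.2 hj)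
  unfold LL
  omega

lemma nlcp_mem {i j : ℕ} (hi : i < M) (hj : j < M) :
    nlcp (wd φ gs i) (wd φ gs j) ∈ Lc φ gs M :=
  Finset.mem_insert_of_mem (Finset.mem_image.2 ⟨(i, j), by simp [hi, hj], rfl⟩)

lemma len_mem {i : ℕ} (hi : i < M) : (wd φ gs i).length ∈ Lc φ gs M := by
  rw [← nlcp_self]
  exact nlcp_mem hi hi

lemma mem_Dp {a b c : ℕ} (ha : a ∈ Lc φ gs M) (hb : b ∈ Lc φ gs M) (hc : c ∈ Lc φ gs M) :
    a - b + c - b ∈ Dp φ gs M :=
  Finset.mem_image.2 ⟨(a, b, c), by simp [ha, hb, hc], rfl⟩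

lemma mem_Dp1 {a : ℕ} (ha : a ∈ Lc φ gs M) : a ∈ Dp φ gs M :=
  mem_Dp (b := 0) (c := 0) ha (Finset.mem_insert_self _ _) (Finset.mem_insert_self _ _)

lemma mem_Dp2 {a b : ℕ} (ha : a ∈ Lc φ gs M) (hb : b ∈ Lc φ gs M) : a - b ∈ Dp φ gs M := by
  have := mem_Dp ha hb hb
  rwa [Nat.add_sub_cancel] at this

lemma zero_mem_Dp : 0 ∈ Dp φ gs M := mem_Dp1 (Finset.mem_insert_self _ _)

lemma Dp_lt {z : ℕ} (hz : z ∈ Dp φ gs M) : z < LL φ gs M := by
  have h1 : ∀ a ∈ Lc φ gs M, 2 * a < LL φ gs M := by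
    intro a ha
    rcases Finset.mem_insert.1 ha with rfl | ha
    · unfold LL
      omega
    · obtain ⟨p, hp, rfl⟩ := Finset.mem_image.1 ha
      simp only [Finset.mem_product, Finset.mem_range] at hp
      have := len_lt_LL (φ := φ) (gs := gs) hp.1
      have := nlcp_le_left (wd φ gs p.1) (wd φ gs p.2)
      omega
  obtain ⟨p, hp, rfl⟩ := Finset.mem_image.1 hz
  simp only [Finset.mem_product] at hp
  have := h1 _ hp.1
  have := h1 _ hp.2.2
  omega

lemma card_Dp : (Dp φ gs M).card ≤ (M ^ 2 + 1) ^ 3 := by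
  have h1 : (Lc φ gs M).card ≤ M ^ 2 + 1 := by
    refine (Finset.card_insert_le _ _).trans (Nat.succ_le_succ (Finset.card_image_le.trans ?_))
    simp [pow_two]
  refine Finset.card_image_le.trans ?_
  rw [Finset.card_product, Finset.card_product]
  calc _ ≤ (M ^ 2 + 1) * ((M ^ 2 + 1) * (M ^ 2 + 1)) :=
        Nat.mul_le_mul h1 (Nat.mul_le_mul h1 h1)
    _ = _ := by ring

lemma nx_spec {k z : ℕ} (hz : z ∈ Dp φ gs M) (h : k < z) :
    nx φ gs M k ≤ z ∧ nx φ gs M k ∈ Dp φ gs M ∧ k < nx φ gs M k := by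
  have h1 : z ∈ {z | z ∈ Dp φ gs M ∧ k < z} := ⟨hz, h⟩
  exact ⟨Nat.sInf_le h1, Nat.sInf_mem ⟨z, h1⟩⟩

lemma nx_lt (k : ℕ) : nx φ gs M k < LL φ gs M := by
  by_cases h : {z | z ∈ Dp φ gs M ∧ k < z}.Nonempty
  · exact Dp_lt (Nat.sInf_mem h).1
  · rw [Set.not_nonempty_iff_eq_empty] at h
    unfold nx
    rw [h, Nat.sInf_empty]
    unfold LL
    omega

lemma exists_prev {k : ℕ} (hk : k ∈ Dp φ gs M) (h : 0 < k) :
    ∃ k0 ∈ Dp φ gs M, k0 < k ∧ nx φ gs M k0 = k := by
  obtain ⟨k0, h1, h2⟩ := Finset.exists_max_image ((Dp φ gs M).filter (· < k)) id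
    ⟨0, Finset.mem_filter.2 ⟨zero_mem_Dp, h⟩⟩
  obtain ⟨h3, h4⟩ := Finset.mem_filter.1 h1
  refine ⟨k0, h3, h4, ?_⟩
  obtain ⟨h5, h6, h7⟩ := nx_spec hk h4
  by_contra h8
  have := h2 _ (Finset.mem_filter.2 ⟨h6, lt_of_le_of_ne h5 h8⟩)
  simp only [id] at this
  omega

/-- the owner is constant up to the next special depth -/
lemma own_const {i k : ℕ} (hi : i < M) (hk : k < (wd φ gs i).length) :
    k < nx φ gs M k ∧ nx φ gs M k ≤ nlcp (wd φ gs i) (wd φ gs (own φ gs M ((wd φ gs i).take (k + 1)))) ∧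
    ∀ t, k ≤ t → t < nx φ gs M k →
      own φ gs M ((wd φ gs i).take (t + 1)) = own φ gs M ((wd φ gs i).take (k + 1)) := by
  obtain ⟨h1, h2, h3⟩ := own_spec (List.take_prefix (k + 1) (wd φ gs i)) hi
  rw [take_prefix_iff _ _ hk] at h2
  obtain ⟨h4, h5, h6⟩ := nx_spec (mem_Dp1 (nlcp_mem hi h3)) (show k < _ from h2)
  refine ⟨h6, h4, fun t h7 h8 => le_antisymm ?_ ?_⟩
  · refine (own_spec ?_ h3).1
    have := nlcp_le_left (wd φ gs i) (wd φ gs (own φ gs M ((wd φ gs i).take (k + 1))))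
    rw [take_prefix_iff _ _ (by omega)]
    omega
  · exact own_mono (List.take_prefix_take_left (by omega)) (List.take_prefix _ _) hi

lemma act_hom {x : Fin n} {j k : ℕ} (hj : j < M) (hx : ∃ ix, ix < M ∧ gs ix = FreeGroup.of x)
    (h : Act φ gs M x j k) :
    k < nx φ gs M k ∧ nx φ gs M k ≤ (wd φ gs j).length ∧
    (∀ t, k ≤ t → t < nx φ gs M k → own φ gs M ((wd φ gs j).take (t + 1)) = j) ∧
    ow φ gs M x j k < M ∧
    if fw φ gs x j k = true then
      (∀ t, k ≤ t → t ≤ nx φ gs M k → Vx φ gs x j t =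
        (wd φ gs (ow φ gs M x j k)).take ((Vx φ gs x j k).length + (t - k))) ∧
      (Vx φ gs x j k).length + (nx φ gs M k - k) ≤ (wd φ gs (ow φ gs M x j k)).length ∧
      ∀ e, (Vx φ gs x j k).length ≤ e → e < (Vx φ gs x j k).length + (nx φ gs M k - k) →
        own φ gs M ((wd φ gs (ow φ gs M x j k)).take (e + 1)) = ow φ gs M x j k
    else
      (∀ t, k ≤ t → t ≤ nx φ gs M k → Vx φ gs x j t =
        (wd φ gs (ow φ gs M x j k)).take ((Vx φ gs x j k).length - (t - k))) ∧
      nx φ gs M k - k ≤ (Vx φ gs x j k).length ∧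
      (Vx φ gs x j k).length ≤ (wd φ gs (ow φ gs M x j k)).length ∧
      ∀ e, (Vx φ gs x j k).length - (nx φ gs M k - k) ≤ e → e < (Vx φ gs x j k).length →
        own φ gs M ((wd φ gs (ow φ gs M x j k)).take (e + 1)) = ow φ gs M x j k := by
  obtain ⟨h1, h2, i, i', hi, hi', h3, h4⟩ := h
  obtain ⟨ix, hix, hix'⟩ := hx
  obtain ⟨h5, h6, h7⟩ := own_const (φ := φ) (gs := gs) hj h1
  rw [h2] at h6 h7
  rw [nlcp_self] at h6
  rw [take_prefix_iff _ _ h1] at h4
  have h8 := (nx_spec (mem_Dp1 (nlcp_mem hj hi)) (show k < _ from h4)).1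
  have hA : φ (FreeGroup.of x) = φ (gs ix) := by rw [hix']
  have hw : wd φ gs i = ((φ (gs ix))⁻¹ * φ (gs i')).toWord := by
    rw [h3, map_mul, hA, inv_mul_cancel_left]
    rfl
  have hV : ∀ t, t ≤ nx φ gs M k → Vx φ gs x j t =
      (φ (gs ix) * FreeGroup.mk (((φ (gs ix))⁻¹ * φ (gs i')).toWord.take t)).toWord := by
    intro t ht
    unfold Vx
    rw [hA, ← hw, take_eq_of_le (ht.trans h8)]
  have hlen := len_inv_mul (φ (gs ix)) (φ (gs i'))
  rw [← hw] at hlen
  have hb := vx_back (φ (gs ix)) (φ (gs i'))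
  have hf := vx_fwd (φ (gs ix)) (φ (gs i'))
  change ∀ t, t ≤ (wd φ gs ix).length - nlcp (wd φ gs ix) (wd φ gs i') →
    _ = (wd φ gs ix).take ((wd φ gs ix).length - t) at hb
  change ∀ t, (wd φ gs ix).length - nlcp (wd φ gs ix) (wd φ gs i') ≤ t →
    _ = (wd φ gs i').take (nlcp (wd φ gs ix) (wd φ gs i') +
      (t - ((wd φ gs ix).length - nlcp (wd φ gs ix) (wd φ gs i')))) at hf
  change _ = ((wd φ gs ix).length - nlcp (wd φ gs ix) (wd φ gs i')) +
    ((wd φ gs i').length - nlcp (wd φ gs ix) (wd φ gs i')) at hlen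
  obtain ⟨r, hr⟩ : ∃ r, r = nlcp (wd φ gs ix) (wd φ gs i') := ⟨_, rfl⟩
  have hrm : r ∈ Lc φ gs M := hr ▸ nlcp_mem hix hi'
  have hr1 : r ≤ (wd φ gs ix).length := hr ▸ nlcp_le_left _ _
  have hr2 : r ≤ (wd φ gs i').length := hr ▸ nlcp_le_right _ _
  rw [← hr] at hb hf hlen
  have h9 := nlcp_le_right (wd φ gs j) (wd φ gs i)
  refine ⟨h5, h6, h7, ?_⟩
  by_cases hm : k < (wd φ gs ix).length - r
  · have e1 := (nx_spec (mem_Dp2 (len_mem hix) hrm) hm).1
    have e2 : ∀ t, t ≤ nx φ gs M k →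
        Vx φ gs x j t = (wd φ gs ix).take ((wd φ gs ix).length - t) :=
      fun t ht => by rw [hV t ht, hb t (by omega)]
    have e3 : (Vx φ gs x j k).length = (wd φ gs ix).length - k := by
      rw [e2 k h5.le, List.length_take]
      omega
    have e4 : fw φ gs x j k = false := by
      unfold fw
      rw [e3, e2 (k + 1) h5, List.length_take]
      simp only [decide_eq_false_iff_not]
      omega
    have e5 : ow φ gs M x j k = own φ gs M ((wd φ gs ix).take ((wd φ gs ix).length - k)) := by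
      unfold ow
      rw [e4, ← e2 k h5.le]
      simp
    obtain ⟨e6, e7, e8⟩ := own_spec (List.take_prefix ((wd φ gs ix).length - k) (wd φ gs ix)) hix
    rw [← e5] at e6 e7 e8
    rw [take_prefix_iff _ _ (by omega)] at e7
    have e9 := nlcp_le_right (wd φ gs ix) (wd φ gs (ow φ gs M x j k))
    refine ⟨e8, ?_⟩
    rw [e4, if_neg (by simp), e3]
    refine ⟨fun t ht1 ht2 => ?_, by omega, by omega, fun e he1 he2 => ?_⟩
    · rw [e2 t ht2, show (wd φ gs ix).length - k - (t - k) = (wd φ gs ix).length - t by omega]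
      exact take_eq_of_le (by omega)
    · obtain ⟨f1, f2, f3⟩ := own_spec (List.take_prefix (e + 1) (wd φ gs (ow φ gs M x j k))) e8
      refine le_antisymm f1 ?_
      rw [← take_eq_of_le (show e + 1 ≤ nlcp (wd φ gs ix) (wd φ gs (ow φ gs M x j k)) by omega)]
        at f2 f3 ⊢
      rw [take_prefix_iff _ _ (by omega)] at f2
      by_contra f4
      have f5 : ¬ ((wd φ gs ix).length - k ≤
          nlcp (wd φ gs ix) (wd φ gs (own φ gs M ((wd φ gs ix).take (e + 1))))) := by
        intro f6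
        rw [← take_prefix_iff _ _ (by omega)] at f6
        have := (own_spec f6 f3).1
        omega
      have f6 := (nx_spec (φ := φ) (gs := gs) (k := k)
        (mem_Dp2 (len_mem hix) (nlcp_mem hix f3)) (by omega)).1
      omega
  · have e2 : ∀ t, k ≤ t → t ≤ nx φ gs M k →
        Vx φ gs x j t = (wd φ gs i').take (r + (t - ((wd φ gs ix).length - r))) :=
      fun t ht1 ht => by rw [hV t ht, hf t (by omega)]
    have e3 : (Vx φ gs x j k).length = r + (k - ((wd φ gs ix).length - r)) := by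
      rw [e2 k le_rfl h5.le, List.length_take]
      omega
    have e4 : fw φ gs x j k = true := by
      unfold fw
      rw [e3, e2 (k + 1) (by omega) h5, List.length_take]
      simp only [decide_eq_true_eq]
      omega
    have e5 : ow φ gs M x j k =
        own φ gs M ((wd φ gs i').take (r + (k + 1 - ((wd φ gs ix).length - r)))) := by
      unfold ow
      rw [e4, ← e2 (k + 1) (by omega) h5]
      simp
    obtain ⟨e6, e7, e8⟩ := own_spec (List.take_prefix (r + (k + 1 - ((wd φ gs ix).length - r)))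
      (wd φ gs i')) hi'
    rw [← e5] at e6 e7 e8
    rw [take_prefix_iff _ _ (by omega)] at e7
    have e9 := nlcp_le_right (wd φ gs i') (wd φ gs (ow φ gs M x j k))
    have e10 := (nx_spec (φ := φ) (gs := gs) (k := k)
      (mem_Dp (len_mem hix) hrm (nlcp_mem hi' e8)) (by omega)).1
    refine ⟨e8, ?_⟩
    rw [e4, if_pos rfl, e3]
    refine ⟨fun t ht1 ht2 => ?_, by omega, fun e he1 he2 => ?_⟩
    · rw [e2 t ht1 ht2, show r + (k - ((wd φ gs ix).length - r)) + (t - k) =
        r + (t - ((wd φ gs ix).length - r)) by omega]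
      exact take_eq_of_le (by omega)
    · refine le_antisymm (own_spec (List.take_prefix _ _) e8).1 ?_
      rw [← take_eq_of_le (show e + 1 ≤ nlcp (wd φ gs i') (wd φ gs (ow φ gs M x j k)) by omega)]
      rw [e5]
      exact own_mono (List.take_prefix_take_left (by omega)) (List.take_prefix _ _) hi'

end layout

end Pool.Agent.H910Z.TE
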