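import Pool.Agent.H910Z.TE.Init1

set_option autoImplicit false
set_option linter.unusedSectionVars false
set_option linter.unusedSimpArgs false
set_option linter.unusedVariables false

/-! # The band system of an injective homomorphism -/

namespace Pool.Agent.H910Z.TE

open Pool.Agent.Helper156.OF

abbrev Io (n M : ℕ) (D : Finset ℕ) :=
  (Fin n × Fin M × D) ⊕ (Fin M × D) ⊕ Fin (3 * (n * (M * D.card)) + 2)

variable {n : ℕ} {β : Type} [DecidableEq β] (φ : FreeGroup (Fin n) →* FreeGroup β)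
  (gs : ℕ → FreeGroup (Fin n)) (M : ℕ)

open Classical in
noncomputable def c0 : Nm (Io n M (Dp φ gs M)) → ℤ
  | Sum.inl false => 0
  | Sum.inl true => M * LL φ gs M
  | Sum.inr (Sum.inl (x, j, k), s, e) =>
      if Act φ gs M x j k then
        (if s = true then (ow φ gs M x j k : ℤ) * LL φ gs M + (Vx φ gs x j k).length +
          (if e = true then (if fw φ gs x j k = true then ((nx φ gs M k : ℤ) - k)
            else -((nx φ gs M k : ℤ) - k)) else 0)
        else (j : ℤ) * LL φ gs M + (if e = true then (nx φ gs M k : ℤ) else k))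
      else 0
  | Sum.inr (Sum.inr (Sum.inl (j, k)), s, _) =>
      (j : ℤ) * LL φ gs M + (if s = true then (nx φ gs M k : ℤ) else k)
  | Sum.inr (Sum.inr (Sum.inr _), _, _) => 0

def d0 : Dir (Io n M (Dp φ gs M))
  | Sum.inl (x, j, k), s => if s = true then fw φ gs x j k else true
  | Sum.inr _, _ => true

def ty0 (x0 : Fin n) : Io n M (Dp φ gs M) → Fin n
  | Sum.inl (x, _, _) => x
  | Sum.inr _ => x0

def vtx (j k : ℕ) : FreeGroup β := FreeGroup.mk ((wd φ gs j).take k)

def de (t : ℤ) : Sym2 (FreeGroup β) :=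
  s(vtx φ gs (t / LL φ gs M).toNat (t % LL φ gs M).toNat,
    vtx φ gs (t / LL φ gs M).toNat ((t % LL φ gs M).toNat + 1))

def rho : FreeGroup (Fin n) →* Equiv.Perm (Sym2 (FreeGroup β)) :=
  MonoidHom.mk' (fun g =>
    { toFun := Sym2.map (fun a => φ g * a)
      invFun := Sym2.map (fun a => (φ g)⁻¹ * a)
      left_inv := fun z => by
        induction z using Sym2.ind with
        | _ a b => simp
      right_inv := fun z => by
        induction z using Sym2.ind with
        | _ a b => simp })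
    (fun g h => by
      ext1 z
      induction z using Sym2.ind with
      | _ a b => simp [mul_assoc])

variable {φ gs M}

lemma rho_mk (g : FreeGroup (Fin n)) (a b : FreeGroup β) :
    rho φ g s(a, b) = s(φ g * a, φ g * b) := rfl

lemma rho_free (hφ : Function.Injective φ) (g : FreeGroup (Fin n)) (ω : Sym2 (FreeGroup β))
    (h : rho φ g ω = ω) : g = 1 := by
  induction ω using Sym2.ind with
  | _ a b =>
    rw [rho_mk, Sym2.eq_iff] at h
    apply hφ
    rw [map_one]
    rcases h with h | h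
    · simpa using h.1
    · have h1 : φ g * φ g = 1 := by
        have h2 := h.2
        rw [← h.1, ← mul_assoc] at h2
        simpa using h2
      by_contra h2
      have h3 := norm_lt_sq _ h2
      have h4 := norm_mul_cc (φ g) (φ g)
      rw [h1, FreeGroup.norm_one] at h4
      omega

lemma de_eq (j e : ℕ) (he : e < LL φ gs M) :
    de φ gs M ((j : ℤ) * LL φ gs M + e) = s(vtx φ gs j e, vtx φ gs j (e + 1)) := by
  have h0 : (0 : ℤ) < LL φ gs M := by omega
  have h1 : ((j : ℤ) * LL φ gs M + e) / LL φ gs M = j := by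
    rw [add_comm, Int.add_mul_ediv_right _ _ h0.ne', Int.ediv_eq_zero_of_lt (by omega) (by omega)]
    simp
  have h2 : ((j : ℤ) * LL φ gs M + e) % LL φ gs M = e := by
    rw [add_comm, Int.add_mul_emod_self_right, Int.emod_eq_of_lt (by omega) (by omega)]
  simp only [de, h1, h2, Int.toNat_natCast]

lemma c0_lo : c0 φ gs M lo = 0 := rfl
lemma c0_hi : c0 φ gs M hi = M * LL φ gs M := rfl

lemma c0_act {x : Fin n} {j : Fin M} {k : Dp φ gs M} (h : Act φ gs M x j k) :
    c0 φ gs M (bg (Sum.inl (x, j, k)) false) = (j : ℤ) * LL φ gs M + k ∧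
    c0 φ gs M (fn (Sum.inl (x, j, k)) false) = (j : ℤ) * LL φ gs M + nx φ gs M k ∧
    c0 φ gs M (bg (Sum.inl (x, j, k)) true) =
      (ow φ gs M x j k : ℤ) * LL φ gs M + (Vx φ gs x j k).length ∧
    c0 φ gs M (fn (Sum.inl (x, j, k)) true) =
      (ow φ gs M x j k : ℤ) * LL φ gs M + (Vx φ gs x j k).length +
        (if fw φ gs x j k = true then ((nx φ gs M k : ℤ) - k) else -((nx φ gs M k : ℤ) - k)) := by
  simp [c0, bg, fn, h]

lemma c0_not {x : Fin n} {j : Fin M} {k : Dp φ gs M} (h : ¬ Act φ gs M x j k) (s : Bool) :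
    c0 φ gs M (bg (Sum.inl (x, j, k)) s) = 0 ∧ c0 φ gs M (fn (Sum.inl (x, j, k)) s) = 0 := by
  simp [c0, bg, fn, h]

lemma len0_act {x : Fin n} {j : Fin M} {k : Dp φ gs M} (h : Act φ gs M x j k) (s : Bool) :
    len (d0 φ gs M) (c0 φ gs M) (Sum.inl (x, j, k)) s = (nx φ gs M k : ℤ) - k := by
  obtain ⟨h1, h2, h3, h4⟩ := c0_act h
  cases s
  · simp only [len, d0, h1, h2, Bool.false_eq_true, if_false, if_true]
    ring
  · simp only [len, d0, h3, h4, if_true]
    split_ifs <;> ring

lemma len0_cases (b : Io n M (Dp φ gs M)) :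
    (∃ (x : Fin n) (j : Fin M) (k : Dp φ gs M), b = Sum.inl (x, j, k) ∧ Act φ gs M x j k) ∨
      ∀ s, len (d0 φ gs M) (c0 φ gs M) b s = 0 := by
  rcases b with ⟨x, j, k⟩ | ⟨j, k⟩ | i
  · by_cases h : Act φ gs M x j k
    · exact Or.inl ⟨x, j, k, rfl, h⟩
    · right
      intro s
      simp [len, (c0_not h s).1, (c0_not h s).2]
  · right
    intro s
    simp [len, d0, c0, bg, fn]
  · right
    intro s
    simp [len, d0, c0, bg, fn]

lemma mul_bound {j e : ℕ} (hj : j < M) (he : e < LL φ gs M) :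
    (0 : ℤ) ≤ (j : ℤ) * LL φ gs M + e ∧ (j : ℤ) * LL φ gs M + e ≤ M * LL φ gs M := by
  have h1 : (j + 1) * LL φ gs M ≤ M * LL φ gs M := Nat.mul_le_mul_right _ hj
  rw [Nat.succ_mul] at h1
  constructor
  · positivity
  · exact_mod_cast (by omega : j * LL φ gs M + e ≤ M * LL φ gs M)

lemma edge0 (hx : ∀ x, ∃ ix, ix < M ∧ gs ix = FreeGroup.of x) {b : Io n M (Dp φ gs M)} {t : ℤ}
    (h : Ed (d0 φ gs M) (c0 φ gs M) b t) :
    ∃ (x : Fin n) (j : Fin M) (k : Dp φ gs M) (e : ℕ), b = Sum.inl (x, j, k) ∧ Act φ gs M x j k ∧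
      (e : ℤ) = k + t ∧ (k : ℕ) ≤ e ∧ e < nx φ gs M k ∧
      de φ gs M (pos (d0 φ gs M) (c0 φ gs M) b false t) = s(vtx φ gs j e, vtx φ gs j (e + 1)) ∧
      de φ gs M (pos (d0 φ gs M) (c0 φ gs M) b true t) =
        rho φ (FreeGroup.of x) s(vtx φ gs j e, vtx φ gs j (e + 1)) := by
  unfold Ed at h
  rcases len0_cases b with ⟨x, j, k, rfl, ha⟩ | h0
  swap
  · rw [h0] at h
    omega
  rw [len0_act ha] at h
  obtain ⟨h1, h2, h3, h4⟩ := c0_act ha
  obtain ⟨h5, h6, h7, h8, h9⟩ := act_hom j.2 (hx x) ha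
  have hL := nx_lt (φ := φ) (gs := gs) (M := M) k
  have hL2 := len_lt_LL (φ := φ) (gs := gs) h8
  obtain ⟨e, he⟩ : ∃ e : ℕ, (e : ℤ) = k + t := ⟨(k + t).toNat, by omega⟩
  have hv : ∀ e, φ (FreeGroup.of x) * vtx φ gs j e = FreeGroup.mk (Vx φ gs x j e) := by
    intro e
    simp [Vx, vtx, FreeGroup.mk_toWord]
  refine ⟨x, j, k, e, rfl, ha, he, by omega, by omega, ?_, ?_⟩
  · rw [← de_eq (M := M) _ _ (by omega)]
    congr 1
    simp only [pos, d0, h1, Bool.false_eq_true, if_false, if_true]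
    omega
  · rw [rho_mk, hv, hv]
    by_cases hf : fw φ gs x j k = true
    · rw [if_pos hf] at h9
      obtain ⟨e1, e2, e3⟩ := h9
      rw [e1 e (by omega) (by omega), e1 (e + 1) (by omega) (by omega),
        show (Vx φ gs x j k).length + (e + 1 - k) = (Vx φ gs x j k).length + (e - k) + 1 by omega]
      have := de_eq (φ := φ) (gs := gs) (M := M) (ow φ gs M x j k)
        ((Vx φ gs x j k).length + (e - k)) (by omega)
      unfold vtx at this
      rw [← this]
      congr 1
      simp only [pos, d0, h3, hf, if_true]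
      omega
    · rw [if_neg hf] at h9
      obtain ⟨e1, e2, e3, e4⟩ := h9
      rw [e1 e (by omega) (by omega), e1 (e + 1) (by omega) (by omega), Sym2.eq_swap,
        show (Vx φ gs x j k).length - (e - k) = (Vx φ gs x j k).length - (e + 1 - k) + 1 by omega]
      have := de_eq (φ := φ) (gs := gs) (M := M) (ow φ gs M x j k)
        ((Vx φ gs x j k).length - (e + 1 - k)) (by omega)
      unfold vtx at this
      rw [← this]
      congr 1
      simp only [pos, d0, h3, if_true, if_neg hf]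
      omega

lemma edge0_inj (hx : ∀ x, ∃ ix, ix < M ∧ gs ix = FreeGroup.of x) (x0 : Fin n)
    (b : Io n M (Dp φ gs M)) (t : ℤ) (b' : Io n M (Dp φ gs M)) (t' : ℤ)
    (h : Ed (d0 φ gs M) (c0 φ gs M) b t) (h' : Ed (d0 φ gs M) (c0 φ gs M) b' t')
    (hty : ty0 φ gs M x0 b = ty0 φ gs M x0 b')
    (hde : de φ gs M (pos (d0 φ gs M) (c0 φ gs M) b false t) =
      de φ gs M (pos (d0 φ gs M) (c0 φ gs M) b' false t')) : b = b' ∧ t = t' := by
  obtain ⟨x, j, k, e, rfl, ha, h1, h2, h3, h4, _⟩ := edge0 hx h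
  obtain ⟨x', j', k', e', rfl, ha', h1', h2', h3', h4', _⟩ := edge0 hx h'
  obtain ⟨h5, h6, h7, _⟩ := act_hom j.2 (hx x) ha
  obtain ⟨h5', h6', h7', _⟩ := act_hom j'.2 (hx x') ha'
  have hw : ∀ j e, (vtx φ gs j e).toWord = (wd φ gs j).take e := fun j e => red_take _ _
  rw [h4, h4', Sym2.eq_iff] at hde
  have e1 : (wd φ gs j).take (e + 1) = (wd φ gs j').take (e' + 1) := by
    rcases hde with hde | hde
    · rw [← hw, ← hw, hde.2]
    · have f1 := congrArg (fun g => g.toWord.length) hde.1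
      have f2 := congrArg (fun g => g.toWord.length) hde.2
      simp only [hw, List.length_take] at f1 f2
      omega
  have e2 : e = e' := by
    have f1 := congrArg List.length e1
    simp only [List.length_take] at f1
    omega
  have e3 : j = j' := by
    apply Fin.ext
    rw [← h7 e h2 h3, ← h7' e' h2' h3', e1]
  have e4 : k = k' := by
    apply Subtype.ext
    by_contra f1
    rcases lt_or_gt_of_ne f1 with f2 | f2
    · have := (nx_spec k'.2 f2).1
      omega
    · have := (nx_spec k.2 f2).1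
      omega
  have e5 : x = x' := hty
  subst e3 e4 e5
  exact ⟨rfl, by omega⟩

lemma good0 (hφ : Function.Injective φ) (hx : ∀ x, ∃ ix, ix < M ∧ gs ix = FreeGroup.of x)
    (x0 : Fin n) : Good (d0 φ gs M) (c0 φ gs M) := by
  have hall : ∀ α, 0 ≤ c0 φ gs M α ∧ c0 φ gs M α ≤ M * LL φ gs M := by
    have h0 : (0 : ℤ) ≤ M * LL φ gs M := by positivity
    rintro (x | ⟨⟨x, j, k⟩ | ⟨j, k⟩ | i, s, e⟩)
    · cases x
      · exact ⟨le_rfl, h0⟩
      · exact ⟨h0, le_rfl⟩
    · by_cases h : Act φ gs M x j k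
      · obtain ⟨h1, h2, h3, h4⟩ := c0_act h
        obtain ⟨h5, h6, h7, h8, h9⟩ := act_hom j.2 (hx x) h
        have hL := nx_lt (φ := φ) (gs := gs) (M := M) k
        have hL2 := len_lt_LL (φ := φ) (gs := gs) h8
        cases s <;> cases e
        · exact h1 ▸ mul_bound j.2 (by omega)
        · exact h2 ▸ mul_bound j.2 hL
        · refine h3 ▸ mul_bound h8 ?_
          split_ifs at h9 <;> omega
        · have h10 : c0 φ gs M (Sum.inr (Sum.inl (x, j, k), true, true)) = _ := h4
          rw [h10]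
          split_ifs at h9 ⊢
          · have := mul_bound (φ := φ) (gs := gs)
              (e := (Vx φ gs x j k).length + (nx φ gs M k - k)) h8 (by omega)
            omega
          · have := mul_bound (φ := φ) (gs := gs)
              (e := (Vx φ gs x j k).length - (nx φ gs M k - k)) h8 (by omega)
            omega
      · simp [c0, h, h0]
    · simp only [c0]
      split_ifs
      · exact mul_bound j.2 (nx_lt k)
      · exact mul_bound j.2 (Dp_lt k.2)
    · exact ⟨le_rfl, h0⟩
  refine ⟨fun α => (hall α).1, fun α => (hall α).2, ?_, ?_, ?_⟩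
  · intro b
    rcases len0_cases b with ⟨x, j, k, rfl, ha⟩ | h0
    · rw [len0_act ha]
      have := (act_hom j.2 (hx x) ha).1
      omega
    · rw [h0]
  · intro b
    rcases len0_cases b with ⟨x, j, k, rfl, ha⟩ | h0
    · rw [len0_act ha, len0_act ha]
    · rw [h0, h0]
  · refine lift_of_action (rho φ) (rho_free hφ) _ _ (ty0 φ gs M x0) (de φ gs M) ?_
      (edge0_inj hx x0)
    intro b t h
    obtain ⟨x, j, k, e, rfl, ha, h1, h2, h3, h4, h5⟩ := edge0 hx h
    rw [h4, h5]
    rfl

lemma det0 (hx : ∀ x, ∃ ix, ix < M ∧ gs ix = FreeGroup.of x) (x0 : Fin n) :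
    Det (d0 φ gs M) (c0 φ gs M) (ty0 φ gs M x0) := by
  rintro b b' s t hb hty ⟨k, h1, h2, h3⟩ ⟨k', h1', h2', h3'⟩
  apply hb
  refine (edge0_inj hx x0 b k b' k' ⟨h1, h2⟩ ⟨h1', h2'⟩ hty ?_).1
  cases s
  · rw [← h3, ← h3']
  · obtain ⟨x, j, z, e, rfl, ha, _, _, _, h4, h5⟩ := edge0 hx (b := b) (t := k) ⟨h1, h2⟩
    obtain ⟨x', j', z', e', rfl, ha', _, _, _, h4', h5'⟩ := edge0 hx (b := b') (t := k') ⟨h1', h2'⟩
    have e5 : x = x' := hty
    subst e5
    simp only at h3 h3'
    rw [h4, h4']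
    apply (rho φ (FreeGroup.of x)).injective
    rw [← h5, ← h5', ← h3, ← h3']

lemma card_NE0 : 3 * (NE (d0 φ gs M) (c0 φ gs M)).card + 2 <
    2 * Fintype.card (Io n M (Dp φ gs M)) := by
  classical
  have h1 : NE (d0 φ gs M) (c0 φ gs M) ⊆
      (Finset.univ : Finset ((Fin n × Fin M × Dp φ gs M) × Bool)).image
        (fun y => (Sum.inl y.1, y.2)) := by
    rintro ⟨b, s⟩ hb
    rw [mem_NE] at hb
    rcases len0_cases b with ⟨x, j, k, rfl, ha⟩ | h0
    · exact Finset.mem_image.2 ⟨((x, j, k), s), Finset.mem_univ _, rfl⟩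
    · simp only [h0] at hb
      omega
  have h2 := (Finset.card_le_card h1).trans Finset.card_image_le
  simp only [Finset.card_univ, Fintype.card_prod, Fintype.card_fin, Fintype.card_coe,
    Fintype.card_bool, Fintype.card_sum] at h2 ⊢
  omega

section phi

variable {Q : Type} [Group Q] (F : ℤ → Q)

/-- the value of a path from the root -/
noncomputable def Phi (φ : FreeGroup (Fin n) →* FreeGroup β) (gs : ℕ → FreeGroup (Fin n)) (M : ℕ)
    (F : ℤ → Q) (a : List (Lt β)) : Q :=
  ((List.range a.length).map (fun k =>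
    (F ((own φ gs M (a.take (k + 1)) : ℤ) * LL φ gs M + k))⁻¹ *
      F ((own φ gs M (a.take (k + 1)) : ℤ) * LL φ gs M + (k + 1 : ℕ)))).prod

lemma Phi_succ (w : List (Lt β)) {k : ℕ} (hk : k < w.length) :
    Phi φ gs M F (w.take (k + 1)) = Phi φ gs M F (w.take k) *
      ((F ((own φ gs M (w.take (k + 1)) : ℤ) * LL φ gs M + k))⁻¹ *
        F ((own φ gs M (w.take (k + 1)) : ℤ) * LL φ gs M + (k + 1 : ℕ))) := by
  unfold Phi
  rw [List.length_take, List.length_take, min_eq_left hk, min_eq_left hk.le, List.range_succ,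
    List.map_append, List.prod_append]
  simp only [List.map_cons, List.map_nil, List.prod_cons, List.prod_nil, mul_one, List.take_take,
    min_self]
  congr 2
  apply List.map_congr_left
  intro i hi
  rw [List.mem_range] at hi
  rw [min_eq_left (by omega), min_eq_left (by omega)]

lemma Phi_tele (w : List (Lt β)) (o : ℕ) {k k' : ℕ} (h1 : k ≤ k') (h2 : k' ≤ w.length)
    (h3 : ∀ e, k ≤ e → e < k' → own φ gs M (w.take (e + 1)) = o) :
    Phi φ gs M F (w.take k') = Phi φ gs M F (w.take k) *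
      ((F ((o : ℤ) * LL φ gs M + k))⁻¹ * F ((o : ℤ) * LL φ gs M + k')) := by
  induction k', h1 using Nat.le_induction with
  | base => simp
  | succ k' h1 ih =>
    rw [Phi_succ F w h2, ih (by omega) (fun e h4 h5 => h3 e h4 (by omega)), h3 k' h1 (by omega)]
    simp [mul_assoc]

lemma transport (hx : ∀ x, ∃ ix, ix < M ∧ gs ix = FreeGroup.of x) (x0 : Fin n) (ξ : Fin n → Q)
    (hF : ∀ b, (F (c0 φ gs M (bg b true)))⁻¹ * F (c0 φ gs M (fn b true)) = ξ (ty0 φ gs M x0 b) *
      ((F (c0 φ gs M (bg b false)))⁻¹ * F (c0 φ gs M (fn b false))) * (ξ (ty0 φ gs M x0 b))⁻¹)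
    (x : Fin n) {i i' : ℕ} (hi : i < M) (hi' : i' < M) (h : gs i' = FreeGroup.of x * gs i) :
    Phi φ gs M F (wd φ gs i') = Phi φ gs M F (φ (FreeGroup.of x)).toWord * ξ x *
      Phi φ gs M F (wd φ gs i) * (ξ x)⁻¹ := by
  have key : ∀ k, k ∈ Dp φ gs M → k ≤ (wd φ gs i).length →
      Phi φ gs M F (Vx φ gs x i k) = Phi φ gs M F (φ (FreeGroup.of x)).toWord * ξ x *
        Phi φ gs M F ((wd φ gs i).take k) * (ξ x)⁻¹ := by
    intro k
    induction k using Nat.strong_induction_on with
    | _ k ih =>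
      intro hk1 hk2
      rcases Nat.eq_zero_or_pos k with rfl | hk0
      · simp [Vx, Phi, ← FreeGroup.one_eq_mk]
      obtain ⟨k0, h1, h2, h3⟩ := exists_prev hk1 hk0
      obtain ⟨h4, h5, h6⟩ := own_const (φ := φ) (gs := gs) hi (show k0 < _ by omega)
      obtain ⟨h7, h8, h9⟩ := own_spec (List.take_prefix (k0 + 1) (wd φ gs i)) hi
      obtain ⟨j, hj⟩ : ∃ j, j = own φ gs M ((wd φ gs i).take (k0 + 1)) := ⟨_, rfl⟩
      rw [← hj] at h5 h6 h7 h8 h9
      rw [h3] at h5 h6
      have h10 := nlcp_le_right (wd φ gs i) (wd φ gs j)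
      have e0 : ∀ t, t ≤ k → (wd φ gs i).take t = (wd φ gs j).take t :=
        fun t ht => take_eq_of_le (by omega)
      have ha : Act φ gs M x j k0 := by
        refine ⟨by omega, ?_, i, i', hi, hi', h, ?_⟩
        · rw [← e0 _ (by omega), ← hj]
        · rw [← e0 _ (by omega)]
          exact List.take_prefix _ _
      have eV : ∀ t, t ≤ k → Vx φ gs x i t = Vx φ gs x j t := by
        intro t ht
        unfold Vx
        rw [e0 t ht]
      have ha' : Act φ gs M x (⟨j, h9⟩ : Fin M) (⟨k0, h1⟩ : Dp φ gs M) := ha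
      obtain ⟨f1, f2, f3, f4⟩ := c0_act ha'
      have f5 := hF (Sum.inl (x, ⟨j, h9⟩, ⟨k0, h1⟩))
      rw [f1, f2, f3, f4] at f5
      simp only [ty0, h3] at f5
      obtain ⟨_, _, _, g1, g2⟩ := act_hom h9 (hx x) ha
      rw [h3] at g2
      have f6 := ih k0 h2 h1 (by omega)
      have f7 := Phi_tele F (wd φ gs i) j h2.le hk2 h6
      rw [f7, eV k le_rfl]
      rw [eV k0 h2.le] at f6
      have f8 : Phi φ gs M F (Vx φ gs x j k) = Phi φ gs M F (Vx φ gs x j k0) *
          ((F ((ow φ gs M x j k0 : ℤ) * LL φ gs M + (Vx φ gs x j k0).length))⁻¹ *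
            F ((ow φ gs M x j k0 : ℤ) * LL φ gs M + (Vx φ gs x j k0).length +
              (if fw φ gs x j k0 = true then ((k : ℤ) - k0) else -((k : ℤ) - k0)))) := by
        split_ifs at g2 ⊢ with hf
        · obtain ⟨g3, g4, g5⟩ := g2
          have g6 := Phi_tele F (wd φ gs (ow φ gs M x j k0)) (ow φ gs M x j k0)
            (Nat.le_add_right _ _) g4 g5
          have g7 := g3 k0 le_rfl h2.le
          rw [Nat.sub_self, Nat.add_zero] at g7
          rw [← g7, ← g3 k h2.le le_rfl] at g6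
          rw [g6]
          congr 3
          omega
        · obtain ⟨g3, g4, g4', g5⟩ := g2
          have g6 := Phi_tele F (wd φ gs (ow φ gs M x j k0)) (ow φ gs M x j k0)
            (Nat.sub_le _ _) g4' g5
          have g7 := g3 k0 le_rfl h2.le
          rw [Nat.sub_self, Nat.sub_zero] at g7
          rw [← g7, ← g3 k h2.le le_rfl] at g6
          rw [g6]
          have g8 : (ow φ gs M x j k0 : ℤ) * LL φ gs M + (Vx φ gs x j k0).length +
              -((k : ℤ) - k0) = (ow φ gs M x j k0 : ℤ) * LL φ gs M +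
              (((Vx φ gs x j k0).length - (k - k0) : ℕ) : ℤ) := by omega
          rw [g8]
          group
      rw [f8, f6, f5]
      group
  have := key _ (mem_Dp1 (len_mem hi)) le_rfl
  rw [List.take_length] at this
  rw [← this]
  congr 1
  unfold Vx wd
  rw [List.take_length, FreeGroup.mk_toWord, h, map_mul]

end phi

lemma paths {i : ℕ} (hi : i < M) :
    ∃ P : List (Nm (Io n M (Dp φ gs M)) × Nm (Io n M (Dp φ gs M))),
      (∀ y ∈ P, c0 φ gs M y.1 ≤ c0 φ gs M y.2) ∧
      (P.map (fun y => c0 φ gs M y.2 - c0 φ gs M y.1)).sum = (wd φ gs i).length ∧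
      P.length ≤ (Dp φ gs M).card ∧
      ∀ F : ℤ → FreeGroup ℕ, Phi φ gs M F (wd φ gs i) =
        (P.map (fun y => (F (c0 φ gs M y.1))⁻¹ * F (c0 φ gs M y.2))).prod := by
  have key : ∀ k, k ∈ Dp φ gs M → k ≤ (wd φ gs i).length →
      ∃ P : List (Nm (Io n M (Dp φ gs M)) × Nm (Io n M (Dp φ gs M))),
      (∀ y ∈ P, c0 φ gs M y.1 ≤ c0 φ gs M y.2) ∧
      (P.map (fun y => c0 φ gs M y.2 - c0 φ gs M y.1)).sum = k ∧
      P.length ≤ ((Dp φ gs M).filter (· < k)).card ∧
      ∀ F : ℤ → FreeGroup ℕ, Phi φ gs M F ((wd φ gs i).take k) =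
        (P.map (fun y => (F (c0 φ gs M y.1))⁻¹ * F (c0 φ gs M y.2))).prod := by
    intro k
    induction k using Nat.strong_induction_on with
    | _ k ih =>
      intro hk1 hk2
      rcases Nat.eq_zero_or_pos k with rfl | hk0
      · exact ⟨[], by simp, by simp, by simp, fun F => by simp [Phi]⟩
      obtain ⟨k0, h1, h2, h3⟩ := exists_prev hk1 hk0
      obtain ⟨h4, h5, h6⟩ := own_const (φ := φ) (gs := gs) hi (show k0 < _ by omega)
      obtain ⟨h7, h8, h9⟩ := own_spec (List.take_prefix (k0 + 1) (wd φ gs i)) hi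
      obtain ⟨j, hj⟩ : ∃ j, j = own φ gs M ((wd φ gs i).take (k0 + 1)) := ⟨_, rfl⟩
      rw [← hj] at h5 h6 h7 h8 h9
      rw [h3] at h5 h6
      obtain ⟨P, p1, p2, p3, p4⟩ := ih k0 h2 h1 (by omega)
      set mk : Io n M (Dp φ gs M) := Sum.inr (Sum.inl (⟨j, h9⟩, ⟨k0, h1⟩)) with hmk
      have e1 : c0 φ gs M (bg mk false) = (j : ℤ) * LL φ gs M + k0 := by simp [c0, bg, hmk]
      have e2 : c0 φ gs M (bg mk true) = (j : ℤ) * LL φ gs M + k := by simp [c0, bg, hmk, h3]
      refine ⟨P ++ [(bg mk false, bg mk true)], ?_, ?_, ?_, ?_⟩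
      · intro y hy
        rcases List.mem_append.1 hy with hy | hy
        · exact p1 y hy
        · rw [List.mem_singleton] at hy
          rw [hy, e1, e2]
          omega
      · rw [List.map_append, List.sum_append, p2]
        simp only [List.map_cons, List.map_nil, List.sum_cons, List.sum_nil, e1, e2]
        ring
      · have : insert k0 ((Dp φ gs M).filter (· < k0)) ⊆ (Dp φ gs M).filter (· < k) := by
          intro z hz
          rcases Finset.mem_insert.1 hz with rfl | hz
          · exact Finset.mem_filter.2 ⟨h1, h2⟩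
          · exact Finset.mem_filter.2 ⟨(Finset.mem_filter.1 hz).1,
              lt_trans (Finset.mem_filter.1 hz).2 h2⟩
        have h10 := Finset.card_le_card this
        rw [Finset.card_insert_of_notMem (by simp)] at h10
        rw [List.length_append, List.length_singleton]
        omega
      · intro F
        rw [Phi_tele F (wd φ gs i) j h2.le hk2 h6, p4 F, List.map_append, List.prod_append]
        simp only [List.map_cons, List.map_nil, List.prod_cons, List.prod_nil, mul_one, e1, e2]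
  obtain ⟨P, p1, p2, p3, p4⟩ := key _ (mem_Dp1 (len_mem hi)) le_rfl
  rw [List.take_length] at p4
  exact ⟨P, p1, p2, p3.trans (Finset.card_filter_le _ _), p4⟩

end Pool.Agent.H910Z.TE
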