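import Mathlib

set_option autoImplicit false
set_option linter.unusedSectionVars false
set_option linter.unusedSimpArgs false
set_option linter.unusedVariables false

/-! # Band systems on the integer line: definitions and the span argument -/

namespace Pool.Agent.H910Z.TE

/-- names of the marked points: two sentinels and the two ends of the two bases of every band -/
abbrev Nm (ι : Type) := Bool ⊕ (ι × Bool × Bool)

/-- directions of the bases -/
abbrev Dir (ι : Type) := ι → Bool → Bool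

section defs

variable {ι : Type}

def lo : Nm ι := Sum.inl false
def hi : Nm ι := Sum.inl true
def bg (b : ι) (s : Bool) : Nm ι := Sum.inr (b, s, false)
def fn (b : ι) (s : Bool) : Nm ι := Sum.inr (b, s, true)

/-- length of a base -/
def len (d : Dir ι) (c : Nm ι → ℤ) (b : ι) (s : Bool) : ℤ :=
  if d b s = true then c (fn b s) - c (bg b s) else c (bg b s) - c (fn b s)

/-- the position with parameter `k` of a base -/
def pos (d : Dir ι) (c : Nm ι → ℤ) (b : ι) (s : Bool) (k : ℤ) : ℤ :=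
  if d b s = true then c (bg b s) + k else c (bg b s) - 1 - k

/-- arbitrary labels of the edges can be integrated: the graph of positions is a forest -/
def LiftE (E : ι → ℤ → Prop) (p : ι → Bool → ℤ → ℤ) : Prop :=
  ∀ (Q : Type) [Group Q] (q : ι → Bool → ℤ → Q), ∃ g : ℤ → Q,
    ∀ b k, E b k → q b false k * g (p b false k) = q b true k * g (p b true k)

/-- the edges of a configuration -/
def Ed (d : Dir ι) (c : Nm ι → ℤ) (b : ι) (k : ℤ) : Prop := 0 ≤ k ∧ k < len d c b false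

structure Good (d : Dir ι) (c : Nm ι → ℤ) : Prop where
  lo_le : ∀ α, c lo ≤ c α
  le_hi : ∀ α, c α ≤ c hi
  len_nonneg : ∀ b, 0 ≤ len d c b false
  len_eq : ∀ b, len d c b true = len d c b false
  lift : LiftE (Ed d c) (pos d c)

/-- states: directions and a weak order type -/
abbrev St (ι : Type) := Dir ι × (Nm ι → Nm ι → Bool)

def Sol (s : St ι) (c : Nm ι → ℤ) : Prop :=
  (∀ α β, s.2 α β = true → c α ≤ c β) ∧ Good s.1 c

def typ (c : Nm ι → ℤ) : Nm ι → Nm ι → Bool := fun α β => decide (c α ≤ c β)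

def cst (c : Nm ι → ℤ) : Nm ι → ℚ := fun α => (c α : ℚ)

def size (c : Nm ι → ℤ) : ℤ := c hi - c lo

def Step (s s' : St ι) (M : (Nm ι → ℚ) →ₗ[ℚ] (Nm ι → ℚ)) : Prop :=
  ∀ c', Sol s' c' → ∃ c, Sol s c ∧ cst c = M (cst c') ∧ size c ≤ 2 * size c'

/-- span of the solutions of bounded size -/
noncomputable def SB (k : ℕ) (s : St ι) : Submodule ℚ (Nm ι → ℚ) :=
  Submodule.span ℚ {v | ∃ c, Sol s c ∧ size c ≤ 2 ^ k ∧ cst c = v}

noncomputable def V : ℕ → St ι → Submodule ℚ (Nm ι → ℚ)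
  | 0 => fun s => SB 0 s
  | k + 1 => fun s => V k s ⊔ ⨆ (x : St ι × ((Nm ι → ℚ) →ₗ[ℚ] (Nm ι → ℚ))) (_ : Step s x.1 x.2),
      (V k x.1).map x.2

lemma sol_typ {d : Dir ι} {c : Nm ι → ℤ} (h : Good d c) : Sol (d, typ c) c :=
  ⟨fun α β hαβ => by simpa [typ] using hαβ, h⟩

lemma SB_mono (k : ℕ) (s : St ι) : SB k s ≤ SB (k + 1) s := by
  apply Submodule.span_mono
  rintro v ⟨c, h1, h2, h3⟩
  refine ⟨c, h1, h2.trans ?_, h3⟩
  have : (0 : ℤ) < 2 ^ k := by positivity
  rw [pow_succ]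
  omega

lemma V_le_SB (k : ℕ) : ∀ s : St ι, V k s ≤ SB k s := by
  induction k with
  | zero => intro s; exact le_rfl
  | succ k ih =>
    intro s
    simp only [V]
    refine sup_le ((ih s).trans (SB_mono k s)) ?_
    refine iSup_le fun x => iSup_le fun hx => ?_
    refine (Submodule.map_mono (ih x.1)).trans ?_
    unfold SB
    rw [Submodule.map_span]
    apply Submodule.span_mono
    rintro v ⟨w, ⟨c', h1, h2, h3⟩, h4⟩
    obtain ⟨c, h5, h6, h7⟩ := hx c' h1
    refine ⟨c, h5, ?_, by rw [h6, h3, h4]⟩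
    rw [pow_succ]
    omega

lemma V_mono (k : ℕ) (s : St ι) : V k s ≤ V (k + 1) s := by
  simp only [V]
  exact le_sup_left

lemma V_mono' {k m : ℕ} (h : k ≤ m) (s : St ι) : V k s ≤ V m s := by
  induction h with
  | refl => exact le_rfl
  | step _ ih => exact ih.trans (V_mono _ s)

lemma V_stable {k : ℕ} (h : V (ι := ι) (k + 1) = V k) : V (ι := ι) (k + 2) = V (k + 1) := by
  funext s
  have h1 : V (k + 2) s = V (k + 1) s ⊔
      ⨆ (x : St ι × ((Nm ι → ℚ) →ₗ[ℚ] (Nm ι → ℚ))) (_ : Step s x.1 x.2),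
      (V (k + 1) x.1).map x.2 := rfl
  have h2 : V (k + 1) s = V k s ⊔
      ⨆ (x : St ι × ((Nm ι → ℚ) →ₗ[ℚ] (Nm ι → ℚ))) (_ : Step s x.1 x.2),
      (V k x.1).map x.2 := rfl
  rw [h1, h, ← h2, h]

lemma V_stable' {k : ℕ} (h : V (ι := ι) (k + 1) = V k) (m : ℕ) :
    V (ι := ι) (k + m + 1) = V (k + m) := by
  induction m with
  | zero => exact h
  | succ m ih => exact V_stable ih

variable [Fintype ι] [DecidableEq ι]

/-- the number of rounds after which the spans are stable -/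
def NN (ι : Type) [Fintype ι] [DecidableEq ι] : ℕ := Fintype.card (St ι) * Fintype.card (Nm ι)

noncomputable def rk (k : ℕ) : ℕ := ∑ s : St ι, Module.finrank ℚ (V k s)

lemma rk_le (k : ℕ) : rk (ι := ι) k ≤ NN ι := by
  unfold rk NN
  have : ∀ s : St ι, Module.finrank ℚ (V k s) ≤ Fintype.card (Nm ι) := by
    intro s
    have h := Submodule.finrank_le (V k s)
    rwa [Module.finrank_fintype_fun_eq_card] at h
  calc ∑ s : St ι, Module.finrank ℚ (V k s) ≤ ∑ _s : St ι, Fintype.card (Nm ι) :=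
        Finset.sum_le_sum fun s _ => this s
    _ = _ := by simp

lemma rk_lt {k : ℕ} (h : V (ι := ι) (k + 1) ≠ V k) : rk (ι := ι) k < rk (ι := ι) (k + 1) := by
  obtain ⟨s, hs⟩ := Function.ne_iff.1 h
  unfold rk
  apply Finset.sum_lt_sum
  · intro t _
    exact Submodule.finrank_mono (V_mono k t)
  · exact ⟨s, Finset.mem_univ _, Submodule.finrank_lt_finrank_of_lt
      (lt_of_le_of_ne (V_mono k s) (Ne.symm hs))⟩

lemma V_NN : V (ι := ι) (NN ι + 1) = V (NN ι) := by
  by_contra hne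
  have h1 : ∀ k, k ≤ NN ι → V (ι := ι) (k + 1) ≠ V k := by
    intro k hk h
    have := V_stable' h (NN ι - k)
    rw [show k + (NN ι - k) = NN ι by omega] at this
    exact hne this
  have h2 : ∀ k, k ≤ NN ι + 1 → k ≤ rk (ι := ι) k := by
    intro k
    induction k with
    | zero => intro _; exact Nat.zero_le _
    | succ k ih =>
      intro hk
      have := rk_lt (h1 k (by omega))
      have := ih (by omega)
      omega
  have := h2 (NN ι + 1) le_rfl
  have := rk_le (ι := ι) (NN ι + 1)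
  omega

/-- the configuration lies in the stable span of its own type -/
def PP (d : Dir ι) (c : Nm ι → ℤ) : Prop := cst c ∈ V (NN ι) (d, typ c)

lemma mem_of_step {s s' : St ι} {M : (Nm ι → ℚ) →ₗ[ℚ] (Nm ι → ℚ)} (h : Step s s' M)
    {v : Nm ι → ℚ} (hv : v ∈ V (NN ι) s') : M v ∈ V (NN ι) s := by
  rw [← V_NN]
  simp only [V]
  apply Submodule.mem_sup_right
  have : (V (NN ι) s').map M ≤ ⨆ (x : St ι × ((Nm ι → ℚ) →ₗ[ℚ] (Nm ι → ℚ)))
      (_ : Step s x.1 x.2), (V (NN ι) x.1).map x.2 :=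
    le_iSup₂_of_le (f := fun (x : St ι × ((Nm ι → ℚ) →ₗ[ℚ] (Nm ι → ℚ)))
      (_ : Step s x.1 x.2) => (V (NN ι) x.1).map x.2) (s', M) h le_rfl
  exact this (Submodule.mem_map_of_mem hv)

lemma mem_of_small {s : St ι} {c : Nm ι → ℤ} (h : Sol s c) (h1 : size c ≤ 1) :
    cst c ∈ V (NN ι) s := by
  apply V_mono' (Nat.zero_le _)
  exact Submodule.subset_span ⟨c, h, by simpa using h1, rfl⟩

/-- a functional that does not vanish on the configuration does not vanish on a small one -/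
lemma small_of_PP {d : Dir ι} {c : Nm ι → ℤ} (h : PP d c) (f : (Nm ι → ℚ) →ₗ[ℚ] ℚ)
    (hf : f (cst c) ≠ 0) :
    ∃ c', Sol (d, typ c) c' ∧ size c' ≤ 2 ^ NN ι ∧ f (cst c') ≠ 0 := by
  by_contra hcon
  push Not at hcon
  have h1 : SB (NN ι) (d, typ c) ≤ LinearMap.ker f := by
    unfold SB
    rw [Submodule.span_le]
    rintro v ⟨c', h2, h3, rfl⟩
    exact hcon c' h2 h3
  exact hf (h1 (V_le_SB _ _ h))

/-- the shape of all backward maps -/
def bk {R : Type} [AddCommGroup R] (a : Nm ι → Nm ι) (r : Nm ι → Bool) (n1 n2 n3 n4 : Nm ι)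
    (c : Nm ι → R) : Nm ι → R :=
  fun α => c (a α) + if r α = true then c n1 - c n2 - (c n3 - c n4) else 0

noncomputable def bkL (a : Nm ι → Nm ι) (r : Nm ι → Bool) (n1 n2 n3 n4 : Nm ι) :
    (Nm ι → ℚ) →ₗ[ℚ] (Nm ι → ℚ) where
  toFun := bk a r n1 n2 n3 n4
  map_add' x y := by
    funext α
    simp only [bk, Pi.add_apply]
    split_ifs <;> ring
  map_smul' m x := by
    funext α
    simp only [bk, Pi.smul_apply, smul_eq_mul, RingHom.id_apply]
    split_ifs <;> ring

lemma cst_bk (a : Nm ι → Nm ι) (r : Nm ι → Bool) (n1 n2 n3 n4 : Nm ι) (c : Nm ι → ℤ) :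
    cst (bk a r n1 n2 n3 n4 c) = bkL a r n1 n2 n3 n4 (cst c) := by
  funext α
  simp only [cst, bk, bkL, LinearMap.coe_mk, AddHom.coe_mk]
  split_ifs <;> push_cast <;> ring

lemma PP_of_bk {d d' : Dir ι} {c c' : Nm ι → ℤ} (a : Nm ι → Nm ι) (r : Nm ι → Bool)
    (n1 n2 n3 n4 : Nm ι) (R : Nm ι → Nm ι → Bool)
    (h : ∀ e, Sol (d', typ c') e → Sol (d, R) (bk a r n1 n2 n3 n4 e) ∧
      size (bk a r n1 n2 n3 n4 e) ≤ 2 * size e) (hP : PP d' c') :
    cst (bk a r n1 n2 n3 n4 c') ∈ V (NN ι) (d, R) := by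
  rw [cst_bk]
  refine mem_of_step (s' := (d', typ c')) ?_ hP
  intro e he
  exact ⟨_, (h e he).1, cst_bk _ _ _ _ _ _ _, (h e he).2⟩

end defs

end Pool.Agent.H910Z.TE
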