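import Pool.Agent.H910Z.TE.Mach1

set_option autoImplicit false
set_option linter.unusedSectionVars false
set_option linter.unusedSimpArgs false
set_option linter.unusedVariables false

/-! # Band systems: transfer of the forest property, and the moves N and S -/

namespace Pool.Agent.H910Z.TE

variable {ι : Type}

@[simp] lemma bg_eq_bg {b b' : ι} {s s' : Bool} : bg b s = bg b' s' ↔ b = b' ∧ s = s' := by
  simp [bg]
@[simp] lemma fn_eq_fn {b b' : ι} {s s' : Bool} : fn b s = fn b' s' ↔ b = b' ∧ s = s' := by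
  simp [fn]
@[simp] lemma bg_ne_fn {b b' : ι} {s s' : Bool} : (bg b s = fn b' s') = False := by simp [bg, fn]
@[simp] lemma fn_ne_bg {b b' : ι} {s s' : Bool} : (fn b s = bg b' s') = False := by simp [bg, fn]
@[simp] lemma lo_ne_bg {b : ι} {s : Bool} : (lo = bg b s) = False := by simp [bg, lo]
@[simp] lemma lo_ne_fn {b : ι} {s : Bool} : (lo = fn b s) = False := by simp [fn, lo]
@[simp] lemma hi_ne_bg {b : ι} {s : Bool} : (hi = bg b s) = False := by simp [bg, hi]
@[simp] lemma hi_ne_fn {b : ι} {s : Bool} : (hi = fn b s) = False := by simp [fn, hi]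
@[simp] lemma bg_ne_lo {b : ι} {s : Bool} : (bg b s = lo) = False := by simp [bg, lo]
@[simp] lemma fn_ne_lo {b : ι} {s : Bool} : (fn b s = lo) = False := by simp [fn, lo]
@[simp] lemma bg_ne_hi {b : ι} {s : Bool} : (bg b s = hi) = False := by simp [bg, hi]
@[simp] lemma fn_ne_hi {b : ι} {s : Bool} : (fn b s = hi) = False := by simp [fn, hi]
@[simp] lemma lo_ne_hi : ((lo : Nm ι) = hi) = False := by simp [lo, hi]
@[simp] lemma hi_ne_lo : ((hi : Nm ι) = lo) = False := by simp [lo, hi]

lemma nm_cases (α : Nm ι) : α = lo ∨ α = hi ∨ (∃ b s, α = bg b s) ∨ ∃ b s, α = fn b s := by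
  rcases α with x | ⟨b, s, e⟩
  · cases x
    · exact Or.inl rfl
    · exact Or.inr (Or.inl rfl)
  · cases e
    · exact Or.inr (Or.inr (Or.inl ⟨b, s, rfl⟩))
    · exact Or.inr (Or.inr (Or.inr ⟨b, s, rfl⟩))

lemma Good.len_side {d : Dir ι} {c : Nm ι → ℤ} (h : Good d c) (b : ι) (s : Bool) :
    len d c b s = len d c b false := by
  cases s
  · rfl
  · exact h.len_eq b

section lift

variable {E E' : ι → ℤ → Prop} {p p' : ι → Bool → ℤ → ℤ}

lemma LiftE.sym (h : LiftE E p) (Q : Type) [Group Q] (q : ι → Bool → ℤ → Q) :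
    ∃ g : ℤ → Q, ∀ b k s, E b k →
      q b s k * g (p b s k) = q b (!s) k * g (p b (!s) k) := by
  obtain ⟨g, hg⟩ := h Q q
  refine ⟨g, fun b k s hE => ?_⟩
  cases s
  · exact hg b k hE
  · exact (hg b k hE).symm

lemma eq_of_side {Q : Type} [Group Q] {q : Bool → Q} (s : Bool) (h : q s = q (!s)) :
    q false = q true := by
  cases s
  · exact h
  · exact h.symm

lemma LiftE.reindex (h : LiftE E p) (r : ι → ℤ → ι × ℤ)
    (hr : ∀ b' k', E' b' k' → ∃ b k, E b k ∧ r b k = (b', k') ∧ ∀ s, p' b' s k' = p b s k) :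
    LiftE E' p' := by
  intro Q _ q
  obtain ⟨g, hg⟩ := h Q (fun b s k => q (r b k).1 s (r b k).2)
  refine ⟨g, fun b' k' hE => ?_⟩
  obtain ⟨b, k, h1, h2, h3⟩ := hr b' k' hE
  have := hg b k h1
  simp only [h2] at this
  rw [h3, h3]
  exact this

lemma LiftE.slide [DecidableEq ι] (h : LiftE E p) (b1 b2 : ι) (hb : b1 ≠ b2) (σ s2 : Bool)
    (κ : ℤ → ℤ) (hE' : ∀ b k, E' b k → E b k) (hE : ∀ k, E' b2 k → E b1 (κ k))
    (hp1 : ∀ k, E' b2 k → p b2 s2 k = p b1 σ (κ k))
    (hp2 : ∀ k, E' b2 k → p' b2 s2 k = p b1 (!σ) (κ k))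
    (hp3 : ∀ b s k, ¬ (b = b2 ∧ s = s2) → p' b s k = p b s k) : LiftE E' p' := by
  intro Q _ q
  obtain ⟨g, hg⟩ := h.sym Q (fun b s k => if b = b2 ∧ s = s2 then
    q b2 s2 k * (q b1 (!σ) (κ k))⁻¹ * q b1 σ (κ k) else q b s k)
  refine ⟨g, fun b k hE1 => ?_⟩
  by_cases hbb : b = b2
  · subst hbb
    apply eq_of_side (q := fun s => q b s k * g (p' b s k)) s2
    have h1 := hg b k s2 (hE' b k hE1)
    have h2 := hg b1 (κ k) σ (hE k hE1)
    have h3 : ¬ ((!s2) = s2) := by cases s2 <;> simp
    simp only [hb, false_and, if_false, true_and, if_true, h3] at h1 h2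
    rw [hp2 k hE1, hp3 b (!s2) k (by simp), ← h1, hp1 k hE1, mul_assoc, mul_assoc, h2]
    group
  · have h1 := hg b k false (hE' b k hE1)
    simp only [hbb, false_and, if_false] at h1
    rw [hp3 b false k (by simp [hbb]), hp3 b true k (by simp [hbb])]
    exact h1

lemma LiftE.leaves (h : LiftE E' p') (ρ : ι → ℤ → ι × ℤ) (J : ℤ → Prop) (un idx : ℤ → ℤ)
    (b0 : ι) (σ : Bool)
    (hr : ∀ b k, E b k → (∃ b' k', E' b' k' ∧ ρ b' k' = (b, k) ∧
        ∀ s, ¬ J (p b s k) ∧ un (p b s k) = p' b' s k') ∨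
      (b = b0 ∧ J (p b0 σ k) ∧ ¬ J (p b0 (!σ) k) ∧ idx (p b0 σ k) = k)) : LiftE E p := by
  classical
  intro Q _ q
  obtain ⟨g, hg⟩ := h Q (fun b s k => q (ρ b k).1 s (ρ b k).2)
  refine ⟨fun t => if J t then (q b0 σ (idx t))⁻¹ * q b0 (!σ) (idx t) *
    g (un (p b0 (!σ) (idx t))) else g (un t), fun b k hE => ?_⟩
  rcases hr b k hE with ⟨b', k', h1, h2, h3⟩ | ⟨rfl, h1, h2, h3⟩
  · have := hg b' k' h1
    simp only [h2] at this
    simp only [(h3 false).1, (h3 true).1, if_false, (h3 false).2, (h3 true).2]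
    exact this
  · apply eq_of_side (q := fun s => q b s k * (if J (p b s k) then
      (q b σ (idx (p b s k)))⁻¹ * q b (!σ) (idx (p b s k)) *
      g (un (p b (!σ) (idx (p b s k)))) else g (un (p b s k)))) σ
    simp only [h1, h2, if_true, if_false, h3]
    group

end lift

variable [Fintype ι] [DecidableEq ι]

lemma bk_false (a : Nm ι → Nm ι) (e : Nm ι → ℤ) :
    bk a (fun _ => false) lo lo lo lo e = fun α => e (a α) := by
  funext α
  simp [bk]

lemma PP_of_comp {d d' : Dir ι} {c' : Nm ι → ℤ} (a : Nm ι → Nm ι) (R : Nm ι → Nm ι → Bool)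
    (ha1 : a lo = lo) (ha2 : a hi = hi)
    (hR : ∀ α β, R α β = true → c' (a α) ≤ c' (a β))
    (h : ∀ e, Sol (d', typ c') e → Good d (fun α => e (a α))) (hP : PP d' c') :
    cst (fun α => c' (a α)) ∈ V (NN ι) (d, R) := by
  rw [← bk_false]
  refine PP_of_bk (c := c') a _ lo lo lo lo R ?_ hP
  intro e he
  rw [bk_false]
  refine ⟨⟨fun α β hαβ => he.1 _ _ (by simpa [typ] using hR α β hαβ), h e he⟩, ?_⟩
  have h1 := he.2.lo_le hi
  simp only [size, ha1, ha2]
  omega

/-- move both ends of a base to the value `v` -/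
def setPair (c : Nm ι → ℤ) (b : ι) (s : Bool) (v : ℤ) : Nm ι → ℤ :=
  fun α => if α = bg b s ∨ α = fn b s then v else c α

lemma sol_le {d : Dir ι} {c e : Nm ι → ℤ} (he : Sol (d, typ c) e) {α β : Nm ι}
    (h : c α ≤ c β) : e α ≤ e β := he.1 α β (by simpa [typ] using h)

lemma sol_eq {d : Dir ι} {c e : Nm ι → ℤ} (he : Sol (d, typ c) e) {α β : Nm ι}
    (h : c α = c β) : e α = e β := le_antisymm (sol_le he h.le) (sol_le he h.ge)

lemma good_pair {d : Dir ι} {e : Nm ι → ℤ} (he : Good d e) (b : ι) (s : Bool)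
    (h0 : len d e b false = 0) (v : ℤ) (h1 : e lo ≤ v) (h2 : v ≤ e hi) :
    Good d (setPair e b s v) := by
  have hlen : ∀ b' s', len d (setPair e b s v) b' s' = len d e b' s' := by
    intro b' s'
    by_cases hb : b' = b ∧ s' = s
    · obtain ⟨rfl, rfl⟩ := hb
      rw [he.len_side, h0]
      simp [len, setPair]
    · simp [len, setPair, hb]
  refine ⟨?_, ?_, ?_, ?_, ?_⟩
  · intro α
    have := he.lo_le α
    simp only [setPair, lo_ne_bg, lo_ne_fn, or_self, if_false]
    split_ifs <;> omega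
  · intro α
    have := he.le_hi α
    simp only [setPair, hi_ne_bg, hi_ne_fn, or_self, if_false]
    split_ifs <;> omega
  · intro b'
    rw [hlen]
    exact he.len_nonneg b'
  · intro b'
    rw [hlen, hlen]
    exact he.len_eq b'
  · refine he.lift.reindex (fun b k => (b, k)) ?_
    intro b' k' hE
    unfold Ed at hE
    rw [hlen] at hE
    refine ⟨b', k', hE, rfl, fun s' => ?_⟩
    have hb : b' ≠ b := by
      rintro rfl
      omega
    simp [pos, setPair, hb]

lemma moveN {d : Dir ι} {c : Nm ι → ℤ} (hc : Good d c) (b : ι) (s : Bool)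
    (h0 : len d c b false = 0) (hP : PP d (setPair c b s (c lo))) : PP d c := by
  have ht : c (fn b s) = c (bg b s) := by
    have := hc.len_side b s
    unfold len at this h0
    split_ifs at this h0 <;> omega
  set t := c (bg b s) with htdef
  have key : ∀ L : Nm ι, ¬ (L = bg b s ∨ L = fn b s) →
      (∀ β, ¬ (β = bg b s ∨ β = fn b s) → (c β ≤ t → c β ≤ c L) ∧ (t ≤ c β → c L ≤ c β)) →
      cst (setPair c b s (c L)) ∈ V (NN ι) (d, typ c) := by
    intro L hL hβ
    have h1 : setPair c b s (c L) = fun α => setPair c b s (c lo)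
        (if α = bg b s ∨ α = fn b s then L else α) := by
      funext α
      by_cases hα : α = bg b s ∨ α = fn b s
      · simp only [setPair, hα, if_true, hL, if_false]
      · simp only [setPair, hα, if_false]
    rw [h1]
    refine PP_of_comp _ _ (by simp) (by simp) ?_ ?_ hP
    · intro α β hαβ
      have hαβ' : c α ≤ c β := by simpa [typ] using hαβ
      have hα' : (α = bg b s ∨ α = fn b s) → c α = t := by
        rintro (rfl | rfl)
        · rfl
        · exact ht
      have hβ' : (β = bg b s ∨ β = fn b s) → c β = t := by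
        rintro (rfl | rfl)
        · rfl
        · exact ht
      by_cases hα : α = bg b s ∨ α = fn b s <;> by_cases hβ2 : β = bg b s ∨ β = fn b s
      · simp only [setPair, hα, hβ2, if_true, le_refl]
      · simp only [setPair, hα, hβ2, if_true, if_false, hL]
        exact (hβ β hβ2).2 (by rw [← hα' hα]; exact hαβ')
      · simp only [setPair, hα, hβ2, if_true, if_false, hL]
        exact (hβ α hα).1 (by rw [← hβ' hβ2]; exact hαβ')
      · simp only [setPair, hα, hβ2, if_false]
        exact hαβ'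
    · intro e he
      have h2 : (fun α => e (if α = bg b s ∨ α = fn b s then L else α)) = setPair e b s (e L) := by
        funext α
        by_cases hα : α = bg b s ∨ α = fn b s
        · simp only [setPair, hα, if_true]
        · simp only [setPair, hα, if_false]
      rw [h2]
      refine good_pair he.2 b s ?_ _ (he.2.lo_le _) (he.2.le_hi _)
      rw [← he.2.len_side b s]
      have h3 : e (bg b s) = e (fn b s) := sol_eq he (by simp [setPair])
      simp only [len]
      split_ifs <;> omega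
  obtain ⟨L, hL1, hL2⟩ := Finset.exists_max_image (Finset.univ.filter
    (fun β : Nm ι => ¬ (β = bg b s ∨ β = fn b s) ∧ c β ≤ t)) c ⟨lo, by simpa using hc.lo_le _⟩
  obtain ⟨R, hR1, hR2⟩ := Finset.exists_min_image (Finset.univ.filter
    (fun β : Nm ι => ¬ (β = bg b s ∨ β = fn b s) ∧ t ≤ c β)) c ⟨hi, by simpa using hc.le_hi _⟩
  simp only [Finset.mem_filter, Finset.mem_univ, true_and] at hL1 hL2 hR1 hR2
  have hL := key L hL1.1 (fun β hβ => ⟨fun h => hL2 β ⟨hβ, h⟩, fun h => hL1.2.trans h⟩)
  have hR := key R hR1.1 (fun β hβ => ⟨fun h => h.trans hR1.2, fun h => hR2 β ⟨hβ, h⟩⟩)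
  unfold PP
  by_cases hLR : c L = c R
  · have : c = setPair c b s (c L) := by
      funext α
      have := hL1.2
      have := hR1.2
      simp only [setPair]
      split_ifs with hα
      · rcases hα with rfl | rfl <;> omega
      · rfl
    have h2 : cst c = cst (setPair c b s (c L)) := by rw [← this]
    rw [h2]
    exact hL
  · have hne : ((c R : ℚ) - c L) ≠ 0 := by
      rw [sub_ne_zero]
      exact_mod_cast Ne.symm hLR
    have : cst c = (((c R : ℚ) - t) / ((c R : ℚ) - c L)) • cst (setPair c b s (c L)) +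
        (((t : ℚ) - c L) / ((c R : ℚ) - c L)) • cst (setPair c b s (c R)) := by
      funext α
      simp only [cst, setPair, Pi.add_apply, Pi.smul_apply, smul_eq_mul]
      split_ifs with hα
      · have : c α = t := by
          rcases hα with rfl | rfl
          · rfl
          · exact ht
        rw [this]
        field_simp
        ring
      · field_simp
        ring
    rw [this]
    exact Submodule.add_mem _ (Submodule.smul_mem _ _ hL) (Submodule.smul_mem _ _ hR)

/-- all empty bands are moved to the left sentinel -/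
def nrm (d : Dir ι) (c : Nm ι → ℤ) (T : Finset (ι × Bool)) : Nm ι → ℤ
  | Sum.inl x => c (Sum.inl x)
  | Sum.inr (b, s, x) => if (b, s) ∈ T ∧ len d c b false = 0 then c lo else c (Sum.inr (b, s, x))

lemma nrm_bg (d : Dir ι) (c : Nm ι → ℤ) (T : Finset (ι × Bool)) (b : ι) (s : Bool) :
    nrm d c T (bg b s) = if (b, s) ∈ T ∧ len d c b false = 0 then c lo else c (bg b s) := rfl

lemma nrm_fn (d : Dir ι) (c : Nm ι → ℤ) (T : Finset (ι × Bool)) (b : ι) (s : Bool) :
    nrm d c T (fn b s) = if (b, s) ∈ T ∧ len d c b false = 0 then c lo else c (fn b s) := rfl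

lemma nrm_lo (d : Dir ι) (c : Nm ι → ℤ) (T : Finset (ι × Bool)) : nrm d c T lo = c lo := rfl

lemma nrm_len (d : Dir ι) {c : Nm ι → ℤ} (hc : Good d c) (T : Finset (ι × Bool)) (b : ι)
    (s : Bool) : len d (nrm d c T) b s = len d c b s := by
  have := hc.len_side b s
  by_cases h : (b, s) ∈ T ∧ len d c b false = 0
  · rw [this, h.2]
    rw [len, nrm_bg, nrm_fn, if_pos h, if_pos h]
    simp
  · rw [len, nrm_bg, nrm_fn, if_neg h, if_neg h, len]

lemma nrm_step (d : Dir ι) {c : Nm ι → ℤ} (hc : Good d c) (T : Finset (ι × Bool)) :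
    Good d (nrm d c T) ∧ (PP d (nrm d c T) → PP d c) := by
  induction T using Finset.induction_on with
  | empty =>
    have : nrm d c ∅ = c := by
      funext α
      rcases α with x | ⟨b, s, x⟩ <;> simp [nrm]
    rw [this]
    exact ⟨hc, id⟩
  | insert x T hx ih =>
    obtain ⟨b, s⟩ := x
    by_cases h0 : len d c b false = 0
    · have h1 : nrm d c (insert (b, s) T) = setPair (nrm d c T) b s (nrm d c T lo) := by
        funext α
        rcases α with x | ⟨b', s', x⟩
        · simp [nrm, setPair, bg, fn]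
        · by_cases hb : b' = b ∧ s' = s
          · obtain ⟨rfl, rfl⟩ := hb
            cases x <;> simp [nrm, setPair, bg, fn, h0, lo]
          · cases x <;> simp [nrm, setPair, bg, fn, hb, lo]
      have h2 : len d (nrm d c T) b false = 0 := by rw [nrm_len d hc, h0]
      rw [h1]
      exact ⟨good_pair ih.1 b s h2 _ le_rfl (ih.1.lo_le _),
        fun hP => ih.2 (moveN ih.1 b s h2 hP)⟩
    · have h1 : nrm d c (insert (b, s) T) = nrm d c T := by
        funext α
        rcases α with x | ⟨b', s', x⟩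
        · simp [nrm]
        · by_cases hb : b' = b
          · subst hb
            simp [nrm, h0]
          · simp [nrm, hb]
      rw [h1]
      exact ih

/-- the slid configuration -/
def slideC (d : Dir ι) (c : Nm ι → ℤ) (b1 : ι) (s1 : Bool) (b2 : ι) (s2 : Bool) : Nm ι → ℤ :=
  fun α => if α = bg b2 s2 then (if d b1 s1 = d b2 s2 then c (bg b1 (!s1)) else c (fn b1 (!s1)))
    else if α = fn b2 s2 then (if d b1 s1 = d b2 s2 then c (fn b1 (!s1)) else c (bg b1 (!s1)))
    else c α

def slideD (d : Dir ι) (b1 : ι) (s1 : Bool) (b2 : ι) (s2 : Bool) : Dir ι :=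
  fun b s => if b = b2 ∧ s = s2 then (if d b1 s1 = d b2 s2 then d b1 (!s1) else !(d b1 (!s1)))
    else d b s

/-- two bases are the same interval -/
def SameI (d : Dir ι) (c : Nm ι → ℤ) (b1 : ι) (s1 : Bool) (b2 : ι) (s2 : Bool) : Prop :=
  if d b1 s1 = d b2 s2 then c (bg b2 s2) = c (bg b1 s1) ∧ c (fn b2 s2) = c (fn b1 s1)
  else c (bg b2 s2) = c (fn b1 s1) ∧ c (fn b2 s2) = c (bg b1 s1)

lemma slide_good {d : Dir ι} {c : Nm ι → ℤ} (hc : Good d c) {b1 b2 : ι} (hb : b1 ≠ b2)
    (s1 s2 : Bool) (hs : SameI d c b1 s1 b2 s2) :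
    (∀ b s, len (slideD d b1 s1 b2 s2) (slideC d c b1 s1 b2 s2) b s = len d c b s) ∧
    Good (slideD d b1 s1 b2 s2) (slideC d c b1 s1 b2 s2) := by
  have h1 := hc.len_side b1 s1
  have h2 := hc.len_side b1 (!s1)
  have h3 := hc.len_side b2 s2
  have hlen : ∀ b s, len (slideD d b1 s1 b2 s2) (slideC d c b1 s1 b2 s2) b s = len d c b s := by
    intro b s
    by_cases h : b = b2 ∧ s = s2
    · obtain ⟨rfl, rfl⟩ := h
      rw [← h1] at h2
      simp only [len, slideD, slideC, SameI, and_self, if_true, fn_ne_bg, if_false] at h2 hs ⊢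
      cases hd1 : d b1 s1 <;> cases hd2 : d b s <;> cases hd3 : d b1 (!s1) <;>
        simp [hd1, hd2, hd3] at h2 hs ⊢ <;> omega
    · simp [len, slideD, slideC, h]
  refine ⟨hlen, ?_, ?_, ?_, ?_, ?_⟩
  · intro α
    simp only [slideC, lo_ne_bg, lo_ne_fn, if_false]
    split_ifs <;> exact hc.lo_le _
  · intro α
    simp only [slideC, hi_ne_bg, hi_ne_fn, if_false]
    split_ifs <;> exact hc.le_hi _
  · intro b
    rw [hlen]
    exact hc.len_nonneg b
  · intro b
    rw [hlen, hlen]
    exact hc.len_eq b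
  · have h4 : len d c b2 false = len d c b1 false := by
      rw [← h1, ← h3]
      simp only [len, SameI] at hs ⊢
      cases hd1 : d b1 s1 <;> cases hd2 : d b2 s2 <;> simp [hd1, hd2] at hs ⊢ <;> omega
    refine hc.lift.slide b1 b2 hb s1 s2
      (fun k => if d b1 s1 = d b2 s2 then k else len d c b1 false - 1 - k) ?_ ?_ ?_ ?_ ?_
    · intro b k h
      unfold Ed at h ⊢
      rwa [hlen] at h
    · intro k h
      unfold Ed at h ⊢
      rw [hlen] at h
      split_ifs <;> omega
    · intro k h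
      rw [← h1]
      simp only [pos, len, SameI] at hs ⊢
      cases hd1 : d b1 s1 <;> cases hd2 : d b2 s2 <;> simp [hd1, hd2] at hs ⊢ <;> omega
    · intro k h
      rw [← h2]
      simp only [pos, len, slideD, slideC, and_self, if_true]
      cases hd1 : d b1 s1 <;> cases hd2 : d b2 s2 <;> cases hd3 : d b1 (!s1) <;>
        simp <;> omega
    · intro b s k h
      simp [pos, slideD, slideC, h]

lemma moveS {d : Dir ι} {c : Nm ι → ℤ} (hc : Good d c) {b1 b2 : ι} (hb : b1 ≠ b2)
    (s1 s2 : Bool) (hs : SameI d c b1 s1 b2 s2)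
    (hP : PP (slideD d b1 s1 b2 s2) (slideC d c b1 s1 b2 s2)) : PP d c := by
  set a : Nm ι → Nm ι := fun α =>
    if α = bg b2 s2 then (if d b1 s1 = d b2 s2 then bg b1 s1 else fn b1 s1)
    else if α = fn b2 s2 then (if d b1 s1 = d b2 s2 then fn b1 s1 else bg b1 s1) else α with ha
  have hc' : c = fun α => slideC d c b1 s1 b2 s2 (a α) := by
    funext α
    simp only [ha, slideC, SameI] at hs ⊢
    by_cases h1 : α = bg b2 s2
    · subst h1
      by_cases hd : d b1 s1 = d b2 s2 <;> simp [hd, hb] at hs ⊢ <;> omega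
    · by_cases h2 : α = fn b2 s2
      · subst h2
        by_cases hd : d b1 s1 = d b2 s2 <;> simp [hd, hb] at hs ⊢ <;> omega
      · simp [h1, h2]
  unfold PP
  have h2 : cst c = cst (fun α => slideC d c b1 s1 b2 s2 (a α)) := by rw [← hc']
  rw [h2]
  refine PP_of_comp a _ (by simp [ha]) (by simp [ha]) ?_ ?_ hP
  · intro α β hαβ
    have h3 : c α ≤ c β := by simpa [typ] using hαβ
    have h4 : c α = slideC d c b1 s1 b2 s2 (a α) := congrFun hc' α
    have h5 : c β = slideC d c b1 s1 b2 s2 (a β) := congrFun hc' β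
    omega
  · intro e he
    have hs' : SameI (slideD d b1 s1 b2 s2) e b1 (!s1) b2 s2 := by
      have e1 : e (bg b2 s2) = e (if d b1 s1 = d b2 s2 then bg b1 (!s1) else fn b1 (!s1)) := by
        apply sol_eq he
        by_cases hd : d b1 s1 = d b2 s2 <;> simp [slideC, hd, hb]
      have e2 : e (fn b2 s2) = e (if d b1 s1 = d b2 s2 then fn b1 (!s1) else bg b1 (!s1)) := by
        apply sol_eq he
        by_cases hd : d b1 s1 = d b2 s2 <;> simp [slideC, hd, hb]
      by_cases hd : d b1 s1 = d b2 s2 <;> simp [SameI, slideD, hd, hb] at e1 e2 ⊢ <;>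
        exact ⟨e1, e2⟩
    have h3 := (slide_good he.2 hb (!s1) s2 hs').2
    have h4 : slideD (slideD d b1 s1 b2 s2) b1 (!s1) b2 s2 = d := by
      funext b s
      by_cases h : b = b2 ∧ s = s2
      · obtain ⟨rfl, rfl⟩ := h
        simp only [slideD, hb, false_and, if_false, and_self, if_true, Bool.not_not]
        cases d b1 s1 <;> cases d b s <;> cases d b1 (!s1) <;> simp
      · simp [slideD, h]
    have h5 : slideC (slideD d b1 s1 b2 s2) e b1 (!s1) b2 s2 = fun α => e (a α) := by
      funext α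
      simp only [slideC, slideD, ha, hb, false_and, if_false, and_self, if_true, Bool.not_not]
      by_cases h1 : α = bg b2 s2
      · simp only [h1, if_true]
        cases d b1 s1 <;> cases d b2 s2 <;> cases d b1 (!s1) <;> simp
      · by_cases h2 : α = fn b2 s2
        · simp only [h2, if_true, fn_ne_bg, if_false]
          cases d b1 s1 <;> cases d b2 s2 <;> cases d b1 (!s1) <;> simp
        · simp [h1, h2]
    rw [h4, h5] at h3
    exact h3

end Pool.Agent.H910Z.TE
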