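import Pool.Agent.H910Z.TE.Mach2

set_option autoImplicit false
set_option linter.unusedSectionVars false
set_option linter.unusedSimpArgs false
set_option linter.unusedVariables false

/-! # Band systems: the collapse move A -/

namespace Pool.Agent.H910Z.TE

variable {ι : Type} [Fintype ι] [DecidableEq ι]

def adv (x : Bool) (t k : ℤ) : ℤ := if x = true then t + k else t - k

def cutC (d : Dir ι) (c : Nm ι → ℤ) (b bs : ι) (k0 k1 : ℤ) : Nm ι → ℤ
  | Sum.inl x => c (Sum.inl x)
  | Sum.inr (b', σ, false) => if b' = bs then adv (d b σ) (c (bg b σ)) k1 else c (bg b' σ)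
  | Sum.inr (b', σ, true) => if b' = b then adv (d b σ) (c (bg b σ)) k0 else
      if b' = bs then c (fn b σ) else c (fn b' σ)

def cutD (d : Dir ι) (b bs : ι) : Dir ι := fun b' σ => if b' = bs then d b σ else d b' σ

section

variable (d : Dir ι) (c : Nm ι → ℤ) (b bs : ι) (k0 k1 : ℤ)

lemma cutC_lo : cutC d c b bs k0 k1 lo = c lo := rfl
lemma cutC_hi : cutC d c b bs k0 k1 hi = c hi := rfl
lemma cutC_bg (b' : ι) (σ : Bool) : cutC d c b bs k0 k1 (bg b' σ) =
    if b' = bs then adv (d b σ) (c (bg b σ)) k1 else c (bg b' σ) := rfl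
lemma cutC_fn (b' : ι) (σ : Bool) : cutC d c b bs k0 k1 (fn b' σ) =
    if b' = b then adv (d b σ) (c (bg b σ)) k0 else
      if b' = bs then c (fn b σ) else c (fn b' σ) := rfl

end

lemma cut_len {d : Dir ι} {c : Nm ι → ℤ} (hc : Good d c) {b bs : ι} (hb : b ≠ bs) (k0 k1 : ℤ)
    (b' : ι) (σ : Bool) : len (cutD d b bs) (cutC d c b bs k0 k1) b' σ =
      if b' = b then k0 else if b' = bs then len d c b false - k1 else len d c b' σ := by
  rw [← hc.len_side b σ]
  simp only [len, cutD, cutC_bg, cutC_fn, adv]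
  by_cases h1 : b' = b
  · subst h1
    simp only [hb, if_false, if_true]
    split_ifs <;> omega
  · by_cases h2 : b' = bs
    · subst h2
      simp only [h1, if_false, if_true]
      split_ifs <;> omega
    · simp only [h1, h2, if_false]

lemma cut_pos (d : Dir ι) (c : Nm ι → ℤ) (b bs : ι) (k0 k1 : ℤ)
    (b' : ι) (σ : Bool) (k : ℤ) : pos (cutD d b bs) (cutC d c b bs k0 k1) b' σ k =
      if b' = bs then pos d c b σ (k + k1) else pos d c b' σ k := by
  simp only [pos, cutD, cutC_bg, adv]
  by_cases h2 : b' = bs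
  · simp only [h2, if_true]
    split_ifs <;> omega
  · simp only [h2, if_false]

lemma cut_good {d : Dir ι} {c : Nm ι → ℤ} (hc : Good d c) {b bs : ι} (hb : b ≠ bs) {k0 k1 : ℤ}
    (h0 : 0 ≤ k0) (h1 : k0 ≤ k1) (h2 : k1 ≤ len d c b false) :
    Good (cutD d b bs) (cutC d c b bs k0 k1) := by
  have hadv : ∀ σ k, 0 ≤ k → k ≤ len d c b false →
      c lo ≤ adv (d b σ) (c (bg b σ)) k ∧ adv (d b σ) (c (bg b σ)) k ≤ c hi := by
    intro σ k hk1 hk2
    rw [← hc.len_side b σ] at hk2
    have := hc.lo_le (bg b σ)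
    have := hc.lo_le (fn b σ)
    have := hc.le_hi (bg b σ)
    have := hc.le_hi (fn b σ)
    simp only [adv, len] at hk2 ⊢
    split_ifs at hk2 ⊢ <;> omega
  have hall : ∀ α, c lo ≤ cutC d c b bs k0 k1 α ∧ cutC d c b bs k0 k1 α ≤ c hi := by
    intro α
    rcases nm_cases α with rfl | rfl | ⟨b', σ, rfl⟩ | ⟨b', σ, rfl⟩
    · exact ⟨hc.lo_le _, hc.le_hi _⟩
    · exact ⟨hc.lo_le _, hc.le_hi _⟩
    · rw [cutC_bg]
      split_ifs
      · exact hadv σ k1 (by omega) h2
      · exact ⟨hc.lo_le _, hc.le_hi _⟩
    · rw [cutC_fn]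
      split_ifs
      · exact hadv σ k0 h0 (by omega)
      · exact ⟨hc.lo_le _, hc.le_hi _⟩
      · exact ⟨hc.lo_le _, hc.le_hi _⟩
  refine ⟨fun α => (hall α).1, fun α => (hall α).2, ?_, ?_, ?_⟩
  · intro b'
    rw [cut_len hc hb]
    have := hc.len_nonneg b'
    split_ifs <;> omega
  · intro b'
    rw [cut_len hc hb, cut_len hc hb, hc.len_eq]
  · refine hc.lift.reindex (fun b' k => if b' = b ∧ k1 ≤ k then (bs, k - k1) else (b', k)) ?_
    intro b' k' hE
    unfold Ed at hE ⊢
    rw [cut_len hc hb] at hE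
    by_cases h3 : b' = bs
    · subst h3
      simp only [hb.symm, if_false, if_true] at hE
      refine ⟨b, k' + k1, ⟨by omega, by omega⟩, ?_, fun s => ?_⟩
      · have : k1 ≤ k' + k1 := by omega
        simp [this]
      · simp [cut_pos]
    · by_cases h4 : b' = b
      · subst h4
        simp only [if_true] at hE
        refine ⟨b', k', ⟨by omega, by omega⟩, ?_, fun s => ?_⟩
        · have : ¬ k1 ≤ k' := by omega
          simp [this]
        · simp [cut_pos, h3]
      · simp only [h3, h4, if_false] at hE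
        refine ⟨b', k', hE, ?_, fun s => ?_⟩
        · simp [h4]
        · simp [cut_pos, h3]

/-- the renaming used by the backward map of the collapse -/
def cutA (b bs : ι) : Nm ι → Nm ι
  | Sum.inl x => Sum.inl x
  | Sum.inr (b', σ, false) => if b' = bs then lo else bg b' σ
  | Sum.inr (b', σ, true) => if b' = bs then lo else if b' = b then fn bs σ else fn b' σ

lemma cutA_lo (b bs : ι) : cutA b bs lo = lo := rfl
lemma cutA_hi (b bs : ι) : cutA b bs hi = hi := rfl
lemma cutA_bg (b bs b' : ι) (σ : Bool) :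
    cutA b bs (bg b' σ) = if b' = bs then lo else bg b' σ := rfl
lemma cutA_fn (b bs b' : ι) (σ : Bool) :
    cutA b bs (fn b' σ) = if b' = bs then lo else if b' = b then fn bs σ else fn b' σ := rfl

lemma moveA {d : Dir ι} {c : Nm ι → ℤ} (hc : Good d c) {b bs : ι} (hb : b ≠ bs) {k0 k1 : ℤ}
    (h0 : 0 ≤ k0) (h1 : k0 < k1) (h2 : k1 ≤ len d c b false) (s : Bool) (j0 j1 : ℤ)
    (hj0 : j0 = if d b s = true then c (bg b s) + k0 else c (bg b s) - k1)
    (hj1 : j1 = if d b s = true then c (bg b s) + k1 else c (bg b s) - k0)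
    (hbs : ∀ σ, c (bg bs σ) = c lo ∧ c (fn bs σ) = c lo)
    (hLR : ∀ b' s', ¬ (b' = b ∧ s' = s) → (c (bg b' s') ≤ j0 ∧ c (fn b' s') ≤ j0) ∨
      (j1 ≤ c (bg b' s') ∧ j1 ≤ c (fn b' s')))
    (hP : PP (cutD d b bs) (cutC d c b bs k0 k1)) : PP d c := by
  set c' := cutC d c b bs k0 k1 with hc'
  set d' := cutD d b bs with hd'
  set pL : Nm ι := if d b s = true then fn b s else bg bs s with hpL
  set pR : Nm ι := if d b s = true then bg bs s else fn b s with hpR
  set n1 : Nm ι := if d b (!s) = true then bg bs (!s) else fn b (!s) with hn1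
  set n2 : Nm ι := if d b (!s) = true then fn b (!s) else bg bs (!s) with hn2
  set r : Nm ι → Bool := fun α => decide (j1 ≤ c α) with hr
  have hj : j0 < j1 := by
    rw [hj0, hj1]
    split_ifs <;> omega
  have vL : c' pL = j0 := by
    rw [hpL, hj0]
    split_ifs with h <;> simp [hc', cutC_bg, cutC_fn, adv, h]
  have vR : c' pR = j1 := by
    rw [hpR, hj1]
    split_ifs with h <;> simp [hc', cutC_bg, cutC_fn, adv, h]
  have vn : c' n1 - c' n2 = k1 - k0 := by
    rw [hn1, hn2]
    split_ifs with h <;> simp [hc', cutC_bg, cutC_fn, adv, h]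
  have va : ∀ α, c' (cutA b bs α) = c α := by
    intro α
    rcases nm_cases α with rfl | rfl | ⟨b', σ, rfl⟩ | ⟨b', σ, rfl⟩
    · rfl
    · rfl
    · rw [cutA_bg]
      split_ifs with h
      · rw [h, (hbs σ).1]
        rfl
      · simp [hc', cutC_bg, h]
    · rw [cutA_fn]
      split_ifs with h h'
      · rw [h, (hbs σ).2]
        rfl
      · simp [hc', cutC_fn, h', hb.symm]
      · simp [hc', cutC_fn, h, h']
  have hlen := hc.len_side b s
  have hside : ∀ α, c α ≤ j0 ∨ j1 ≤ c α := by
    intro α
    have := hc.lo_le (bg b s)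
    have := hc.lo_le (fn b s)
    have := hc.le_hi (bg b s)
    have := hc.le_hi (fn b s)
    rcases nm_cases α with rfl | rfl | ⟨b', σ, rfl⟩ | ⟨b', σ, rfl⟩
    · left
      rw [← hlen] at h2
      rw [hj0]
      simp only [len] at h2
      split_ifs at h2 ⊢ <;> omega
    · right
      rw [← hlen] at h2
      rw [hj1]
      simp only [len] at h2
      split_ifs at h2 ⊢ <;> omega
    · by_cases h : b' = b ∧ σ = s
      · obtain ⟨rfl, rfl⟩ := h
        rw [hj0, hj1]
        split_ifs <;> omega
      · have := hLR b' σ h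
        omega
    · by_cases h : b' = b ∧ σ = s
      · obtain ⟨rfl, rfl⟩ := h
        rw [← hlen] at h2
        rw [hj0, hj1]
        simp only [len] at h2
        split_ifs at h2 ⊢ <;> omega
      · have := hLR b' σ h
        omega
  have hcc : c = bk (cutA b bs) r n1 n2 pR pL c' := by
    funext α
    simp only [bk, va, vL, vR]
    have : j1 - j0 = k1 - k0 := by
      rw [hj0, hj1]
      split_ifs <;> omega
    split_ifs <;> omega
  unfold PP
  have hcc' : cst c = cst (bk (cutA b bs) r n1 n2 pR pL c') := by rw [← hcc]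
  rw [hcc']
  refine PP_of_bk (c := c) _ r n1 n2 pR pL _ ?_ hP
  intro e he
  set f := bk (cutA b bs) r n1 n2 pR pL e with hf
  obtain ⟨P, hPdef⟩ : ∃ P, P = e pL := ⟨_, rfl⟩
  obtain ⟨P2, hP2def⟩ : ∃ P, P = e pR := ⟨_, rfl⟩
  obtain ⟨D, hDdef⟩ : ∃ D, D = e n1 - e n2 := ⟨_, rfl⟩
  have hPP : P ≤ P2 := by
    rw [hPdef, hP2def]
    exact sol_le he (by omega)
  have hD : 0 ≤ D := by
    have := sol_le he (α := n2) (β := n1) (by omega)
    omega
  have hfL : ∀ α, c α ≤ j0 → f α = e (cutA b bs α) ∧ e (cutA b bs α) ≤ P := by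
    intro α hα
    have : ¬ j1 ≤ c α := by omega
    refine ⟨by simp [hf, bk, hr, this], ?_⟩
    rw [hPdef]
    exact sol_le he (by rw [va, vL]; exact hα)
  have hfR : ∀ α, j1 ≤ c α → f α = e (cutA b bs α) + (D - (P2 - P)) ∧ P2 ≤ e (cutA b bs α) := by
    intro α hα
    refine ⟨by simp [hf, bk, hr, hα, hPdef, hP2def, hDdef], ?_⟩
    rw [hP2def]
    exact sol_le he (by rw [va, vR]; exact hα)
  have hlo : f lo = e lo := by
    have := hc.lo_le (bg bs s)
    rcases hside lo with h | h
    · exact (hfL lo h).1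
    · have h3 := hc.lo_le (bg b s)
      have h4 := hc.lo_le (fn b s)
      rw [← hlen] at h2
      rw [hj1] at h
      simp only [len] at h2
      split_ifs at h2 h <;> omega
  have hhi : f hi = e hi + (D - (P2 - P)) := by
    rcases hside hi with h | h
    · have h3 := hc.le_hi (bg b s)
      have h4 := hc.le_hi (fn b s)
      rw [← hlen] at h2
      rw [hj0] at h
      simp only [len] at h2
      split_ifs at h2 h <;> omega
    · exact (hfR hi h).1
  have eP : e lo ≤ P := by rw [hPdef]; exact he.2.lo_le _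
  have eP2 : P2 ≤ e hi := by rw [hP2def]; exact he.2.le_hi _
  have eD : D ≤ e hi - e lo := by
    have := he.2.lo_le n2
    have := he.2.le_hi n1
    omega
  -- the bases other than the collapsed one
  have hbase : ∀ b' σ, ¬ (b' = b ∧ σ = s) →
      (f (bg b' σ) = e (cutA b bs (bg b' σ)) ∧ f (fn b' σ) = e (cutA b bs (fn b' σ)) ∧
        f (bg b' σ) ≤ P ∧ f (fn b' σ) ≤ P) ∨
      (f (bg b' σ) = e (cutA b bs (bg b' σ)) + (D - (P2 - P)) ∧
        f (fn b' σ) = e (cutA b bs (fn b' σ)) + (D - (P2 - P)) ∧
        P + D ≤ f (bg b' σ) ∧ P + D ≤ f (fn b' σ)) := by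
    intro b' σ h
    rcases hLR b' σ h with h3 | h3
    · have h4 := hfL _ h3.1
      have h5 := hfL _ h3.2
      left
      omega
    · have h4 := hfR _ h3.1
      have h5 := hfR _ h3.2
      right
      omega
  have hU : if d b s = true then
      f (bg b s) = e (bg b s) ∧ f (fn b s) = e (fn bs s) + (D - (P2 - P)) ∧
        P = e (fn b s) ∧ P2 = e (bg bs s)
      else f (bg b s) = e (bg b s) + (D - (P2 - P)) ∧ f (fn b s) = e (fn bs s) ∧
        P = e (bg bs s) ∧ P2 = e (fn b s) := by
    rw [← hlen] at h2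
    simp only [len] at h2
    split_ifs with h
    · rw [if_pos h] at h2 hj0 hj1 hpL hpR
      have h4 := (hfL (bg b s) (by omega)).1
      have h5 := (hfR (fn b s) (by omega)).1
      simp only [cutA_bg, cutA_fn, hb, if_false, if_true] at h4 h5
      rw [hpL] at hPdef
      rw [hpR] at hP2def
      exact ⟨h4, h5, hPdef, hP2def⟩
    · rw [if_neg h] at h2 hj0 hj1 hpL hpR
      have h4 := (hfR (bg b s) (by omega)).1
      have h5 := (hfL (fn b s) (by omega)).1
      simp only [cutA_bg, cutA_fn, hb, if_false, if_true] at h4 h5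
      rw [hpL] at hPdef
      rw [hpR] at hP2def
      exact ⟨h4, h5, hPdef, hP2def⟩
  have hV : D = if d b (!s) = true then e (bg bs (!s)) - e (fn b (!s))
      else e (fn b (!s)) - e (bg bs (!s)) := by
    rw [hDdef, hn1, hn2]
    split_ifs <;> rfl
  have hns : ¬ (b = b ∧ (!s) = s) := by cases s <;> simp
  have hVb := hbase b (!s) hns
  simp only [cutA_bg, cutA_fn, hb, if_false, if_true] at hVb
  obtain ⟨K0, hK0⟩ : ∃ K, K = len d' e b false := ⟨_, rfl⟩
  obtain ⟨K2, hK2⟩ : ∃ K, K = len d' e bs false := ⟨_, rfl⟩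
  have hK0n : 0 ≤ K0 := by rw [hK0]; exact he.2.len_nonneg b
  have hK2n : 0 ≤ K2 := by rw [hK2]; exact he.2.len_nonneg bs
  have hK0' : ∀ σ, K0 = if d b σ = true then e (fn b σ) - e (bg b σ)
      else e (bg b σ) - e (fn b σ) := by
    intro σ
    rw [hK0, ← he.2.len_side b σ]
    simp [len, hd', cutD, hb]
  have hK2' : ∀ σ, K2 = if d b σ = true then e (fn bs σ) - e (bg bs σ)
      else e (bg bs σ) - e (fn bs σ) := by
    intro σ
    rw [hK2, ← he.2.len_side bs σ]
    simp [len, hd', cutD]
  have hlenb : ∀ σ, len d f b σ = K0 + D + K2 := by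
    intro σ
    by_cases hσ : σ = s
    · subst hσ
      have h3 := hK0' σ
      have h4 := hK2' σ
      simp only [len]
      split_ifs at h3 h4 hU ⊢ <;> omega
    · have hσ' : σ = !s := by
        cases σ <;> cases s <;> simp at hσ ⊢
      subst hσ'
      have h3 := hK0' (!s)
      have h4 := hK2' (!s)
      simp only [len]
      split_ifs at h3 h4 hV ⊢ <;> omega
  have hlenbs : ∀ σ, len d f bs σ = 0 := by
    intro σ
    have h3 := hbase bs σ (fun h => hb h.1.symm)
    simp only [cutA_bg, cutA_fn, if_true] at h3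
    simp only [len]
    split_ifs <;> omega
  have hleno : ∀ b' σ, b' ≠ b → b' ≠ bs → len d f b' σ = len d' e b' σ := by
    intro b' σ h3 h4
    have h5 := hbase b' σ (fun h => h3 h.1)
    simp only [cutA_bg, cutA_fn, h3, h4, if_false] at h5
    simp only [len, hd', cutD, h4, if_false]
    split_ifs <;> omega
  refine ⟨⟨?_, ?_, ?_, ?_, ?_, ?_⟩, ?_⟩
  · intro α β hαβ
    have h3 : c α ≤ c β := by simpa [typ] using hαβ
    have h4 : e (cutA b bs α) ≤ e (cutA b bs β) := sol_le he (by rw [va, va]; exact h3)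
    rcases hside α with h5 | h5 <;> rcases hside β with h6 | h6
    · have := hfL α h5
      have := hfL β h6
      omega
    · have := hfL α h5
      have := hfR β h6
      omega
    · omega
    · have := hfR α h5
      have := hfR β h6
      omega
  · intro α
    have := he.2.lo_le (cutA b bs α)
    rcases hside α with h5 | h5
    · have := hfL α h5
      omega
    · have := hfR α h5
      omega
  · intro α
    have := he.2.le_hi (cutA b bs α)
    rcases hside α with h5 | h5
    · have := hfL α h5
      omega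
    · have := hfR α h5
      omega
  · intro b'
    show 0 ≤ len d f b' false
    by_cases h3 : b' = b
    · rw [h3, hlenb]
      omega
    · by_cases h4 : b' = bs
      · rw [h4, hlenbs]
      · rw [hleno b' false h3 h4]
        exact he.2.len_nonneg b'
  · intro b'
    show len d f b' true = len d f b' false
    by_cases h3 : b' = b
    · rw [h3, hlenb, hlenb]
    · by_cases h4 : b' = bs
      · rw [h4, hlenbs, hlenbs]
      · rw [hleno b' false h3 h4, hleno b' true h3 h4]
        exact he.2.len_eq b'
  · show LiftE (Ed d f) (pos d f)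
    refine he.2.lift.leaves (fun b' k' => if b' = bs then (b, k' + K0 + D) else (b', k'))
      (fun t => P ≤ t ∧ t < P + D) (fun t => if t < P then t else t - (D - (P2 - P)))
      (fun t => if d b s = true then t - f (bg b s) else f (bg b s) - 1 - t) b s ?_
    intro b' k hE
    unfold Ed at hE ⊢
    by_cases h4 : b' = bs
    · rw [h4, hlenbs] at hE
      omega
    by_cases h3 : b' = b
    · subst h3
      rw [hlenb] at hE
      have hs1 := hK0' s
      have hs2 := hK2' s
      have hs3 := hK0' (!s)
      have hs4 := hK2' (!s)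
      by_cases h5 : k < K0
      · left
        refine ⟨b', k, ⟨hE.1, by rw [← hK0]; exact h5⟩, by simp [h4], fun σ => ?_⟩
        by_cases hσ : σ = s
        · subst hσ
          simp only [pos, hd', cutD, h4, if_false]
          split_ifs at hs1 hs2 hU ⊢ <;> omega
        · have hσ' : σ = !s := by
            cases σ <;> cases s <;> simp at hσ ⊢
          subst hσ'
          simp only [pos, hd', cutD, h4, if_false]
          split_ifs at hs3 hs4 hV ⊢ <;> omega
      · by_cases h6 : k < K0 + D
        · right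
          refine ⟨rfl, ?_, ?_, ?_⟩
          · simp only [pos]
            split_ifs at hs1 hs2 hU ⊢ <;> omega
          · simp only [pos]
            split_ifs at hs3 hs4 hV ⊢ <;> omega
          · simp only [pos]
            split_ifs <;> omega
        · left
          refine ⟨bs, k - K0 - D, ⟨by omega, by rw [← hK2]; omega⟩, by simp; omega,
            fun σ => ?_⟩
          by_cases hσ : σ = s
          · subst hσ
            simp only [pos, hd', cutD, if_true]
            split_ifs at hs1 hs2 hU ⊢ <;> omega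
          · have hσ' : σ = !s := by
              cases σ <;> cases s <;> simp at hσ ⊢
            subst hσ'
            simp only [pos, hd', cutD, if_true]
            split_ifs at hs3 hs4 hV ⊢ <;> omega
    · left
      refine ⟨b', k, by rw [← hleno b' false h3 h4]; exact hE, by simp [h4], fun σ => ?_⟩
      have h5 := hbase b' σ (fun h => h3 h.1)
      have h6 : len d f b' σ = len d f b' false := by
        rw [hleno b' false h3 h4, hleno b' σ h3 h4]
        exact he.2.len_side b' σ
      rw [← h6] at hE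
      simp only [cutA_bg, cutA_fn, h3, h4, if_false] at h5
      simp only [pos, len, hd', cutD, h4, if_false] at hE ⊢
      split_ifs at hE ⊢ <;> omega
  · simp only [size]
    omega

end Pool.Agent.H910Z.TE
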