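import Pool.Agent.H910Z.TE.Mach3

set_option autoImplicit false
set_option linter.unusedSectionVars false
set_option linter.unusedSimpArgs false
set_option linter.unusedVariables false

/-! # Band systems: weights, the complexity invariant -/

namespace Pool.Agent.H910Z.TE

variable {ι : Type} [Fintype ι] [DecidableEq ι]

/-- the base covers the position -/
def cov (d : Dir ι) (c : Nm ι → ℤ) (β : ι × Bool) (t : ℤ) : Prop :=
  ∃ k, 0 ≤ k ∧ k < len d c β.1 false ∧ t = pos d c β.1 β.2 k

lemma cov_iff {d : Dir ι} {c : Nm ι → ℤ} (hc : Good d c) (b : ι) (s : Bool) (t : ℤ) :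
    cov d c (b, s) t ↔ if d b s = true then c (bg b s) ≤ t ∧ t < c (fn b s)
      else c (fn b s) ≤ t ∧ t < c (bg b s) := by
  unfold cov
  simp only
  rw [← hc.len_side b s]
  simp only [len, pos]
  split_ifs
  · constructor
    · rintro ⟨k, h1, h2, h3⟩
      omega
    · intro h
      exact ⟨t - c (bg b s), by omega, by omega, by omega⟩
  · constructor
    · rintro ⟨k, h1, h2, h3⟩
      omega
    · intro h
      exact ⟨c (bg b s) - 1 - t, by omega, by omega, by omega⟩

/-- the non-empty bases -/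
def NE (d : Dir ι) (c : Nm ι → ℤ) : Finset (ι × Bool) :=
  Finset.univ.filter (fun β => 0 < len d c β.1 false)

lemma mem_NE {d : Dir ι} {c : Nm ι → ℤ} {β : ι × Bool} : β ∈ NE d c ↔ 0 < len d c β.1 false := by
  simp [NE]

lemma cov.mem {d : Dir ι} {c : Nm ι → ℤ} {β : ι × Bool} {t : ℤ} (h : cov d c β t) :
    β ∈ NE d c := by
  obtain ⟨k, h1, h2, _⟩ := h
  rw [mem_NE]
  omega

def Inv (σ : ℕ) (d : Dir ι) (c : Nm ι → ℤ) : Prop :=
  (NE d c).card < 2 * Fintype.card ι ∧ ∃ (κ : ι × Bool → ℕ) (X : Finset (ι × Bool)),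
    X.card ≤ σ ∧ (∀ β β' t, cov d c β t → cov d c β' t → κ β = κ β') ∧
    ∀ n, ((NE d c).filter (fun β => κ β = n ∧ β ∉ X)).card ≤ 2

lemma Inv.shrink {σ : ℕ} {d d' : Dir ι} {c c' : Nm ι → ℤ} (h : Inv σ d c)
    (f : ι × Bool → ι × Bool) (hinj : Set.InjOn f (NE d' c'))
    (hmap : ∀ β ∈ NE d' c', f β ∈ NE d c) (hcov : ∀ β t, cov d' c' β t → cov d c (f β) t) :
    Inv σ d' c' := by
  obtain ⟨h1, κ, X, h2, h3, h4⟩ := h
  refine ⟨lt_of_le_of_lt (Finset.card_le_card_of_injOn f hmap hinj) h1, fun β => κ (f β),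
    (NE d' c').filter (fun β => f β ∈ X), ?_, ?_, ?_⟩
  · refine le_trans (Finset.card_le_card_of_injOn f ?_ ?_) h2
    · intro β hβ
      exact (Finset.mem_filter.1 hβ).2
    · exact hinj.mono (fun β hβ => (Finset.mem_filter.1 hβ).1)
  · intro β β' t h5 h6
    exact h3 _ _ t (hcov β t h5) (hcov β' t h6)
  · intro n
    refine le_trans (Finset.card_le_card_of_injOn f ?_ ?_) (h4 n)
    · intro β hβ
      have h5 := Finset.mem_filter.1 hβ
      refine Finset.mem_filter.2 ⟨hmap β h5.1, h5.2.1, fun h6 => h5.2.2 ?_⟩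
      exact Finset.mem_filter.2 ⟨h5.1, h6⟩
    · exact hinj.mono (fun β hβ => (Finset.mem_filter.1 hβ).1)

/-- the position with parameter `k` of the base is covered by no other base -/
def W1 (d : Dir ι) (c : Nm ι → ℤ) (β : ι × Bool) (k : ℤ) : Prop :=
  ∀ β', β' ≠ β → ¬ cov d c β' (pos d c β.1 β.2 k)

def Norm (d : Dir ι) (c : Nm ι → ℤ) : Prop :=
  ∀ b σ, len d c b false = 0 → c (bg b σ) = c lo ∧ c (fn b σ) = c lo

lemma sides_of_W1 {d : Dir ι} {c : Nm ι → ℤ} (hc : Good d c) (hN : Norm d c) {b : ι} {s : Bool}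
    {k0 k1 : ℤ} (h0 : 0 ≤ k0) (h1 : k0 < k1) (h2 : k1 ≤ len d c b false)
    (hW : ∀ k, k0 ≤ k → k < k1 → W1 d c (b, s) k) (j0 j1 : ℤ)
    (hj0 : j0 = if d b s = true then c (bg b s) + k0 else c (bg b s) - k1)
    (hj1 : j1 = if d b s = true then c (bg b s) + k1 else c (bg b s) - k0) :
    ∀ b' s', ¬ (b' = b ∧ s' = s) → (c (bg b' s') ≤ j0 ∧ c (fn b' s') ≤ j0) ∨
      (j1 ≤ c (bg b' s') ∧ j1 ≤ c (fn b' s')) := by
  intro b' s' hne
  have hne' : (b', s') ≠ (b, s) := by simpa using hne
  have hl := hc.len_side b s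
  have hl' := hc.len_side b' s'
  have hnn := hc.len_nonneg b'
  by_cases he : len d c b' false = 0
  · left
    have h3 := hN b' s' he
    have h4 := hc.lo_le (bg b s)
    have h5 := hc.lo_le (fn b s)
    rw [← hl] at h2
    simp only [len] at h2
    split_ifs at h2 hj0 <;> omega
  · by_contra hcon
    have key : ∀ t, j0 ≤ t → t < j1 → ¬ cov d c (b', s') t := by
      intro t ht1 ht2
      have h3 := hW (if d b s = true then t - c (bg b s) else c (bg b s) - 1 - t)
        (by split_ifs at hj0 hj1 ⊢ <;> omega) (by split_ifs at hj0 hj1 ⊢ <;> omega) _ hne'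
      have h4 : pos d c b s (if d b s = true then t - c (bg b s) else c (bg b s) - 1 - t) = t := by
        simp only [pos]
        split_ifs <;> omega
      simp only [h4] at h3
      exact h3
    have hj : j0 < j1 := by split_ifs at hj0 hj1 <;> omega
    rw [← hl'] at he hnn
    simp only [len] at he hnn
    apply key (max j0 (min (c (bg b' s')) (c (fn b' s')))) (by omega)
      (by split_ifs at he hnn <;> omega)
    rw [cov_iff hc]
    split_ifs at he hnn ⊢ <;> omega

lemma collapse {d : Dir ι} {c : Nm ι → ℤ} (hc : Good d c) (hN : Norm d c) {b bs : ι} {s : Bool}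
    {k0 k1 : ℤ} (h0 : 0 ≤ k0) (h1 : k0 < k1) (h2 : k1 ≤ len d c b false)
    (hbs : len d c bs false = 0) (hW : ∀ k, k0 ≤ k → k < k1 → W1 d c (b, s) k)
    (hP : PP (cutD d b bs) (cutC d c b bs k0 k1)) : PP d c := by
  have hb : b ≠ bs := by
    rintro rfl
    omega
  exact moveA hc hb h0 h1 h2 s _ _ rfl rfl (fun σ => hN bs σ hbs)
    (sides_of_W1 hc hN h0 h1 h2 hW _ _ rfl rfl) hP

/-- total length -/
def TL (d : Dir ι) (c : Nm ι → ℤ) : ℤ := ∑ b, len d c b false

lemma TL_cut {d : Dir ι} {c : Nm ι → ℤ} (hc : Good d c) {b bs : ι} (hb : b ≠ bs) (k0 k1 : ℤ)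
    (hbs : len d c bs false = 0) :
    TL (cutD d b bs) (cutC d c b bs k0 k1) = TL d c - (k1 - k0) := by
  unfold TL
  have : ∀ b', len (cutD d b bs) (cutC d c b bs k0 k1) b' false = len d c b' false +
      (if b' = b then k0 - len d c b false else 0) +
      (if b' = bs then len d c b false - k1 else 0) := by
    intro b'
    rw [cut_len hc hb]
    by_cases h1 : b' = b
    · subst h1
      simp [hb]
    · by_cases h2 : b' = bs
      · subst h2
        simp [h1, hbs]
      · simp [h1, h2]
  simp only [this, Finset.sum_add_distrib, Finset.sum_ite_eq', Finset.mem_univ, if_true]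
  ring

lemma cut_cov {d : Dir ι} {c : Nm ι → ℤ} (hc : Good d c) {b bs : ι} (hb : b ≠ bs) {k0 k1 : ℤ}
    (h0 : 0 ≤ k0) (h1 : k0 ≤ k1) (h2 : k1 ≤ len d c b false) (β : ι × Bool) (t : ℤ)
    (h : cov (cutD d b bs) (cutC d c b bs k0 k1) β t) :
    cov d c (if β.1 = bs then (b, β.2) else β) t := by
  obtain ⟨b', σ⟩ := β
  obtain ⟨k, h3, h4, h5⟩ := h
  simp only [cut_len hc hb, cut_pos] at h4 h5
  by_cases h6 : b' = bs
  · subst h6
    simp only [hb.symm, if_false, if_true] at h4 h5 ⊢
    exact ⟨k + k1, by omega, by simp only; omega, h5⟩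
  · simp only [h6, if_false] at h4 h5 ⊢
    refine ⟨k, h3, ?_, h5⟩
    simp only
    split_ifs at h4 with h7
    · rw [h7]
      omega
    · exact h4

lemma inv_cut_end {σ : ℕ} {d : Dir ι} {c : Nm ι → ℤ} (hc : Good d c) {b bs : ι} (hb : b ≠ bs)
    {k0 k1 : ℤ} (h0 : 0 ≤ k0) (h1 : k0 ≤ k1) (h2 : k1 ≤ len d c b false)
    (he : k0 = 0 ∨ k1 = len d c b false) (h : Inv σ d c) :
    Inv σ (cutD d b bs) (cutC d c b bs k0 k1) := by
  refine h.shrink (fun β => if β.1 = bs then (b, β.2) else β) ?_ ?_ (cut_cov hc hb h0 h1 h2)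
  · rintro ⟨b1, s1⟩ h3 ⟨b2, s2⟩ h4 h5
    have h3' := mem_NE.1 h3
    have h4' := mem_NE.1 h4
    rw [cut_len hc hb] at h3' h4'
    simp only at h3' h4' h5
    by_cases h6 : b1 = bs <;> by_cases h7 : b2 = bs
    · simp only [h6, h7, if_true, Prod.mk.injEq, true_and] at h5 ⊢
      exact h5
    · simp only [h6, h7, if_true, if_false, Prod.mk.injEq, hb.symm] at h5 h3' h4'
      simp only [← h5.1, if_true] at h4'
      omega
    · simp only [h6, h7, if_true, if_false, Prod.mk.injEq, hb.symm] at h5 h3' h4'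
      simp only [h5.1, if_true] at h3'
      omega
    · simpa only [h6, h7, if_false] using h5
  · rintro ⟨b1, s1⟩ h3
    rw [mem_NE] at h3 ⊢
    rw [cut_len hc hb] at h3
    simp only at h3 ⊢
    by_cases h6 : b1 = bs
    · simp only [h6, if_true, hb.symm, if_false] at h3 ⊢
      omega
    · simp only [h6, if_false] at h3 ⊢
      split_ifs at h3 with h7
      · rw [h7]
        omega
      · exact h3

lemma head_of_norm_le {α : Type} [DecidableEq α] (a : α × Bool) (w : FreeGroup α)
    (h : (FreeGroup.mk [a] * w).norm ≤ w.norm) : w.toWord.head? = some (a.1, !a.2) := by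
  unfold FreeGroup.norm at h
  rw [FreeGroup.toWord_mul, FreeGroup.toWord_mk, FreeGroup.reduce_singleton, List.singleton_append,
    FreeGroup.reduce.cons, FreeGroup.reduce_toWord] at h
  cases hw : w.toWord with
  | nil => simp [hw] at h
  | cons x l =>
    rw [hw] at h
    simp only at h
    split_ifs at h with h1
    · obtain ⟨x1, x2⟩ := x
      obtain ⟨a1, a2⟩ := a
      simp only at h1
      simp [h1.1, h1.2]
    · simp at h

lemma exists_W1 {d : Dir ι} {c : Nm ι → ℤ} (hc : Good d c) (hne : (NE d c).Nonempty) :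
    ∃ β k, 0 ≤ k ∧ k < len d c β.1 false ∧ W1 d c β k := by
  classical
  obtain ⟨g, hg⟩ := hc.lift (FreeGroup (ι × ℤ))
    (fun b s k => if s = true then 1 else FreeGroup.of (b, k))
  have hfin : ∀ β t, cov d c β t → t ∈ Finset.Ico (c lo) (c hi) := by
    rintro ⟨b, s⟩ t h
    rw [cov_iff hc] at h
    have := hc.lo_le (bg b s)
    have := hc.lo_le (fn b s)
    have := hc.le_hi (bg b s)
    have := hc.le_hi (fn b s)
    rw [Finset.mem_Ico]
    split_ifs at h <;> omega
  obtain ⟨β0, hβ0⟩ := hne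
  have hc0 : cov d c β0 (pos d c β0.1 β0.2 0) := ⟨0, le_rfl, mem_NE.1 hβ0, rfl⟩
  obtain ⟨t, ht1, ht2⟩ := Finset.exists_max_image
    ((Finset.Ico (c lo) (c hi)).filter (fun t => ∃ β, cov d c β t)) (fun t => (g t).norm)
    ⟨_, Finset.mem_filter.2 ⟨hfin _ _ hc0, β0, hc0⟩⟩
  have key : ∀ b s k, 0 ≤ k → k < len d c b false → t = pos d c b s k →
      (g t).toWord.head? = some ((b, k), s) := by
    intro b s k h1 h2 h3
    have h4 := hg b k ⟨h1, h2⟩
    have h5 : cov d c (b, !s) (pos d c b (!s) k) := ⟨k, h1, h2, rfl⟩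
    have h6 := ht2 _ (Finset.mem_filter.2 ⟨hfin _ _ h5, _, h5⟩)
    have h7 : g (pos d c b (!s) k) = FreeGroup.mk [((b, k), !s)] * g t := by
      rw [h3]
      cases s
      · simp only [if_true, one_mul, Bool.false_eq_true, if_false] at h4
        exact h4.symm
      · simp only [if_true, one_mul, Bool.false_eq_true, if_false] at h4
        simp only [Bool.not_true]
        rw [← h4, ← mul_assoc]
        have : FreeGroup.mk [((b, k), false)] = (FreeGroup.of (b, k))⁻¹ := rfl
        rw [this]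
        simp
    rw [h7] at h6
    simpa using head_of_norm_le _ _ h6
  obtain ⟨β, k, h1, h2, h3⟩ := (Finset.mem_filter.1 ht1).2
  refine ⟨β, k, h1, h2, ?_⟩
  rintro β' hβ' ⟨k', h4, h5, h6⟩
  have h7 := key β.1 β.2 k h1 h2 h3
  have h8 := key β'.1 β'.2 k' h4 h5 (h3.trans h6)
  rw [h7] at h8
  simp only [Option.some.injEq, Prod.mk.injEq] at h8
  exact hβ' (Prod.ext h8.1.1.symm h8.2.symm)

lemma not_same {d : Dir ι} {c : Nm ι → ℤ} (hc : Good d c) {b : ι} (h0 : 0 < len d c b false)
    (hs : SameI d c b false b true) : False := by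
  obtain ⟨g, hg⟩ := hc.lift (Multiplicative ℤ)
    (fun b s k => if s = true then 1 else Multiplicative.ofAdd 1)
  have h1 := hg b 0 ⟨le_rfl, h0⟩
  have h2 := hg b (len d c b false - 1) ⟨by omega, by omega⟩
  simp only [if_true, one_mul, Bool.false_eq_true, if_false] at h1 h2
  have h3 := congrArg Multiplicative.toAdd h1
  have h4 := congrArg Multiplicative.toAdd h2
  simp only [toAdd_mul, toAdd_ofAdd] at h3 h4
  unfold SameI at hs
  split_ifs at hs with h5
  · have : pos d c b true 0 = pos d c b false 0 := by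
      simp only [pos, h5, hs.1]
    rw [this] at h3
    omega
  · have e1 : pos d c b true 0 = pos d c b false (len d c b false - 1) := by
      simp only [pos, len]
      cases h6 : d b false <;> cases h7 : d b true <;> simp [h6, h7] at h5 ⊢ <;> omega
    have e2 : pos d c b true (len d c b false - 1) = pos d c b false 0 := by
      simp only [pos, len]
      cases h6 : d b false <;> cases h7 : d b true <;> simp [h6, h7] at h5 ⊢ <;> omega
    rw [e1] at h3
    rw [e2] at h4
    omega

lemma terminal {d : Dir ι} {c : Nm ι → ℤ} (hc : Good d c) (hN : Norm d c)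
    (he : ∀ b, len d c b false = 0) : PP d c := by
  have hval : ∀ α, α ≠ hi → c α = c lo := by
    intro α hα
    rcases nm_cases α with rfl | rfl | ⟨b', σ, rfl⟩ | ⟨b', σ, rfl⟩
    · rfl
    · exact absurd rfl hα
    · exact (hN b' σ (he b')).1
    · exact (hN b' σ (he b')).2
  have hgood : ∀ x y : ℤ, x ≤ y → Good d (fun α : Nm ι => if α = hi then y else x) := by
    intro x y hxy
    have hl : ∀ b s, len d (fun α : Nm ι => if α = hi then y else x) b s = 0 := by
      intro b s
      simp [len]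
    refine ⟨?_, ?_, ?_, ?_, ?_⟩
    · intro α
      simp only [lo_ne_hi, if_false]
      split_ifs <;> omega
    · intro α
      simp only [if_true]
      split_ifs <;> omega
    · intro b
      rw [hl]
    · intro b
      rw [hl, hl]
    · intro Q _ q
      refine ⟨fun _ => 1, fun b k hE => ?_⟩
      unfold Ed at hE
      rw [hl] at hE
      omega
  have h1 : cst (fun α : Nm ι => if α = hi then (1 : ℤ) else 1) ∈ V (NN ι) (d, typ c) := by
    refine mem_of_small ⟨fun α β _ => by simp, hgood 1 1 le_rfl⟩ (by simp [size])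
  unfold PP
  by_cases hh : c hi = c lo
  · have : cst c = (c lo : ℚ) • cst (fun α : Nm ι => if α = hi then (1 : ℤ) else 1) := by
      funext α
      by_cases hα : α = hi
      · simp [cst, hα, hh]
      · simp [cst, hα, hval α hα]
    rw [this]
    exact Submodule.smul_mem _ _ h1
  · have h2 : cst (fun α : Nm ι => if α = hi then (1 : ℤ) else 0) ∈ V (NN ι) (d, typ c) := by
      refine mem_of_small ⟨fun α β hαβ => ?_, hgood 0 1 (by omega)⟩ (by simp [size])
      have h3 : c α ≤ c β := by simpa [typ] using hαβ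
      by_cases hα : α = hi <;> by_cases hβ : β = hi
      · simp [hα, hβ]
      · have := hval β hβ
        have := hc.lo_le hi
        rw [hα] at h3
        omega
      · simp [hα, hβ]
      · simp [hα, hβ]
    have : cst c = (c lo : ℚ) • cst (fun α : Nm ι => if α = hi then (1 : ℤ) else 1) +
        ((c hi : ℚ) - c lo) • cst (fun α : Nm ι => if α = hi then (1 : ℤ) else 0) := by
      funext α
      by_cases hα : α = hi
      · simp [cst, hα]
      · simp [cst, hα, hval α hα]
    rw [this]
    exact Submodule.add_mem _ (Submodule.smul_mem _ _ h1) (Submodule.smul_mem _ _ h2)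

end Pool.Agent.H910Z.TE
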