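import Pool.Agent.H910Z.TE.Words1

set_option autoImplicit false
set_option linter.unusedSectionVars false
set_option linter.unusedSimpArgs false
set_option linter.unusedVariables false

/-! # From automorphisms to injective homomorphisms -/

namespace Pool.Agent.H910Z.TE

open Pool.Agent.Helper156.OF

section nielsen

variable {α β : Type} [DecidableEq α] [DecidableEq β]

/-- the middle of every image of a letter survives -/
def Mid (v : Lt α → FreeGroup β) : Prop :=
  ∀ a b d, b ≠ nv a → d ≠ nv b → cc (v a) (v b) + cc (v b) (v d) < (v b).norm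

lemma Mid.chain {v : Lt α → FreeGroup β} (h : Mid v) (l : List (Lt α)) :
    ∀ a e : Lt α, FreeGroup.IsReduced (e :: a :: l) →
      cc (v e) ((a :: l).map v).prod = cc (v e) (v a) := by
  induction l with
  | nil =>
    intro a e hr
    simp
  | cons b l ih =>
    intro a e hr
    obtain ⟨hea, hr2⟩ := ne_nv_of_red hr
    obtain ⟨hab, _⟩ := ne_nv_of_red hr2
    have h1 := ih b a hr2
    set W := ((b :: l).map v).prod with hW
    have hV : ((a :: b :: l).map v).prod = v a * W := by
      rw [List.map_cons, List.prod_cons]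
    rw [hV]
    have h3 : gp (v a) (v a * W) + cc (v a) W = (v a).norm := gp_mul _ _
    have h5 := h e a b hea hab
    have h6 : cc (v e) (v a) < gp (v a) (v a * W) := by omega
    have h8 := gp_ultra (v e)⁻¹ (v a) (v a * W)
    have h9 := gp_ultra (v e)⁻¹ (v a * W) (v a)
    rw [gp_comm (v a * W) (v a)] at h9
    have h10 : gp (v e)⁻¹ (v a) = cc (v e) (v a) := rfl
    have h11 : gp (v e)⁻¹ (v a * W) = cc (v e) (v a * W) := rfl
    rw [h10, h11] at h8 h9
    omega

lemma hom_mk (φ : FreeGroup α →* FreeGroup β) (l : List (Lt α)) :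
    φ (FreeGroup.mk l) = (l.map (fun a => φ (gl a))).prod := by
  induction l with
  | nil =>
    simp only [List.map_nil, List.prod_nil]
    exact map_one φ
  | cons a l ih => rw [mk_cons, map_mul, ih, List.map_cons, List.prod_cons]

lemma tau_mid (φ : FreeGroup α →* FreeGroup β) (h : Mid (fun a => φ (gl a))) (t : FreeGroup α) :
    tau (φ t) = Lam (fun a b => ((φ (gl a)).norm : ℤ) - 2 * cc (φ (gl a)) (φ (gl b))) t := by
  refine tau_local φ _ (fun _ => 0) (fun a => (φ (gl a)).norm) ?_ t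
  intro a l hr
  rw [hom_mk]
  induction l generalizing a with
  | nil => simp [ps]
  | cons b l ih =>
    have h1 := ih b (ne_nv_of_red hr).2
    have h2 := h.chain l b a hr
    have h3 := norm_mul_cc (φ (gl a)) ((b :: l).map (fun a => φ (gl a))).prod
    rw [List.map_cons, List.prod_cons]
    simp only [ps, List.getLastD_cons] at h1 h2 ⊢
    omega

lemma sum_move' [Fintype α] (f : FreeGroup β → ℕ) (φ : FreeGroup α →* FreeGroup β) (a b : Lt α)
    (hab : a.1 ≠ b.1) :
    (∑ y : Lt α, f (φ (eAut a b (gl y)))) + (f (φ (gl a)) + f (φ (gl a))⁻¹) =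
      (∑ y : Lt α, f (φ (gl y))) + (f (φ (gl a) * φ (gl b)) + f (φ (gl a) * φ (gl b))⁻¹) := by
  classical
  have hne : nv a ≠ a := nv_ne a
  have hmem1 : a ∈ (Finset.univ : Finset (Lt α)) := Finset.mem_univ _
  have hmem2 : nv a ∈ (Finset.univ : Finset (Lt α)).erase a := by simp [hne]
  have key : ∀ F : Lt α → ℕ, ∑ y : Lt α, F y =
      F a + (F (nv a) + ∑ y ∈ ((Finset.univ : Finset (Lt α)).erase a).erase (nv a), F y) := by
    intro F
    rw [Finset.add_sum_erase _ F hmem2, Finset.add_sum_erase _ F hmem1]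
  rw [key (fun y => f (φ (eAut a b (gl y)))), key (fun y => f (φ (gl y)))]
  have h1 : φ (eAut a b (gl a)) = φ (gl a) * φ (gl b) := by
    rw [eAut_gl]
    unfold eFun
    simp [hab]
  have h2 : φ (eAut a b (gl (nv a))) = (φ (gl a) * φ (gl b))⁻¹ := by
    rw [gl_nv, map_inv, map_inv, h1]
  have h3 : φ (gl (nv a)) = (φ (gl a))⁻¹ := by rw [gl_nv, map_inv]
  have h4 : ∑ y ∈ ((Finset.univ : Finset (Lt α)).erase a).erase (nv a),
      f (φ (eAut a b (gl y))) =
      ∑ y ∈ ((Finset.univ : Finset (Lt α)).erase a).erase (nv a), f (φ (gl y)) := by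
    apply Finset.sum_congr rfl
    intro y hy
    rw [Finset.mem_erase, Finset.mem_erase] at hy
    rw [eAut_gl]
    unfold eFun
    simp [hab, hy.1, hy.2.1]
  simp only [h1, h2, h3, h4]
  ring

variable [Fintype α] [Fintype β]

noncomputable def mT' (φ : FreeGroup α →* FreeGroup β) : ℕ := ∑ y : Lt α, (φ (gl y)).norm

noncomputable def mR' (φ : FreeGroup α →* FreeGroup β) : ℕ := ∑ y : Lt α, hv (φ (gl y))

theorem mid_of_min (φ : FreeGroup α →* FreeGroup β) (hφ : Function.Injective φ)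
    (hmin : ∀ a b : Lt α, a.1 ≠ b.1 → mT' φ ≤ mT' (φ.comp (eAut a b).toMonoidHom) ∧
      (mT' (φ.comp (eAut a b).toMonoidHom) = mT' φ →
        mR' φ ≤ mR' (φ.comp (eAut a b).toMonoidHom))) :
    Mid (fun a : Lt α => φ (gl a)) := by
  have hinv : ∀ a : Lt α, φ (gl (nv a)) = (φ (gl a))⁻¹ := fun a => by rw [gl_nv, map_inv]
  have hne : ∀ a : Lt α, φ (gl a) ≠ 1 := by
    intro a h
    have h5 : gl a = 1 := hφ (by rw [h, map_one])
    have h6 := (norm_eq_one_iff (gl a)).2 ⟨a, rfl⟩
    rw [h5, FreeGroup.norm_one] at h6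
    omega
  have hcomp : ∀ a b y : Lt α, (φ.comp (eAut a b).toMonoidHom) (gl y) = φ (eAut a b (gl y)) :=
    fun _ _ _ => rfl
  have hT : ∀ a b : Lt α, a.1 ≠ b.1 → (φ (gl a)).norm ≤ (φ (gl a) * φ (gl b)).norm := by
    intro a b hab
    have h1 := sum_move' FreeGroup.norm φ a b hab
    have h2 := (hmin a b hab).1
    unfold mT' at h2
    simp only [hcomp] at h2
    rw [FreeGroup.norm_inv_eq, FreeGroup.norm_inv_eq] at h1
    omega
  have hn1 : ∀ a b : Lt α, a.1 ≠ b.1 → 2 * cc (φ (gl a)) (φ (gl b)) ≤ (φ (gl b)).norm ∧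
      2 * cc (φ (gl a)) (φ (gl b)) ≤ (φ (gl a)).norm := by
    intro a b hab
    have h1 := norm_mul_cc (φ (gl a)) (φ (gl b))
    have h2 := hT a b hab
    have h3 := hT (nv b) (nv a) (by simpa using hab.symm)
    rw [hinv, hinv, ← mul_inv_rev, FreeGroup.norm_inv_eq, FreeGroup.norm_inv_eq] at h3
    omega
  have hsq : ∀ a : Lt α, 2 * cc (φ (gl a)) (φ (gl a)) < (φ (gl a)).norm := fun a =>
    norm_lt_sq _ (hne a)
  have htie : ∀ (a b : Lt α) (m : ℕ), a.1 ≠ b.1 → cc (φ (gl a)) (φ (gl b)) = m →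
      (φ (gl b)).norm = 2 * m →
      vl ((φ (gl b)).toWord.take m) ≤ vl ((φ (gl b))⁻¹.toWord.take m) := by
    intro a b m hab hc hb
    by_contra hlt
    rw [not_le] at hlt
    have h1 := hn1 a b hab
    obtain ⟨h2, h3⟩ := hv_decrease (φ (gl a)) (φ (gl b)) m hc hb (by omega) hlt
    have h4 := sum_move' FreeGroup.norm φ a b hab
    have h5 := sum_move' hv φ a b hab
    have h6 := (hmin a b hab).2
    unfold mT' mR' at h6
    simp only [hcomp] at h6
    rw [FreeGroup.norm_inv_eq, FreeGroup.norm_inv_eq] at h4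
    have h7 := h6 (by omega)
    omega
  intro a b d hab hbd
  have ha : a.1 = b.1 → a = b := by
    intro h
    rcases fst_eq_iff.1 h with h' | h'
    · exact h'
    · exact absurd (by rw [h', nv_nv]) hab
  have hd : b.1 = d.1 → b = d := by
    intro h
    rcases fst_eq_iff.1 h with h' | h'
    · exact h'
    · exact absurd (by rw [h', nv_nv]) hbd
  have hA : 2 * cc (φ (gl a)) (φ (gl b)) ≤ (φ (gl b)).norm := by
    by_cases h : a.1 = b.1
    · rw [ha h]
      exact (hsq b).le
    · exact (hn1 a b h).1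
  have hD : 2 * cc (φ (gl b)) (φ (gl d)) ≤ (φ (gl b)).norm := by
    by_cases h : b.1 = d.1
    · rw [← hd h]
      exact (hsq b).le
    · exact (hn1 b d h).2
  by_contra hcon
  rw [not_lt] at hcon
  beta_reduce at hcon
  have hA' : 2 * cc (φ (gl a)) (φ (gl b)) = (φ (gl b)).norm := by omega
  have hD' : 2 * cc (φ (gl b)) (φ (gl d)) = (φ (gl b)).norm := by omega
  have hab1 : a.1 ≠ b.1 := by
    intro h
    have := hsq b
    rw [ha h] at hA'
    omega
  have hbd1 : b.1 ≠ d.1 := by
    intro h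
    have := hsq b
    rw [← hd h] at hD'
    omega
  set m := cc (φ (gl a)) (φ (gl b)) with hm
  have h1 := htie a b m hab1 rfl hA'.symm
  have h2 := htie (nv d) (nv b) m (by simpa using hbd1.symm)
    (by rw [hinv, hinv, cc_inv]; omega) (by rw [hinv, FreeGroup.norm_inv_eq]; omega)
  rw [hinv, inv_inv] at h2
  have h3 := le_antisymm h1 h2
  have hlen : (φ (gl b)).toWord.length = 2 * m := hA'.symm
  have hlen' : (φ (gl b))⁻¹.toWord.length = 2 * m := by
    have := FreeGroup.norm_inv_eq (x := φ (gl b))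
    unfold FreeGroup.norm at this
    omega
  have h4 := vl_inj (by rw [List.length_take, List.length_take, hlen, hlen']) h3
  have h5 : m ≤ nlcp (φ (gl b)).toWord (φ (gl b))⁻¹.toWord := by
    rw [le_nlcp_iff]
    exact ⟨by omega, by omega, h4⟩
  have h6 : m ≤ cc (φ (gl b)) (φ (gl b)) := by
    unfold cc
    rw [gp_comm]
    exact h5
  have h7 := hsq b
  omega

theorem exists_mid (φ : FreeGroup α →* FreeGroup β) (hφ : Function.Injective φ) :
    ∃ ψ : MulAut (FreeGroup α), Mid (fun a => φ (ψ (gl a))) := by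
  induction hn : mT' φ using Nat.strong_induction_on generalizing φ with
  | _ n ihn =>
    induction hr : mR' φ using Nat.strong_induction_on generalizing φ with
    | _ r ihr =>
      by_cases hmin : ∀ a b : Lt α, a.1 ≠ b.1 → mT' φ ≤ mT' (φ.comp (eAut a b).toMonoidHom) ∧
          (mT' (φ.comp (eAut a b).toMonoidHom) = mT' φ →
            mR' φ ≤ mR' (φ.comp (eAut a b).toMonoidHom))
      · exact ⟨1, mid_of_min φ hφ hmin⟩
      · push Not at hmin
        obtain ⟨a, b, hab, h⟩ := hmin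
        have hinj : Function.Injective (φ.comp (eAut a b).toMonoidHom) :=
          hφ.comp (eAut a b).injective
        obtain ⟨ψ, hψ⟩ : ∃ ψ : MulAut (FreeGroup α),
            Mid (fun y => (φ.comp (eAut a b).toMonoidHom) (ψ (gl y))) := by
          by_cases h1 : mT' φ ≤ mT' (φ.comp (eAut a b).toMonoidHom)
          · obtain ⟨h2, h3⟩ := h h1
            exact ihr _ (by omega) _ hinj (by omega) rfl
          · exact ihn _ (by omega) _ hinj rfl
        exact ⟨eAut a b * ψ, hψ⟩

end nielsen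

section linear

variable {α : Type} [DecidableEq α] [Fintype α]

lemma delta_sym (Δ : (Lt α → Lt α → ℤ) →ₗ[ℤ] ℤ)
    (h0 : ∀ x, Δ (fun c d => if c = x ∧ d = nv x then 1 else 0) = 0)
    (h1 : ∀ G : Lt α → ℤ, Δ (fun c _ => G c) = Δ (fun _ d => G d))
    (h2 : Δ (fun _ _ => 1) = 0)
    (h3 : ∀ a b : Lt α, a.1 ≠ b.1 → Δ (fun c d => (if c.1 = b.1 then 0 else 1) +
      (if decide (c = a ∨ c = b) = decide (nv d = a ∨ nv d = b) then 0 else 1)) = 0)
    (S : Lt α → Lt α → ℤ) (hS : ∀ x y, S x y = S (nv y) (nv x)) : Δ S = 0 := by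
  set ind : Lt α → Lt α → Lt α → Lt α → ℤ := fun x y c d => if c = x ∧ d = y then 1 else 0
    with hind
  set I1 : Lt α → Lt α → Lt α → ℤ := fun x c _ => if c = x then 1 else 0 with hI1
  set I2 : Lt α → Lt α → Lt α → ℤ := fun x _ d => if d = x then 1 else 0 with hI2
  have h12 : ∀ x, Δ (I2 x) = Δ (I1 x) := fun x => (h1 (fun c => if c = x then 1 else 0)).symm
  have h0' : ∀ x, Δ (ind x (nv x)) = 0 := h0
  set W : Lt α → Lt α → ℤ := fun c e => Δ (ind c (nv e)) + Δ (ind e (nv c)) with hW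
  set deg : Lt α → ℤ := fun c => Δ (I1 c) + Δ (I1 (nv c)) with hdeg
  have h4 : ∀ a b : Lt α, a.1 ≠ b.1 → deg a = 2 * W a b := by
    intro a b hab
    have e1 : a ≠ b := fun h => hab (h ▸ rfl)
    have e2 : a ≠ nv b := fun h => hab (h ▸ rfl)
    have e3 : nv a ≠ b := fun h => hab (h ▸ rfl)
    have e4 : nv a ≠ nv b := fun h => e1 (nv_inj.1 h)
    have h5 := h3 a b hab
    have h6 : (fun c d : Lt α => (if c.1 = b.1 then (0 : ℤ) else 1) +
        (if decide (c = a ∨ c = b) = decide (nv d = a ∨ nv d = b) then 0 else 1)) =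
        (fun _ _ => 1) - I1 b - I1 (nv b) + I1 a + I1 b + I2 (nv a) + I2 (nv b) -
          (2 : ℤ) • (ind a (nv b) + ind b (nv a) + ind a (nv a) + ind b (nv b)) := by
      funext c d
      simp only [hind, hI1, hI2, Pi.add_apply, Pi.sub_apply, Pi.smul_apply, smul_eq_mul,
        fst_eq_iff, nv_eq_iff]
      by_cases c1 : c = a <;> by_cases c2 : c = b <;> by_cases c3 : c = nv b <;>
        by_cases d1 : d = nv a <;> by_cases d2 : d = nv b <;>
        simp_all [nv_ne, ne_nv]
    rw [h6] at h5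
    simp only [map_add, map_sub, map_smul, smul_eq_mul, h2, h12, h0'] at h5
    simp only [hdeg, hW]
    omega
  have h5 : ∀ a b : Lt α, deg a = deg b := by
    intro a b
    by_cases hab : a.1 = b.1
    · rcases fst_eq_iff.1 hab with rfl | rfl
      · rfl
      · simp only [hdeg, nv_nv]
        ring
    · rw [h4 a b hab, h4 b a (Ne.symm hab)]
      simp only [hW]
      ring
  have hnvE : ∀ f : Lt α → ℤ, ∑ x, f (nv x) = ∑ x, f x := by
    intro f
    exact Fintype.sum_equiv ⟨nv, nv, nv_nv, nv_nv⟩ _ _ (fun _ => rfl)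
  have h6 : ∑ x, Δ (I1 x) = 0 := by
    rw [← map_sum, ← h2]
    congr 1
    funext c d
    simp [hI1, Finset.sum_apply]
  have h7 : ∀ a, deg a = 0 := by
    intro a
    have e1 : ∑ x, deg x = 0 := by
      simp only [hdeg, Finset.sum_add_distrib, hnvE (fun x => Δ (I1 x)), h6, add_zero]
    have e2 : ∑ x, deg x = ∑ _x : Lt α, deg a := Finset.sum_congr rfl fun x _ => h5 x a
    rw [e2, Finset.sum_const, Finset.card_univ, nsmul_eq_mul] at e1
    have e3 : (Fintype.card (Lt α) : ℤ) ≠ 0 := by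
      have : 0 < Fintype.card (Lt α) := Fintype.card_pos_iff.2 ⟨a⟩
      omega
    exact (mul_eq_zero.1 e1).resolve_left e3
  have h8 : ∀ a, ∑ e, W a e = deg a := by
    intro a
    simp only [hW, hdeg, Finset.sum_add_distrib]
    rw [hnvE (fun x => Δ (ind a x)), ← map_sum, ← map_sum, ← h12 (nv a)]
    congr 2
    · funext c d
      by_cases h : c = a <;> simp [hind, hI1, Finset.sum_apply, h]
    · funext c d
      by_cases h : d = nv a <;> simp [hind, hI2, Finset.sum_apply, h]
  have h9 : ∀ a e, W a e = 0 := by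
    have e1 : ∀ a e, e ≠ nv a → W a e = 0 := by
      intro a e h
      by_cases hab : a.1 = e.1
      · rcases fst_eq_iff.1 hab with rfl | rfl
        · simp only [hW, h0', add_zero]
        · exact absurd (nv_nv e).symm h
      · have := h4 a e hab
        rw [h7] at this
        omega
    intro a e
    by_cases h : e = nv a
    · have e2 := h8 a
      rw [h7, Finset.sum_eq_single (nv a) (fun x _ hx => e1 a x hx) (by simp)] at e2
      rw [h, e2]
    · exact e1 a e h
  have h10 : Δ S = ∑ p : Lt α × Lt α, S p.1 p.2 * Δ (ind p.1 p.2) := by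
    have : S = ∑ p : Lt α × Lt α, S p.1 p.2 • ind p.1 p.2 := by
      funext c d
      rw [Finset.sum_apply, Finset.sum_apply, Finset.sum_eq_single (c, d)]
      · simp [hind]
      · rintro ⟨x, y⟩ _ hp
        have : ¬ (c = x ∧ d = y) := by
          rintro ⟨rfl, rfl⟩
          exact hp rfl
        simp [hind, this]
      · simp
    conv_lhs => rw [this]
    simp only [map_sum, map_smul, smul_eq_mul]
  have h11 : Δ S = ∑ p : Lt α × Lt α, S p.1 p.2 * Δ (ind (nv p.2) (nv p.1)) := by
    rw [h10]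
    refine Fintype.sum_equiv ⟨fun p => (nv p.2, nv p.1), fun p => (nv p.2, nv p.1),
      fun p => by simp, fun p => by simp⟩ _ _ ?_
    intro p
    simp only [Equiv.coe_fn_mk, nv_nv]
    rw [hS p.1 p.2]
  have h12 : Δ S + Δ S = 0 := by
    nth_rewrite 1 [h10]
    rw [h11, ← Finset.sum_add_distrib]
    apply Finset.sum_eq_zero
    intro p _
    have := h9 p.1 (nv p.2)
    simp only [hW, nv_nv] at this
    rw [← mul_add, this, mul_zero]
  omega

/-- equality of cyclic lengths under automorphisms gives equality under injective maps -/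
theorem tau_inj_of_aut {β : Type} [DecidableEq β] [Fintype β] (u v : FreeGroup α)
    (h : ∀ φ : MulAut (FreeGroup α), tau (φ u) = tau (φ v)) (Θ : FreeGroup α →* FreeGroup β)
    (hΘ : Function.Injective Θ) : tau (Θ u) = tau (Θ v) := by
  obtain ⟨ψ, hψ⟩ := exists_mid Θ hΘ
  set u' := ψ⁻¹ u with hu'
  set v' := ψ⁻¹ v with hv'
  have e1 : ∀ t, Θ t = (Θ.comp ψ.toMonoidHom) (ψ⁻¹ t) := by
    intro t
    simp
  have hm : Mid (fun a => (Θ.comp ψ.toMonoidHom) (gl a)) := hψ
  rw [e1 u, e1 v, tau_mid _ hm, tau_mid _ hm]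
  set φ := Θ.comp ψ.toMonoidHom with hφ
  set Δ : (Lt α → Lt α → ℤ) →ₗ[ℤ] ℤ := LamL u' - LamL v' with hΔ
  have hΔ' : ∀ F, Δ F = Lam F u' - Lam F v' := fun F => rfl
  have h1 : ∀ G : Lt α → ℤ, Δ (fun c _ => G c) = Δ (fun _ d => G d) := by
    intro G
    rw [hΔ', hΔ', Lam_ends, Lam_ends]
  have key := delta_sym Δ (fun x => by rw [hΔ', Lam_ind, Lam_ind, sub_zero]) h1
    (by
      rw [hΔ', ← tau_id, ← tau_id, sub_eq_zero]
      exact h ψ⁻¹)
    (fun a b hab => by
      rw [hΔ', ← tau_eAut a b hab, ← tau_eAut a b hab, sub_eq_zero]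
      exact h (eAut a b * ψ⁻¹))
    (fun a b => ((φ (gl a)).norm : ℤ) + (φ (gl b)).norm - 4 * cc (φ (gl a)) (φ (gl b)))
    (fun a b => by
      rw [gl_nv, gl_nv, map_inv, map_inv, cc_inv, FreeGroup.norm_inv_eq, FreeGroup.norm_inv_eq]
      ring)
  have h2 : (fun a b => ((φ (gl a)).norm : ℤ) + (φ (gl b)).norm - 4 * cc (φ (gl a)) (φ (gl b))) =
      (2 : ℤ) • (fun a b => ((φ (gl a)).norm : ℤ) - 2 * cc (φ (gl a)) (φ (gl b))) +
        (fun _ b => ((φ (gl b)).norm : ℤ)) - (fun a _ => ((φ (gl a)).norm : ℤ)) := by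
    funext a b
    simp only [Pi.add_apply, Pi.sub_apply, Pi.smul_apply, smul_eq_mul]
    ring
  rw [h2, map_sub, map_add, map_smul, h1 (fun a => ((φ (gl a)).norm : ℤ))] at key
  simp only [smul_eq_mul] at key
  rw [← hu', ← hv']
  have h3 := hΔ' (fun a b => ((φ (gl a)).norm : ℤ) - 2 * cc (φ (gl a)) (φ (gl b)))
  omega

end linear

end Pool.Agent.H910Z.TE
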