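import Pool.Agent.H910Z.TE.Init2
import Pool.Agent.H910Z.TE.Words2

set_option autoImplicit false
set_option linter.unusedSectionVars false
set_option linter.unusedSimpArgs false
set_option linter.unusedVariables false

/-! # Small witnesses -/

namespace Pool.Agent.H910Z.TE

open Pool.Agent.Helper156.OF

def NB (B : ℕ) : ℕ := 2 ^ (2 * B) * 2 ^ ((4 * B + 2) * (4 * B + 2)) * (4 * B + 2)

lemma NN_le (ι : Type) [Fintype ι] [DecidableEq ι] {B : ℕ} (h : Fintype.card ι ≤ B) :
    NN ι ≤ NB B := by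
  have h1 : Fintype.card (Nm ι) = 4 * Fintype.card ι + 2 := by
    simp only [Fintype.card_sum, Fintype.card_prod, Fintype.card_bool]
    ring
  have h2 : NN ι = NB (Fintype.card ι) := by
    unfold NN NB
    rw [Fintype.card_prod, Fintype.card_fun, Fintype.card_fun, Fintype.card_fun, Fintype.card_fun,
      h1, Fintype.card_bool, ← pow_mul, ← pow_mul]
  rw [h2]
  unfold NB
  gcongr
  · omega
  · omega

/-- the bound on the size of the configuration -/
def ZB (n M : ℕ) : ℕ := 2 ^ NB (4 * (n * (M * (M ^ 2 + 1) ^ 3)) + M * (M ^ 2 + 1) ^ 3 + 2)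

/-- the bound on the length of the images of the generators -/
def BL (n M : ℕ) : ℕ := 2 * ((M ^ 2 + 1) ^ 3 * (ZB n M * (2 * ZB n M + 1)) + 1)

noncomputable def lam {ι : Type} (P : List (Nm ι × Nm ι)) : (Nm ι → ℚ) →ₗ[ℚ] ℚ :=
  (P.map (fun y => (LinearMap.proj (R := ℚ) (φ := fun _ : Nm ι => ℚ) y.2 -
    LinearMap.proj (R := ℚ) (φ := fun _ : Nm ι => ℚ) y.1))).sum

lemma lam_cst {ι : Type} (P : List (Nm ι × Nm ι)) (c : Nm ι → ℤ) :
    lam P (cst c) = ((P.map (fun y => c y.2 - c y.1)).sum : ℤ) := by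
  unfold lam
  induction P with
  | nil => simp
  | cons y P ih =>
    simp only [List.map_cons, List.sum_cons, LinearMap.add_apply, ih]
    simp [cst]

lemma det_transfer {ι : Type} [Fintype ι] [DecidableEq ι] {n : ℕ} {d : Dir ι} {c e : Nm ι → ℤ}
    {ty : ι → Fin n} (hc : Good d c) (hD : Det d c ty) (he : Sol (d, typ c) e) : Det d e ty := by
  intro b b' s t hb hty h1 h2
  have h3 := not_and.2
    (hD b b' s (max (min (c (bg b s)) (c (fn b s))) (min (c (bg b' s)) (c (fn b' s)))) hb hty)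
  rw [cov_iff hc, cov_iff hc] at h3
  rw [cov_iff he.2] at h1 h2
  have k1 := sol_le he (α := bg b s) (β := fn b s)
  have k2 := sol_le he (α := fn b s) (β := bg b s)
  have k3 := sol_le he (α := bg b' s) (β := fn b' s)
  have k4 := sol_le he (α := fn b' s) (β := bg b' s)
  have k5 := sol_le he (α := bg b s) (β := fn b' s)
  have k6 := sol_le he (α := fn b s) (β := bg b' s)
  have k7 := sol_le he (α := bg b' s) (β := fn b s)
  have k8 := sol_le he (α := fn b' s) (β := bg b s)
  have k9 := sol_le he (α := bg b s) (β := bg b' s)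
  have k10 := sol_le he (α := bg b' s) (β := bg b s)
  have k11 := sol_le he (α := fn b s) (β := fn b' s)
  have k12 := sol_le he (α := fn b' s) (β := fn b s)
  simp only at h1 h2
  split_ifs at h1 h2 h3 <;> omega

theorem witness_aux {n : ℕ} {β : Type} [DecidableEq β] (φ : FreeGroup (Fin n) →* FreeGroup β)
    (hφ : Function.Injective φ) (gs : ℕ → FreeGroup (Fin n)) (M : ℕ) (x0 : Fin n)
    (hx : ∀ x, ∃ ix, ix < M ∧ gs ix = FreeGroup.of x) (u v : List (Lt (Fin n)))
    (hu : ∀ l, l <:+ u ++ u → ∃ i, i < M ∧ gs i = FreeGroup.mk l)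
    (hv : ∀ l, l <:+ v ++ v → ∃ i, i < M ∧ gs i = FreeGroup.mk l)
    (h : tau (φ (FreeGroup.mk u)) ≠ tau (φ (FreeGroup.mk v))) :
    ∃ Θ : FreeGroup (Fin n) →* FreeGroup ℕ, (∀ g, prj n (Θ g) = g) ∧
      (∀ x, (Θ (FreeGroup.of x)).norm ≤ BL n M ∧ Θ (FreeGroup.of x) ∈ LB (n + BL n M)) ∧
      tau (Θ (FreeGroup.mk u)) ≠ tau (Θ (FreeGroup.mk v)) := by
  classical
  have hc := good0 hφ hx x0
  have hD := det0 (φ := φ) hx x0
  choose P p1 p2 p3 p4 using fun (i : ℕ) (hi : i < M) => paths (φ := φ) (gs := gs) hi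
  obtain ⟨i1, hi1, g1⟩ := hu (u ++ u) (List.suffix_refl _)
  obtain ⟨i2, hi2, g2⟩ := hu u (List.suffix_append _ _)
  obtain ⟨i3, hi3, g3⟩ := hv (v ++ v) (List.suffix_refl _)
  obtain ⟨i4, hi4, g4⟩ := hv v (List.suffix_append _ _)
  obtain ⟨e, he, hsz, hf⟩ := machine hc card_NE0
    (lam (P i1 hi1) - lam (P i2 hi2) - (lam (P i3 hi3) - lam (P i4 hi4))) (by
      simp only [LinearMap.sub_apply, lam_cst, p2]
      intro h0
      apply h
      unfold tau
      rw [← map_mul, ← map_mul, ← mk_append', ← mk_append', ← g1, ← g2, ← g3, ← g4]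
      have : (((wd φ gs i1).length : ℤ) - (wd φ gs i2).length -
          ((wd φ gs i3).length - (wd φ gs i4).length) : ℤ) = 0 := by exact_mod_cast h0
      simp only [FreeGroup.norm]
      simp only [wd] at this
      omega)
  simp only [LinearMap.sub_apply, lam_cst] at hf
  obtain ⟨F', b1, b2⟩ := back he.2 (det_transfer hc hD he)
  set F : ℤ → FreeGroup ℕ := fun t =>
    if h : ∃ α, c0 φ gs M α = t then F' (e h.choose) else 1 with hF
  have hFF : ∀ α, F (c0 φ gs M α) = F' (e α) := by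
    intro α
    have h1 : ∃ γ, c0 φ gs M γ = c0 φ gs M α := ⟨α, rfl⟩
    simp only [hF, dif_pos h1]
    rw [sol_eq he h1.choose_spec]
  have tr := transport F hx x0 (fun x => FreeGroup.of x.val) (fun b => by
    rw [hFF, hFF, hFF, hFF]
    exact b1 b)
  have hP : ∀ i (hi : i < M),
      (∀ q, (cnt n (Phi φ gs M F (wd φ gs i) * emb n q) : ℤ) =
        ((P i hi).map (fun y => e y.2 - e y.1)).sum) ∧
      prj n (Phi φ gs M F (wd φ gs i)) = 1 ∧
      Phi φ gs M F (wd φ gs i) ∈ LB (n + (size e).toNat) ∧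
      ((Phi φ gs M F (wd φ gs i)).norm : ℤ) ≤ (P i hi).length * (size e * (2 * size e + 1)) := by
    intro i hi
    have h1 := b2 ((P i hi).map (fun y => (e y.1, e y.2))) (by
      intro x hx
      obtain ⟨y, hy, rfl⟩ := List.mem_map.1 hx
      exact ⟨he.2.lo_le _, sol_le he (p1 i hi y hy), he.2.le_hi _⟩)
    rw [List.map_map, List.map_map, List.length_map] at h1
    rw [p4 i hi F]
    simp only [hFF]
    exact h1
  set θ : FreeGroup (Fin n) →* FreeGroup ℕ := FreeGroup.lift (fun x =>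
    Phi φ gs M F (φ (FreeGroup.of x)).toWord * FreeGroup.of x.val) with hθ
  have hθ1 : ∀ x, θ (FreeGroup.of x) =
      Phi φ gs M F (φ (FreeGroup.of x)).toWord * FreeGroup.of x.val := by
    intro x
    simp [hθ]
  have hemb : ∀ x : Fin n, emb n (FreeGroup.of x) = FreeGroup.of x.val := by
    intro x
    simp [emb]
  have hθ2 : ∀ l : List (Lt (Fin n)), (∀ l', l' <:+ l → ∃ i, i < M ∧ gs i = FreeGroup.mk l') →
      θ (FreeGroup.mk l) = Phi φ gs M F (φ (FreeGroup.mk l)).toWord * emb n (FreeGroup.mk l) := by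
    intro l
    induction l with
    | nil => intro _; simp [← FreeGroup.one_eq_mk, Phi]
    | cons a l ih =>
      intro hl
      have h1 := ih fun l' h' => hl l' (h'.trans (List.suffix_cons _ _))
      obtain ⟨i, hi, h2⟩ := hl l (List.suffix_cons _ _)
      obtain ⟨i', hi', h3⟩ := hl (a :: l) (List.suffix_refl _)
      obtain ⟨x, s⟩ := a
      cases s
      · have h4 : gl (x, false) = (FreeGroup.of x)⁻¹ := rfl
        have h5 := tr x hi' hi (by rw [h2, h3, mk_cons, h4]; simp)
        simp only [wd, h2, h3] at h5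
        rw [mk_cons, map_mul, h1, h5, ← mk_cons, h4, map_inv, hθ1, mk_cons, map_mul (emb n), h4,
          map_inv, hemb]
        group
      · have h4 : gl (x, true) = FreeGroup.of x := rfl
        have h5 := tr x hi hi' (by rw [h2, h3, mk_cons, h4])
        simp only [wd, h2, h3] at h5
        rw [h5, mk_cons, map_mul, h1, h4, hθ1, map_mul (emb n), hemb]
        group
  have hcnt : ∀ (l : List (Lt (Fin n))) i (hi : i < M), gs i = FreeGroup.mk l →
      (∀ l', l' <:+ l → ∃ i, i < M ∧ gs i = FreeGroup.mk l') →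
      (cnt n (θ (FreeGroup.mk l)) : ℤ) = ((P i hi).map (fun y => e y.2 - e y.1)).sum := by
    intro l i hi h1 h2
    rw [hθ2 l h2, ← (hP i hi).1 (FreeGroup.mk l), wd, h1]
  have c1 := hcnt _ i1 hi1 g1 hu
  have c2 := hcnt _ i2 hi2 g2 (fun l' h' => hu l' (h'.trans (List.suffix_append _ _)))
  have c3 := hcnt _ i3 hi3 g3 hv
  have c4 := hcnt _ i4 hi4 g4 (fun l' h' => hv l' (h'.trans (List.suffix_append _ _)))
  have hprj : ∀ g, prj n (θ g) = g := by
    have : (prj n).comp θ = MonoidHom.id _ := by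
      ext x
      obtain ⟨ix, h1, h2⟩ := hx x
      have h3 := (hP ix h1).2.1
      simp only [wd, h2] at h3
      simp only [MonoidHom.comp_apply, hθ1, map_mul, h3, one_mul, ← hemb, prj_emb,
        MonoidHom.id_apply]
    exact fun g => DFunLike.congr_fun this g
  have hs0 : 0 ≤ size e := by
    have := he.2.lo_le hi
    unfold size
    omega
  have hZ : size e ≤ ZB n M := by
    refine hsz.trans ?_
    unfold ZB
    push_cast
    refine pow_le_pow_right₀ (by norm_num) (NN_le _ ?_)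
    simp only [Fintype.card_sum, Fintype.card_prod, Fintype.card_fin, Fintype.card_coe]
    have h1 := card_Dp (φ := φ) (gs := gs) (M := M)
    have h2 := Nat.mul_le_mul_left M h1
    have h3 := Nat.mul_le_mul_left n h2
    omega
  have hBL : BL n M = 2 * ((M ^ 2 + 1) ^ 3 * (ZB n M * (2 * ZB n M + 1)) + 1) := by
    unfold BL
    rfl
  generalize ZB n M = Z at hZ hBL
  generalize BL n M = BB at hBL ⊢
  have hbd : ∀ x, 2 * (θ (FreeGroup.of x)).norm ≤ BB ∧
      θ (FreeGroup.of x) ∈ LB (n + BB) := by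
    intro x
    obtain ⟨ix, h1, h2⟩ := hx x
    obtain ⟨_, _, h3, h4⟩ := hP ix h1
    simp only [wd, h2] at h3 h4
    have h5 := FreeGroup.norm_mul_le (Phi φ gs M F (φ (FreeGroup.of x)).toWord) (FreeGroup.of x.val)
    rw [FreeGroup.norm_of] at h5
    have h6 : ((P ix h1).length : ℤ) * (size e * (2 * size e + 1)) ≤
        (((M ^ 2 + 1) ^ 3 * (Z * (2 * Z + 1)) : ℕ) : ℤ) := by
      have h7 := (p3 ix h1).trans card_Dp
      have h8 : ((P ix h1).length : ℤ) ≤ ((M : ℤ) ^ 2 + 1) ^ 3 := by exact_mod_cast h7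
      push_cast
      exact mul_le_mul h8 (mul_le_mul hZ (by omega) (by omega) (by omega)) (by positivity)
        (by positivity)
    have h7 : Z ≤ (M ^ 2 + 1) ^ 3 * (Z * (2 * Z + 1)) :=
      (Nat.le_mul_of_pos_right _ (by omega)).trans (Nat.le_mul_of_pos_left _ (by positivity))
    rw [hθ1]
    refine ⟨by omega, mul_mem (fun a ha => lt_of_lt_of_le (h3 a ha) (by omega)) ?_⟩
    rw [← hemb]
    exact emb_LB _ (by omega)
  by_cases h1 : tau (θ (FreeGroup.mk u)) = tau (θ (FreeGroup.mk v))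
  · refine ⟨(dbl n).comp θ, fun g => by rw [MonoidHom.comp_apply, prj_dbl, hprj], fun x => ?_, ?_⟩
    · rw [MonoidHom.comp_apply, dbl_norm]
      have := cnt_le (n := n) (θ (FreeGroup.of x))
      have := (hbd x).1
      exact ⟨by omega, dbl_LB (hbd x).2⟩
    · intro h2
      apply hf
      unfold tau at h1 h2
      simp only [← map_mul, ← mk_append', MonoidHom.comp_apply, dbl_norm] at h1 h2
      rw [← c1, ← c2, ← c3, ← c4]
      have : ((cnt n (θ (FreeGroup.mk (u ++ u))) : ℤ) - cnt n (θ (FreeGroup.mk u)) -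
          (cnt n (θ (FreeGroup.mk (v ++ v))) - cnt n (θ (FreeGroup.mk v))) : ℤ) = 0 := by omega
      exact_mod_cast this
  · refine ⟨θ, hprj, fun x => ⟨?_, (hbd x).2⟩, h1⟩
    have := (hbd x).1
    omega

theorem witness {n : ℕ} {β : Type} [DecidableEq β] (φ : FreeGroup (Fin n) →* FreeGroup β)
    (hφ : Function.Injective φ) (u v : List (Lt (Fin n)))
    (h : tau (φ (FreeGroup.mk u)) ≠ tau (φ (FreeGroup.mk v))) :
    ∃ Θ : FreeGroup (Fin n) →* FreeGroup ℕ, (∀ g, prj n (Θ g) = g) ∧
      (∀ x, (Θ (FreeGroup.of x)).norm ≤ BL n (n + 2 * u.length + 2 * v.length + 2) ∧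
        Θ (FreeGroup.of x) ∈ LB (n + BL n (n + 2 * u.length + 2 * v.length + 2))) ∧
      tau (Θ (FreeGroup.mk u)) ≠ tau (Θ (FreeGroup.mk v)) := by
  have hn : 0 < n := by
    by_contra h0
    have h1 : n = 0 := by omega
    subst h1
    apply h
    have e1 : u = [] := by
      cases u with
      | nil => rfl
      | cons a _ => exact a.1.elim0
    have e2 : v = [] := by
      cases v with
      | nil => rfl
      | cons a _ => exact a.1.elim0
    rw [e1, e2]
  set S : List (FreeGroup (Fin n)) := (List.finRange n).map FreeGroup.of ++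
    ((u ++ u).tails.map FreeGroup.mk ++ (v ++ v).tails.map FreeGroup.mk) with hS
  have hlen : S.length = n + 2 * u.length + 2 * v.length + 2 := by
    simp [hS]
    omega
  have hmem : ∀ g ∈ S, ∃ i, i < n + 2 * u.length + 2 * v.length + 2 ∧ S.getD i 1 = g := by
    intro g hg
    obtain ⟨i, hi, h1⟩ := List.mem_iff_getElem.1 hg
    exact ⟨i, hlen ▸ hi, by rw [List.getD_eq_getElem _ _ hi, h1]⟩
  refine witness_aux φ hφ (fun i => S.getD i 1) _ ⟨0, hn⟩ (fun x => hmem _ ?_) u v
    (fun l hl => hmem _ ?_) (fun l hl => hmem _ ?_) h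
  · exact List.mem_append_left _ (List.mem_map.2 ⟨x, List.mem_finRange x, rfl⟩)
  · exact List.mem_append_right _ (List.mem_append_left _
      (List.mem_map.2 ⟨l, (List.mem_tails _ _).2 hl, rfl⟩))
  · exact List.mem_append_right _ (List.mem_append_right _
      (List.mem_map.2 ⟨l, (List.mem_tails _ _).2 hl, rfl⟩))

end Pool.Agent.H910Z.TE
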