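import Pool.Agent.Helper156.OF.Nielsen

set_option autoImplicit false
set_option linter.unusedSectionVars false
set_option linter.unusedSimpArgs false
set_option linter.unusedVariables false

/-! # Sums over adjacent pairs, Nielsen reduced families, elementary automorphisms -/

namespace Pool.Agent.H910Z.TE

open Pool.Agent.Helper156.OF FreeGroup

/-- the difference of the lengths of the square and of the element -/
def tau {α : Type} [DecidableEq α] (g : FreeGroup α) : ℤ := ((g * g).norm : ℤ) - g.norm

section pairs

variable {α : Type} [DecidableEq α]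

def ps (F : Lt α → Lt α → ℤ) : Lt α → List (Lt α) → ℤ
  | _, [] => 0
  | a, b :: l => F a b + ps F b l

def pss (F : Lt α → Lt α → ℤ) : List (Lt α) → ℤ
  | [] => 0
  | a :: l => ps F a l

def Lam (F : Lt α → Lt α → ℤ) (t : FreeGroup α) : ℤ := pss F (t * t).toWord - pss F t.toWord

lemma ps_add (F F' : Lt α → Lt α → ℤ) (a : Lt α) (l : List (Lt α)) :
    ps (F + F') a l = ps F a l + ps F' a l := by
  induction l generalizing a with
  | nil => simp [ps]
  | cons b l ih => simp only [ps, ih, Pi.add_apply]; ring

lemma ps_smul (m : ℤ) (F : Lt α → Lt α → ℤ) (a : Lt α) (l : List (Lt α)) :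
    ps (m • F) a l = m * ps F a l := by
  induction l generalizing a with
  | nil => simp [ps]
  | cons b l ih => simp only [ps, ih, Pi.smul_apply, smul_eq_mul]; ring

def LamL (t : FreeGroup α) : (Lt α → Lt α → ℤ) →ₗ[ℤ] ℤ where
  toFun F := Lam F t
  map_add' F F' := by
    have : ∀ w, pss (F + F') w = pss F w + pss F' w := by
      intro w
      cases w with
      | nil => simp [pss]
      | cons a l => exact ps_add F F' a l
    simp only [Lam, this]
    ring
  map_smul' m F := by
    have : ∀ w, pss (m • F) w = m * pss F w := by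
      intro w
      cases w with
      | nil => simp [pss]
      | cons a l => exact ps_smul m F a l
    simp only [Lam, this, RingHom.id_apply, smul_eq_mul]
    ring

lemma ne_nv_of_red {a b : Lt α} {l : List (Lt α)} (h : IsReduced (a :: b :: l)) :
    b ≠ nv a ∧ IsReduced (b :: l) := by
  rw [FreeGroup.isReduced_cons_cons] at h
  refine ⟨fun hc => ?_, h.2⟩
  have := h.1 (by rw [hc]; rfl)
  rw [hc] at this
  simp [nv] at this

lemma ps_ind (x : Lt α) (a : Lt α) (l : List (Lt α)) (h : IsReduced (a :: l)) :
    ps (fun c d => if c = x ∧ d = nv x then 1 else 0) a l = 0 := by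
  induction l generalizing a with
  | nil => rfl
  | cons b l ih =>
    obtain ⟨h1, h2⟩ := ne_nv_of_red h
    simp only [ps, ih b h2]
    rw [if_neg]
    · rfl
    · rintro ⟨rfl, h3⟩
      exact h1 h3

lemma Lam_ind (x : Lt α) (t : FreeGroup α) :
    Lam (fun c d => if c = x ∧ d = nv x then 1 else 0) t = 0 := by
  have : ∀ g : FreeGroup α, pss (fun c d => if c = x ∧ d = nv x then 1 else 0) g.toWord = 0 := by
    intro g
    have h := FreeGroup.isReduced_toWord (x := g)
    cases hw : g.toWord with
    | nil => rfl
    | cons a l =>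
      rw [hw] at h
      exact ps_ind x a l h
  simp [Lam, this]

lemma ps_ends (G : Lt α → ℤ) (a : Lt α) (l : List (Lt α)) :
    ps (fun c _ => G c) a l + G (l.getLastD a) = G a + ps (fun _ d => G d) a l := by
  induction l generalizing a with
  | nil => simp [ps]
  | cons b l ih =>
    have := ih b
    simp only [ps, List.getLastD_cons]
    omega

lemma sq_ends (t : FreeGroup α) : (t * t).toWord.head? = t.toWord.head? ∧
    (t * t).toWord.getLast? = t.toWord.getLast? := by
  have h3 : (t * t).toWord = reduceCyclically.conjugator t.toWord ++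
      (List.replicate 2 (reduceCyclically t.toWord)).flatten ++
      invRev (reduceCyclically.conjugator t.toWord) := by
    rw [← pow_two, FreeGroup.toWord_pow]
    exact reduceCyclically.reduce_flatten_replicate_succ FreeGroup.isReduced_toWord 1
  have h4 := reduceCyclically.conj_conjugator_reduceCyclically t.toWord
  generalize reduceCyclically.conjugator t.toWord = A at h3 h4
  generalize reduceCyclically t.toWord = C at h3 h4
  rw [h3, ← h4]
  cases C with
  | nil => simp
  | cons x C =>
    constructor
    · simp [List.head?_append]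
    · simp only [List.replicate, List.flatten_cons, List.flatten_nil, List.append_nil,
        List.getLast?_append]
      cases h : (x :: C).getLast? with
      | none => simp at h
      | some y => simp

lemma sq_words (t : FreeGroup α) : (t.toWord = [] ∧ (t * t).toWord = []) ∨
    ∃ a l l', t.toWord = a :: l ∧ (t * t).toWord = a :: l' ∧ l'.getLastD a = l.getLastD a := by
  obtain ⟨h1, h2⟩ := sq_ends t
  cases hw : t.toWord with
  | nil =>
    left
    rw [hw] at h1
    simpa using h1
  | cons a l =>
    right
    rw [hw] at h1 h2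
    cases hw' : (t * t).toWord with
    | nil => simp [hw'] at h1
    | cons a' l' =>
      rw [hw'] at h1 h2
      simp only [List.head?_cons, Option.some.injEq] at h1
      subst h1
      refine ⟨a', l, l', rfl, rfl, ?_⟩
      rw [List.getLast?_cons, List.getLast?_cons] at h2
      simpa [List.getLastD_eq_getLast?] using h2

lemma Lam_ends (G : Lt α → ℤ) (t : FreeGroup α) :
    Lam (fun c _ => G c) t = Lam (fun _ d => G d) t := by
  unfold Lam
  rcases sq_words t with ⟨h1, h2⟩ | ⟨a, l, l', h1, h2, h3⟩
  · simp [h1, h2, pss]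
  · rw [h1, h2]
    have h4 := ps_ends G a l
    have h5 := ps_ends G a l'
    rw [h3] at h5
    simp only [pss]
    omega

lemma tau_local {β : Type} [DecidableEq β] (Θ : FreeGroup α →* FreeGroup β)
    (F : Lt α → Lt α → ℤ) (G H : Lt α → ℤ)
    (h : ∀ a l, IsReduced (a :: l) →
      ((Θ (FreeGroup.mk (a :: l))).norm : ℤ) = G a + ps F a l + H (l.getLastD a))
    (t : FreeGroup α) : tau (Θ t) = Lam F t := by
  unfold tau Lam
  rw [← _root_.map_mul]
  rcases sq_words t with ⟨h1, h2⟩ | ⟨a, l, l', h1, h2, h3⟩
  · rw [h1, h2]
    rw [FreeGroup.toWord_eq_nil_iff] at h1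
    simp [h1, pss]
  · have h4 := h a l (h1 ▸ FreeGroup.isReduced_toWord)
    have h5 := h a l' (h2 ▸ FreeGroup.isReduced_toWord)
    rw [← h1, FreeGroup.mk_toWord] at h4
    rw [← h2, FreeGroup.mk_toWord] at h5
    rw [h1, h2, h4, h5, h3]
    simp only [pss]
    ring

lemma tau_id (t : FreeGroup α) : tau t = Lam (fun _ _ => 1) t := by
  refine tau_local (MonoidHom.id _) _ (fun _ => 1) (fun _ => 0) ?_ t
  intro a l h
  have : ∀ (a : Lt α) (l : List (Lt α)), ps (fun _ _ => 1) a l = l.length := by
    intro a l
    induction l generalizing a with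
    | nil => rfl
    | cons b l ih => simp only [ps, ih, List.length_cons]; push_cast; ring
  simp only [MonoidHom.id_apply, FreeGroup.norm, FreeGroup.toWord_mk, h.reduce_eq, this,
    List.length_cons]
  push_cast
  ring

end pairs

section whitehead

variable {α : Type} [DecidableEq α]

def wM (b c : Lt α) : List (Lt α) := if c.1 = b.1 then [] else [c]

def wJ (p : Lt α → Bool) (b c d : Lt α) : List (Lt α) :=
  if p c = true then (if p (nv d) = true then [] else [b])
  else (if p (nv d) = true then [nv b] else [])

def wOut (p : Lt α → Bool) (b : Lt α) : Lt α → List (Lt α) → List (Lt α)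
  | c, [] => wM b c ++ (if p c = true then [b] else [])
  | c, d :: l => wM b c ++ (wJ p b c d ++ wOut p b d l)

lemma red_cons {a : Lt α} {l : List (Lt α)} (h : IsReduced l) (h1 : ∀ x ∈ l.head?, x ≠ nv a) :
    IsReduced (a :: l) := by
  cases l with
  | nil => simp
  | cons b l =>
    rw [FreeGroup.isReduced_cons_cons]
    refine ⟨fun h2 => ?_, h⟩
    by_contra h3
    apply h1 b (by simp)
    obtain ⟨a1, a2⟩ := a
    obtain ⟨b1, b2⟩ := b
    simp only at h2 h3
    subst h2
    cases a2 <;> cases b2 <;> simp [nv] at h3 ⊢

lemma wOut_red (p : Lt α → Bool) (b : Lt α) (hp1 : p b = true) (hp2 : p (nv b) = false)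
    (c : Lt α) (l : List (Lt α)) (h : IsReduced (c :: l)) :
    IsReduced (wOut p b c l) ∧ ∀ x ∈ (wOut p b c l).head?,
      (c.1 ≠ b.1 → x = c) ∧ (c = b → x = b ∨ (x.1 ≠ b.1 ∧ p (nv x) = true)) ∧
      (c = nv b → x = nv b ∨ (x.1 ≠ b.1 ∧ p (nv x) = false)) := by
  induction l generalizing c with
  | nil =>
    by_cases h1 : c.1 = b.1
    · rcases fst_eq_iff.1 h1 with rfl | rfl
      · simp [wOut, wM, hp1, ne_nv]
      · simp [wOut, wM, hp2]
    · have h2 : c ≠ b := fun h => h1 (h ▸ rfl)
      have h3 : c ≠ nv b := fun h => h1 (h ▸ rfl)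
      refine ⟨?_, by simp [wOut, wM, h1, h2, h3]⟩
      simp only [wOut, wM, h1, if_false, List.singleton_append]
      apply red_cons
      · split_ifs <;> simp
      · intro x hx
        split_ifs at hx
        · simp only [List.head?_cons, Option.mem_def, Option.some.injEq] at hx
          subst hx
          intro h4
          exact h1 (by rw [h4]; rfl)
        · simp at hx
  | cons d l ih =>
    obtain ⟨h1, h2⟩ := ne_nv_of_red h
    obtain ⟨ih1, ih2⟩ := ih d h2
    have hd : d.1 ≠ b.1 ∨ d = b ∨ d = nv b := by
      by_cases h3 : d.1 = b.1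
      · exact Or.inr (fst_eq_iff.1 h3)
      · exact Or.inl h3
    have hnb : (nv b).1 = b.1 := rfl
    have hJ : IsReduced (wJ p b c d ++ wOut p b d l) ∧
        ∀ x ∈ (wJ p b c d ++ wOut p b d l).head?,
          (p c = true → x = b ∨ (x = nv b ∧ d = nv b) ∨
            (x.1 ≠ b.1 ∧ x ≠ nv c ∧ (d ≠ nv b → p (nv x) = true))) ∧
          (p c = false → x = nv b ∨ (x = b ∧ d = b) ∨
            (x.1 ≠ b.1 ∧ x ≠ nv c ∧ (d ≠ b → p (nv x) = false))) := by
      unfold wJ
      cases hc : p c <;> cases hnd : p (nv d)
      · simp only [Bool.false_eq_true, if_false, List.nil_append]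
        refine ⟨ih1, fun x hx => ⟨by simp, fun _ => ?_⟩⟩
        obtain ⟨h4, h5, h6⟩ := ih2 x hx
        rcases hd with h3 | h3 | h3
        · have := h4 h3
          subst this
          exact Or.inr (Or.inr ⟨h3, h1, fun _ => hnd⟩)
        · rcases h5 h3 with h7 | h7
          · exact Or.inr (Or.inl ⟨h7, h3⟩)
          · refine Or.inr (Or.inr ⟨h7.1, ?_, fun h8 => absurd h3 h8⟩)
            rintro rfl
            simp [hc] at h7
        · rw [h3, nv_nv, hp1] at hnd
          simp at hnd
      · simp only [Bool.false_eq_true, if_false, if_true, List.singleton_append]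
        refine ⟨red_cons ih1 fun x hx => ?_, by simp⟩
        obtain ⟨h4, h5, h6⟩ := ih2 x hx
        rw [nv_nv]
        rcases hd with h3 | h3 | h3
        · rw [h4 h3]
          exact fun h => h3 (h ▸ rfl)
        · rw [h3, hp2] at hnd
          simp at hnd
        · rcases h6 h3 with h7 | h7
          · rw [h7]
            exact nv_ne b
          · exact fun h => h7.1 (h ▸ rfl)
      · simp only [Bool.false_eq_true, if_false, if_true, List.singleton_append]
        refine ⟨red_cons ih1 fun x hx => ?_, by simp⟩
        obtain ⟨h4, h5, h6⟩ := ih2 x hx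
        rcases hd with h3 | h3 | h3
        · rw [h4 h3]
          exact fun h => h3 (h ▸ rfl)
        · rcases h5 h3 with h7 | h7
          · rw [h7]
            exact ne_nv b
          · exact fun h => h7.1 (h ▸ rfl)
        · rw [h3, nv_nv, hp1] at hnd
          simp at hnd
      · simp only [if_true, List.nil_append]
        refine ⟨ih1, fun x hx => ⟨fun _ => ?_, by simp⟩⟩
        obtain ⟨h4, h5, h6⟩ := ih2 x hx
        rcases hd with h3 | h3 | h3
        · have := h4 h3
          subst this
          exact Or.inr (Or.inr ⟨h3, h1, fun _ => hnd⟩)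
        · rw [h3, hp2] at hnd
          simp at hnd
        · rcases h6 h3 with h7 | h7
          · exact Or.inr (Or.inl ⟨h7, h3⟩)
          · refine Or.inr (Or.inr ⟨h7.1, ?_, fun h8 => absurd h3 h8⟩)
            rintro rfl
            simp [hc] at h7
    simp only [wOut]
    by_cases h3 : c.1 = b.1
    · simp only [wM, h3, if_true, List.nil_append]
      refine ⟨hJ.1, fun x hx => ⟨fun h => absurd rfl h, ?_, ?_⟩⟩
      · rintro rfl
        rcases (hJ.2 x hx).1 hp1 with h4 | h4 | h4
        · exact Or.inl h4
        · exact absurd h4.2 h1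
        · exact Or.inr ⟨h4.1, h4.2.2 h1⟩
      · rintro rfl
        rw [nv_nv] at h1
        rcases (hJ.2 x hx).2 hp2 with h4 | h4 | h4
        · exact Or.inl h4
        · exact absurd h4.2 h1
        · exact Or.inr ⟨h4.1, h4.2.2 h1⟩
    · have h4 : c ≠ b := fun h => h3 (h ▸ rfl)
      have h5 : c ≠ nv b := fun h => h3 (h ▸ rfl)
      simp only [wM, h3, if_false, List.singleton_append]
      refine ⟨red_cons hJ.1 fun x hx => ?_, by simp [h4, h5]⟩
      have h6 : b ≠ nv c := fun h => h3 (by rw [h]; rfl)
      have h7 : nv b ≠ nv c := fun h => h3 (by rw [nv_inj.1 h])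
      cases hc : p c
      · rcases (hJ.2 x hx).2 hc with h8 | h8 | h8
        · rwa [h8]
        · rwa [h8.1]
        · exact h8.2.1
      · rcases (hJ.2 x hx).1 hc with h8 | h8 | h8
        · rwa [h8]
        · rwa [h8.1]
        · exact h8.2.1

lemma mk_append' (l m : List (Lt α)) :
    FreeGroup.mk (l ++ m) = FreeGroup.mk l * FreeGroup.mk m := FreeGroup.mul_mk.symm

lemma tau_whitehead (Θ : FreeGroup α →* FreeGroup α) (p : Lt α → Bool) (b : Lt α)
    (hp1 : p b = true) (hp2 : p (nv b) = false)
    (hΘ : ∀ c, Θ (gl c) = (if p (nv c) = true then (gl b)⁻¹ else 1) *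
      (if c.1 = b.1 then 1 else gl c) * (if p c = true then gl b else 1)) (t : FreeGroup α) :
    tau (Θ t) = Lam (fun c d => (if c.1 = b.1 then 0 else 1) +
      (if p c = p (nv d) then 0 else 1)) t := by
  refine tau_local Θ _ (fun c => if p (nv c) = true then 1 else 0)
    (fun c => (if c.1 = b.1 then 0 else 1) + (if p c = true then 1 else 0)) ?_ t
  intro a l h
  have hM : ∀ c, FreeGroup.mk (wM b c) = if c.1 = b.1 then 1 else gl c := by
    intro c
    unfold wM
    split_ifs <;> rfl
  have hJ : ∀ c d, FreeGroup.mk (wJ p b c d) = (if p c = true then gl b else 1) *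
      (if p (nv d) = true then (gl b)⁻¹ else 1) := by
    intro c d
    unfold wJ
    split_ifs
    · simp [← FreeGroup.one_eq_mk]
    · simp [gl]
    · rw [one_mul, ← gl_nv]
      rfl
    · simp [← FreeGroup.one_eq_mk]
  have h1 : ∀ (l : List (Lt α)) (c : Lt α), Θ (FreeGroup.mk (c :: l)) =
      (if p (nv c) = true then (gl b)⁻¹ else 1) * FreeGroup.mk (wOut p b c l) := by
    intro l
    induction l with
    | nil =>
      intro c
      have : FreeGroup.mk [c] = gl c := rfl
      rw [this, hΘ, wOut, mk_append', hM, mul_assoc]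
      congr 2
      split_ifs <;> rfl
    | cons d l ih =>
      intro c
      rw [mk_cons, _root_.map_mul, ih, hΘ, wOut, mk_append', mk_append', hM, hJ]
      simp only [mul_assoc]
  have h2 : ∀ (l : List (Lt α)) (c : Lt α), ((wOut p b c l).length : ℤ) =
      ps (fun c d => (if c.1 = b.1 then 0 else 1) + (if p c = p (nv d) then 0 else 1)) c l +
      ((if (l.getLastD c).1 = b.1 then 0 else 1) + (if p (l.getLastD c) = true then 1 else 0)) := by
    intro l
    induction l with
    | nil =>
      intro c
      simp only [wOut, wM, ps, List.getLastD_nil, List.length_append]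
      split_ifs <;> simp
    | cons d l ih =>
      intro c
      simp only [wOut, ps, List.getLastD_cons, List.length_append]
      push_cast
      rw [ih d]
      have e1 : ((wM b c).length : ℤ) = if c.1 = b.1 then 0 else 1 := by
        unfold wM
        split_ifs <;> simp
      have e2 : ((wJ p b c d).length : ℤ) = if p c = p (nv d) then 0 else 1 := by
        unfold wJ
        cases p c <;> cases p (nv d) <;> simp
      rw [e1, e2]
      ring
  obtain ⟨h3, h4⟩ := wOut_red p b hp1 hp2 a l h
  rw [h1, add_assoc, ← h2]
  split_ifs with h5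
  · have h6 : IsReduced (nv b :: wOut p b a l) := by
      refine red_cons h3 fun x hx => ?_
      obtain ⟨h7, h8, h9⟩ := h4 x hx
      rw [nv_nv]
      by_cases h10 : a.1 = b.1
      · rcases fst_eq_iff.1 h10 with h11 | h11
        · rw [h11, hp2] at h5
          simp at h5
        · rcases h9 h11 with h12 | h12
          · rw [h12]
            exact nv_ne b
          · exact fun h => h12.1 (h ▸ rfl)
      · rw [h7 h10]
        exact fun h => h10 (h ▸ rfl)
    rw [← gl_nv, ← mk_cons, FreeGroup.norm, FreeGroup.toWord_mk, h6.reduce_eq, List.length_cons]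
    push_cast
    ring
  · rw [one_mul, FreeGroup.norm, FreeGroup.toWord_mk, h3.reduce_eq]
    ring

lemma tau_eAut (a b : Lt α) (hab : a.1 ≠ b.1) (t : FreeGroup α) :
    tau (eAut a b t) = Lam (fun c d => (if c.1 = b.1 then 0 else 1) +
      (if decide (c = a ∨ c = b) = decide (nv d = a ∨ nv d = b) then 0 else 1)) t := by
  have h1 : a ≠ b := fun h => hab (h ▸ rfl)
  have h2 : a ≠ nv b := fun h => hab (h ▸ rfl)
  have h3 : nv a ≠ b := fun h => hab (h ▸ rfl)
  refine tau_whitehead (eAut a b).toMonoidHom (fun c => decide (c = a ∨ c = b)) b (by simp)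
    (by simp [h2.symm, nv_ne]) ?_ t
  intro c
  have : (eAut a b).toMonoidHom (gl c) = eFun a b c := eAut_gl a b c
  rw [this]
  unfold eFun
  by_cases e1 : c = a
  · subst e1
    simp [hab, nv_ne, h3]
  · by_cases e2 : c = nv a
    · subst e2
      simp [hab, nv_ne, h3, h1]
    · by_cases e3 : c = b
      · subst e3
        simp [hab, e1, e2, nv_ne, h2.symm]
      · by_cases e4 : c = nv b
        · subst e4
          simp [hab, e1, e2, nv_ne, h2.symm]
        · have e5 : c.1 ≠ b.1 := fun h => by
            rcases fst_eq_iff.1 h with h | h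
            · exact e3 h
            · exact e4 h
          have e6 : nv c ≠ a := fun h => e2 (by rw [← h, nv_nv])
          have e7 : nv c ≠ b := fun h => e4 (by rw [← h, nv_nv])
          simp [hab, e1, e2, e3, e5, e6, e7]

end whitehead

end Pool.Agent.H910Z.TE
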